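import Pool.Agent.Q247.EW.Bas
import Pool.Agent.TH75.N4_AFE

/-!
Project EW, job AP1: the approximate functional equation in mean square.
-/

set_option autoImplicit false

namespace Pool.Agent.Q247.EW

open Filter Topology MeasureTheory Pool.Agent.Q80.EW
open Pool.Agent.H306R2.SM (cl)
open Pool.Agent.H448R2.GC (cu cs XX)
open Pool.Agent.TH110.N4_AFP (gs cs_ext norm_XX_cl)

noncomputable section

theorem chi_norm (t : ℝ) : ‖chi t‖ = 1 := norm_XX_cl t

/-- joint continuity -/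
theorem gs_cont2 (N k : ℕ) (c : ℝ) (hc : 0 < c) (a : ℝ) :
    Continuous fun p : ℝ × ℝ => gs N (k + 1) c (cl p.1) (a + p.2) := by
  unfold gs
  refine continuous_finsetSum _ fun m hm => ?_
  rcases Nat.eq_zero_or_pos m with rfl | hm0
  · refine Continuous.mul (Complex.continuous_ofReal.comp ?_) ?_
    · exact (Pool.Agent.H448R2.GC.cu_cont k c hc).comp (by fun_prop)
    · have : (fun p : ℝ × ℝ => ((0 : ℕ) : ℂ) ^ (-(cl p.1))) = fun _ => 0 := by
        funext p
        rw [Nat.cast_zero, Complex.zero_cpow]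
        intro h
        have := congrArg Complex.re h
        unfold cl at this
        norm_num at this
      rw [this]
      exact continuous_const
  · refine Continuous.mul (Complex.continuous_ofReal.comp ?_) ?_
    · exact (Pool.Agent.H448R2.GC.cu_cont k c hc).comp (by fun_prop)
    · have hn0 : (m : ℂ) ≠ 0 := by
        exact_mod_cast hm0.ne'
      refine Continuous.const_cpow ?_ (Or.inl hn0)
      unfold cl
      fun_prop

/-- the mean of the error term of the approximate functional equation -/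
theorem err_int {C : ℝ} (hC : 0 < C) (hMV : ∀ (X : ℕ) (f : ArithmeticFunction ℂ), FS X f →
    ∀ a b : ℝ, a ≤ b → |(∫ t in a..b, ‖dp f t‖ ^ 2) - (b - a) * nm f| ≤ C * X * nm f)
    {k : ℕ} {c D2 T : ℝ} (hc : 0 < c) (hT : 1 ≤ T)
    (hD : D2 + 3 + ((k : ℝ) + 2) * c ≤ Real.log T) :
    ContinuousOn (fun t => ∫ u in (-3 : ℝ)..3, (‖cs (k + 1) c (D2 + u + c) (cl t)‖ ^ 2 +
      ‖cs (k + 1) c (D2 + u) (cl t)‖ ^ 2)) (Set.Icc T (4 * T)) ∧
    ∫ t in T..(4 * T), ∫ u in (-3 : ℝ)..3, (‖cs (k + 1) c (D2 + u + c) (cl t)‖ ^ 2 +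
      ‖cs (k + 1) c (D2 + u) (cl t)‖ ^ 2) ≤ 12 * ((3 + C) * T * (1 + Real.log T)) := by
  have hT0 : 0 < T := by linarith
  obtain ⟨X, hX⟩ : ∃ X : ℕ, X = ⌊T⌋₊ := ⟨_, rfl⟩
  have hXT : (X : ℝ) ≤ T := by
    rw [hX]
    exact Nat.floor_le hT0.le
  have hX1 : 1 ≤ X := by
    rw [hX]
    exact Nat.le_floor (by exact_mod_cast hT)
  have hex : ∀ D : ℝ, D + ((k : ℝ) + 1) * c ≤ Real.log T →
      Real.exp (D + ((k + 1 : ℕ) : ℝ) * c) ≤ T := by
    intro D h
    have h1 : D + ((k + 1 : ℕ) : ℝ) * c ≤ Real.log T := by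
      push_cast
      exact h
    calc Real.exp (D + ((k + 1 : ℕ) : ℝ) * c) ≤ Real.exp (Real.log T) := Real.exp_le_exp.2 h1
      _ = T := Real.exp_log hT0
  have hu : ∀ u ∈ Set.uIcc (-3 : ℝ) 3, D2 + u + c + ((k : ℝ) + 1) * c ≤ Real.log T ∧
      D2 + u + ((k : ℝ) + 1) * c ≤ Real.log T := by
    intro u hu
    rw [Set.uIcc_of_le (by norm_num)] at hu
    constructor
    · linarith [hu.2]
    · linarith [hu.2]
  obtain ⟨N, hN⟩ := exists_nat_ge T
  have e1 : ∀ t : ℝ, ∀ u ∈ Set.uIcc (-3 : ℝ) 3, (‖cs (k + 1) c (D2 + u + c) (cl t)‖ ^ 2 +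
      ‖cs (k + 1) c (D2 + u) (cl t)‖ ^ 2) = ‖gs N (k + 1) c (cl t) (D2 + c + u)‖ ^ 2 +
      ‖gs N (k + 1) c (cl t) (D2 + u)‖ ^ 2 := by
    intro t u h
    obtain ⟨h1, h2⟩ := hu u h
    rw [cs_ext (k + 1) c (D2 + u + c) hc N ((hex _ h1).trans hN),
      cs_ext (k + 1) c (D2 + u) hc N ((hex _ h2).trans hN),
      show D2 + u + c = D2 + c + u by ring]
  obtain ⟨F, hF⟩ : ∃ F : ℝ → ℝ → ℝ, F = fun t u => ‖gs N (k + 1) c (cl t) (D2 + c + u)‖ ^ 2 +
      ‖gs N (k + 1) c (cl t) (D2 + u)‖ ^ 2 := ⟨_, rfl⟩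
  have hFc : Continuous F.uncurry := by
    rw [hF]
    exact ((gs_cont2 N k c hc (D2 + c)).norm.pow 2).add ((gs_cont2 N k c hc D2).norm.pow 2)
  have e2 : ∀ t : ℝ, ∫ u in (-3 : ℝ)..3, (‖cs (k + 1) c (D2 + u + c) (cl t)‖ ^ 2 +
      ‖cs (k + 1) c (D2 + u) (cl t)‖ ^ 2) = ∫ u in (-3 : ℝ)..3, F t u := by
    intro t
    rw [hF]
    exact intervalIntegral.integral_congr fun u h => e1 t u h
  constructor
  · refine ContinuousOn.congr ?_ fun t _ => e2 t
    exact (intervalIntegral.continuous_parametric_intervalIntegral_of_continuous' hFc _ _).continuousOn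
  · simp only [e2]
    rw [intervalIntegral_intervalIntegral_swap]
    · have h1 : ∀ u ∈ Set.Icc (-3 : ℝ) 3, ∫ t in T..(4 * T), F t u ≤
          2 * ((3 + C) * T * (1 + Real.log T)) := by
        intro u h
        obtain ⟨h1, h2⟩ := hu u (by rw [Set.uIcc_of_le (by norm_num)]; exact h)
        have key : ∀ D : ℝ, D + ((k : ℝ) + 1) * c ≤ Real.log T →
            ∫ t in T..(4 * T), ‖dp (cf (k + 1) c D) t‖ ^ 2 ≤ (3 + C) * T * (1 + Real.log T) := by
          intro D hD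
          have h3 : FS X (cf (k + 1) c D) := cf_FS (by
            rw [hX]
            exact Nat.floor_mono (hex D hD))
          refine (mv_le hC hMV h3 hXT (by linarith : T ≤ 4 * T)).trans ?_
          have h4 : (4 * T - T + C * T) = (3 + C) * T := by ring
          rw [h4]
          refine mul_le_mul_of_nonneg_left ?_ (by positivity)
          refine (nm_le_log h3 (cf_norm hc _ _)).trans ?_
          have h5 : Real.log X ≤ Real.log T := Real.log_le_log (by exact_mod_cast hX1) hXT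
          linarith
        have h3 : ∫ t in T..(4 * T), F t u = (∫ t in T..(4 * T), ‖dp (cf (k + 1) c (D2 + u + c)) t‖ ^ 2) +
            ∫ t in T..(4 * T), ‖dp (cf (k + 1) c (D2 + u)) t‖ ^ 2 := by
          rw [← intervalIntegral.integral_add]
          · refine intervalIntegral.integral_congr fun t _ => ?_
            rw [hF]
            simp only
            rw [← cs_dp, ← cs_dp, cs_ext (k + 1) c (D2 + u + c) hc N ((hex _ h1).trans hN),
              cs_ext (k + 1) c (D2 + u) hc N ((hex _ h2).trans hN),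
              show D2 + u + c = D2 + c + u by ring]
          · exact ((dp_cont (cf_FS le_rfl)).norm.pow 2).intervalIntegrable _ _
          · exact ((dp_cont (cf_FS le_rfl)).norm.pow 2).intervalIntegrable _ _
        rw [h3]
        have h4 := key _ h1
        have h5 := key _ h2
        linarith
      have h2 : Continuous fun u => ∫ t in T..(4 * T), F t u :=
        intervalIntegral.continuous_parametric_intervalIntegral_of_continuous'
          (f := fun u t => F t u) (hFc.comp continuous_swap) _ _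
      refine (intervalIntegral.integral_mono_on (by norm_num) (h2.intervalIntegrable _ _)
        (continuous_const.intervalIntegrable _ _) h1).trans ?_
      rw [intervalIntegral.integral_const, smul_eq_mul]
      linarith
    · refine (hFc.continuousOn.integrableOn_compact
        (K := Set.uIcc T (4 * T) ×ˢ Set.uIcc (-3 : ℝ) 3) (isCompact_uIcc.prod isCompact_uIcc)).mono_set ?_
      exact Set.prod_mono Set.uIoc_subset_uIcc Set.uIoc_subset_uIcc

/-- the norm of the difference of two sets of coefficients -/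
theorem nm_diff {f d : ArithmeticFunction ℂ} {X : ℕ} (hf : FS X f) (hd : FS X d) {A B S : ℝ}
    (hA : 1 ≤ A) (hAB : A ≤ B) (hAS : A ≤ S)
    (h1 : ∀ n : ℕ, ∃ r : ℝ, f n = (r : ℂ) ∧ 0 ≤ r ∧ r ≤ 1) (h2 : ∀ n : ℕ, d n = 0 ∨ d n = 1)
    (h3 : ∀ n : ℕ, 1 ≤ n → (n : ℝ) ≤ A → f n = 1) (h4 : ∀ n : ℕ, B < (n : ℝ) → f n = 0 ∧ d n = 0) :
    nm (df f d) ≤ ∑ n ∈ Finset.Icc 1 ⌊S⌋₊, (1 - ‖d n‖) / (n : ℝ) + (Real.log B - Real.log A + 1) := by
  have hd1 : ∀ n, 0 ≤ 1 - ‖d n‖ := by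
    intro n
    rcases h2 n with h | h <;> rw [h] <;> simp
  rw [nm_eq (df_FS hf hd)]
  have h5 : ∀ n ∈ Finset.Icc 1 X, ‖df f d n‖ ^ 2 / (n : ℝ) ≤
      (if (n : ℝ) ≤ A then (1 - ‖d n‖) / (n : ℝ) else 0) +
      (if A < (n : ℝ) ∧ (n : ℝ) ≤ B then (1 : ℝ) / (n : ℝ) else 0) := by
    intro n hn
    rw [Finset.mem_Icc] at hn
    rw [df_apply]
    by_cases c1 : (n : ℝ) ≤ A
    · rw [if_pos c1, if_neg (fun h => absurd c1 (not_le.2 h.1)), add_zero, h3 n hn.1 c1]
      rcases h2 n with h | h <;> rw [h] <;> simp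
    · rw [if_neg c1, zero_add]
      by_cases c2 : (n : ℝ) ≤ B
      · rw [if_pos ⟨not_le.1 c1, c2⟩]
        refine div_le_div_of_nonneg_right ?_ (by positivity)
        refine pow_le_one₀ (norm_nonneg _) ?_
        obtain ⟨r, hr, hr0, hr1⟩ := h1 n
        rcases h2 n with h | h
        · rw [h, hr, sub_zero, Complex.norm_real, Real.norm_eq_abs, abs_of_nonneg hr0]
          exact hr1
        · rw [h, hr, ← Complex.ofReal_one, ← Complex.ofReal_sub, Complex.norm_real,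
            Real.norm_eq_abs, abs_of_nonpos (by linarith)]
          linarith
      · rw [if_neg (fun h => c2 h.2)]
        obtain ⟨e1, e2⟩ := h4 n (not_le.1 c2)
        rw [e1, e2]
        simp
  refine (Finset.sum_le_sum h5).trans ?_
  rw [Finset.sum_add_distrib, ← Finset.sum_filter, ← Finset.sum_filter]
  refine add_le_add ?_ (sum_real_inv hA hAB X)
  refine Finset.sum_le_sum_of_subset_of_nonneg ?_ fun n _ _ => div_nonneg (hd1 n) (by positivity)
  intro n hn
  rw [Finset.mem_filter, Finset.mem_Icc] at hn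
  rw [Finset.mem_Icc]
  exact ⟨hn.1.1, Nat.le_floor (hn.2.trans hAS)⟩

theorem sq_three (a b c : ℂ) : ‖a + b + c‖ ^ 2 ≤ 3 * ‖a‖ ^ 2 + 3 * ‖b‖ ^ 2 + 3 * ‖c‖ ^ 2 := by
  have h1 : ‖a + b + c‖ ≤ ‖a‖ + ‖b‖ + ‖c‖ := norm_add₃_le
  have h2 : ‖a + b + c‖ ^ 2 ≤ (‖a‖ + ‖b‖ + ‖c‖) ^ 2 := pow_le_pow_left₀ (norm_nonneg _) h1 2
  nlinarith [sq_nonneg (‖a‖ - ‖b‖), sq_nonneg (‖a‖ - ‖c‖), sq_nonneg (‖b‖ - ‖c‖)]

theorem t_AP1 (hJ : J_MV) : J_AP1 := by
  obtain ⟨C, hC, hMV⟩ := hJ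
  refine ⟨45 * (3 + C) + 1, by positivity, ?_⟩
  intro η hη hη1
  obtain ⟨k₀, hk₀⟩ := (Pool.Agent.TH110.N4_AFP.t_AFP Pool.Agent.TH75.N4_AFE.t_AFE) η hη hη1
  obtain ⟨Ck, T₀, hCk, hAF⟩ := hk₀ (k₀ + 1) (by omega)
  have hLt : Tendsto (fun T : ℝ => η * Real.log T) atTop atTop :=
    Real.tendsto_log_atTop.const_mul_atTop hη
  filter_upwards [eventually_ge_atTop T₀, eventually_ge_atTop 1,
    Real.tendsto_log_atTop.eventually (eventually_ge_atTop 10),
    hLt.eventually (eventually_ge_atTop 18),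
    hLt.eventually (eventually_ge_atTop (144 * Ck * (3 + C)))] with T hT0 hT1 hL10 hL18 hLC
  intro d hd01 hd0 hds
  have hTp : 0 < T := by linarith
  obtain ⟨L, hL⟩ : ∃ L, L = Real.log T := ⟨_, rfl⟩
  rw [← hL] at hL10 hL18 hLC hds ⊢
  have hexp : ∀ x : ℝ, T ^ x = Real.exp (x * L) := by
    intro x
    rw [Real.rpow_def_of_pos hTp, ← hL, mul_comm]
  have hTe : T = Real.exp L := by rw [hL, Real.exp_log hTp]
  obtain ⟨c, hc⟩ : ∃ c, c = η * Real.log T / (((k₀ + 1 : ℕ) : ℝ) + 1) := ⟨_, rfl⟩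
  have hkc : ((k₀ : ℝ) + 2) * c = η * L := by
    rw [hc, ← hL]
    push_cast
    field_simp
    ring
  have hcp : 0 < c := by
    rw [hc, ← hL]
    positivity
  obtain ⟨D1, hD1⟩ : ∃ D1, D1 = (1 / 2 - 2 * η) * Real.log T := ⟨_, rfl⟩
  obtain ⟨D2, hD2⟩ : ∃ D2, D2 = Real.log (T / (2 * Real.pi)) - D1 - η * Real.log T := ⟨_, rfl⟩
  have hAp := fun t h1 h2 => hAF T hT0 t h1 h2 c D1 D2 hc hD1 hD2
  have hpi : 0 ≤ Real.log (2 * Real.pi) := Real.log_nonneg (by linarith [Real.pi_gt_three])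
  have hpi2 : Real.log (2 * Real.pi) ≤ 2 := by
    rw [Real.log_le_iff_le_exp (by positivity)]
    have h1 : (2.7 : ℝ) ≤ Real.exp 1 := by linarith [Real.exp_one_gt_d9]
    have h2 : Real.exp 2 = Real.exp 1 * Real.exp 1 := by rw [← Real.exp_add]; norm_num
    rw [h2]
    nlinarith [Real.pi_lt_d2]
  rw [Real.log_div hTp.ne' (by positivity), ← hL, hD1, ← hL] at hD2
  rw [← hL] at hD1
  have hηL : η * L ≤ L / 100 := by nlinarith
  -- the range
  obtain ⟨X, hX⟩ : ∃ X : ℕ, X = ⌊T⌋₊ := ⟨_, rfl⟩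
  have hXT : (X : ℝ) ≤ T := by
    rw [hX]
    exact Nat.floor_le hTp.le
  have hfl : ∀ D : ℝ, D + η * L ≤ L → ⌊Real.exp (D + ((k₀ + 1 + 1 : ℕ) : ℝ) * c)⌋₊ ≤ X := by
    intro D hD
    rw [hX]
    refine Nat.floor_mono ?_
    rw [hTe]
    refine Real.exp_le_exp.2 ?_
    have : ((k₀ + 1 + 1 : ℕ) : ℝ) = (k₀ : ℝ) + 2 := by push_cast; ring
    rw [this, hkc]
    exact hD
  have hd1 : D1 + η * L ≤ L := by
    rw [hD1]
    nlinarith
  have hd2 : D2 + η * L ≤ L := by
    rw [hD2]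
    nlinarith
  have hf1 : FS X (cf (k₀ + 1 + 1) c D1) := cf_FS (hfl D1 hd1)
  have hf2 : FS X (cf (k₀ + 1 + 1) c D2) := cf_FS (hfl D2 hd2)
  have hfd : FS X d := by
    intro n hn
    apply hd0
    have h1 : T < (n : ℝ) := by
      rw [hX] at hn
      exact Nat.lt_of_floor_lt hn
    refine lt_of_le_of_lt ?_ h1
    rw [hexp]
    calc Real.exp ((1 / 2 - η) * L) ≤ Real.exp L := Real.exp_le_exp.2 (by nlinarith)
      _ = T := hTe.symm
  have hsqrt : Real.sqrt T = Real.exp (1 / 2 * L) := by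
    rw [Real.sqrt_eq_rpow, hexp]
  have hcfz : ∀ (D : ℝ) (n : ℕ), Real.exp (D + η * L) < (n : ℝ) → cf (k₀ + 1 + 1) c D n = 0 := by
    intro D n hn
    rw [cf_apply, if_pos]
    right
    rw [Nat.floor_lt (Real.exp_pos _).le]
    have : ((k₀ + 1 + 1 : ℕ) : ℝ) = (k₀ : ℝ) + 2 := by push_cast; ring
    rw [this, hkc]
    exact hn
  have hcf1 : ∀ (D : ℝ) (n : ℕ), 1 ≤ n → (n : ℝ) ≤ Real.exp D → cf (k₀ + 1 + 1) c D n = 1 := by
    intro D n hn1 hn
    have hn0 : (0 : ℝ) < n := by exact_mod_cast hn1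
    rw [cf_apply, if_neg, Pool.Agent.H448R2.GC.cu_one _ _ _ hcp]
    · rfl
    · rw [sub_nonpos, Real.log_le_iff_le_exp hn0]
      exact hn
    · rw [not_or]
      refine ⟨by omega, ?_⟩
      rw [not_lt]
      refine Nat.le_floor (hn.trans (Real.exp_le_exp.2 ?_))
      have : 0 ≤ ((k₀ + 1 + 1 : ℕ) : ℝ) * c := by positivity
      linarith
  -- the first difference
  have n1 : nm (df (cf (k₀ + 1 + 1) c D1) d) ≤ 7 * η * L := by
    have h := nm_diff (A := Real.exp ((1 / 2 - 2 * η) * L)) (B := Real.exp ((1 / 2 - η) * L))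
      (S := Real.sqrt T) hf1 hfd (Real.one_le_exp (by nlinarith))
      (Real.exp_le_exp.2 (by nlinarith)) (by rw [hsqrt]; exact Real.exp_le_exp.2 (by nlinarith))
      (cf_bd hcp _ _) hd01 (fun n h1 h2 => hcf1 D1 n h1 (by rw [hD1]; exact h2))
      (fun n hn => ⟨hcfz D1 n (by
        refine lt_of_le_of_lt (Real.exp_le_exp.2 ?_) hn
        rw [hD1]
        nlinarith), hd0 n (by rw [hexp]; exact hn)⟩)
    rw [Real.log_exp, Real.log_exp] at h
    nlinarith
  have n2 : nm (df (cf (k₀ + 1 + 1) c D2) d) ≤ 8 * η * L := by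
    have h := nm_diff (A := Real.exp (1 / 2 * L)) (B := Real.exp ((1 / 2 + 2 * η) * L))
      (S := Real.sqrt T) hf2 hfd (Real.one_le_exp (by nlinarith))
      (Real.exp_le_exp.2 (by nlinarith)) (by rw [hsqrt])
      (cf_bd hcp _ _) hd01 (fun n h1 h2 => hcf1 D2 n h1 (h2.trans (Real.exp_le_exp.2 (by
        rw [hD2]
        nlinarith))))
      (fun n hn => ⟨hcfz D2 n (by
        refine lt_of_le_of_lt (Real.exp_le_exp.2 ?_) hn
        rw [hD2]
        nlinarith), hd0 n (by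
        rw [hexp]
        refine lt_of_le_of_lt (Real.exp_le_exp.2 ?_) hn
        nlinarith)⟩)
    rw [Real.log_exp, Real.log_exp] at h
    nlinarith
  -- the mean squares
  have m1 := mv_le hC hMV (df_FS hf1 hfd) hXT (by linarith : T ≤ 4 * T)
  have m2 := mv_le hC hMV (df_FS hf2 hfd) hXT (by linarith : T ≤ 4 * T)
  have hC3 : 0 ≤ (3 + C) * T := by positivity
  have e34 : 4 * T - T + C * T = (3 + C) * T := by ring
  rw [e34] at m1 m2
  have m1' := m1.trans (mul_le_mul_of_nonneg_left n1 hC3)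
  have m2' := m2.trans (mul_le_mul_of_nonneg_left n2 hC3)
  obtain ⟨I, hI⟩ : ∃ I : ℝ → ℝ, I = fun t => ∫ u in (-3 : ℝ)..3,
      (‖cs (k₀ + 1) c (D2 + u + c) (cl t)‖ ^ 2 + ‖cs (k₀ + 1) c (D2 + u) (cl t)‖ ^ 2) := ⟨_, rfl⟩
  obtain ⟨hIc, hIi⟩ := err_int hC hMV (k := k₀) (c := c) (D2 := D2) (T := T) hcp hT1 (by
    rw [hkc, ← hL, hD2]
    nlinarith)
  rw [← hI] at hIc
  have hIi' : ∫ t in T..(4 * T), I t ≤ 12 * ((3 + C) * T * (1 + L)) := by
    rw [hI, hL]
    exact hIi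
  -- the pointwise bound
  have hpt : ∀ t ∈ Set.Icc T (4 * T),
      ‖ze t - dp d t - chi t * (starRingEnd ℂ) (dp d t)‖ ^ 2 ≤
      3 * (T ^ (-(1 / 3) : ℝ) + Ck / L ^ 2 * I t) +
      3 * ‖dp (df (cf (k₀ + 1 + 1) c D1) d) t‖ ^ 2 +
      3 * ‖dp (df (cf (k₀ + 1 + 1) c D2) d) t‖ ^ 2 := by
    intro t ht
    have h1 := hAp t (by linarith [ht.1]) (by linarith [ht.2])
    rw [cs_dp, cs_dp, ← hL] at h1
    have h2 : ze t - dp d t - chi t * (starRingEnd ℂ) (dp d t) =
        (riemannZeta (cl t) - dp (cf (k₀ + 1 + 1) c D1) t -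
          XX (1 - cl t) * (starRingEnd ℂ) (dp (cf (k₀ + 1 + 1) c D2) t)) +
        dp (df (cf (k₀ + 1 + 1) c D1) d) t +
        chi t * (starRingEnd ℂ) (dp (df (cf (k₀ + 1 + 1) c D2) d) t) := by
      rw [dp_df hf1 hfd, dp_df hf2 hfd, map_sub]
      have e1 : ze t = riemannZeta (cl t) := rfl
      have e2 : chi t = XX (1 - cl t) := rfl
      rw [e1, e2]
      ring
    rw [h2]
    refine (sq_three _ _ _).trans ?_
    rw [norm_mul, chi_norm, one_mul, RCLike.norm_conj]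
    have h3 : I t = ∫ u in (-3 : ℝ)..3,
      (‖cs (k₀ + 1) c (D2 + u + c) (cl t)‖ ^ 2 + ‖cs (k₀ + 1) c (D2 + u) (cl t)‖ ^ 2) := by rw [hI]
    rw [h3]
    linarith
  have hTT : T ≤ 4 * T := by linarith
  have i1 : IntervalIntegrable I volume T (4 * T) := by
    refine ContinuousOn.intervalIntegrable ?_
    rw [Set.uIcc_of_le hTT]
    exact hIc
  have i2 : IntervalIntegrable (fun t => ‖dp (df (cf (k₀ + 1 + 1) c D1) d) t‖ ^ 2) volume T (4 * T) :=
    ((dp_cont (df_FS hf1 hfd)).norm.pow 2).intervalIntegrable _ _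
  have i3 : IntervalIntegrable (fun t => ‖dp (df (cf (k₀ + 1 + 1) c D2) d) t‖ ^ 2) volume T (4 * T) :=
    ((dp_cont (df_FS hf2 hfd)).norm.pow 2).intervalIntegrable _ _
  have i0 : IntervalIntegrable (fun t => 3 * (T ^ (-(1 / 3) : ℝ) + Ck / L ^ 2 * I t)) volume T (4 * T) :=
    ((intervalIntegrable_const).add (i1.const_mul _)).const_mul _
  have hint : ∫ t in T..(4 * T), ‖ze t - dp d t - chi t * (starRingEnd ℂ) (dp d t)‖ ^ 2 ≤
      ∫ t in T..(4 * T), (3 * (T ^ (-(1 / 3) : ℝ) + Ck / L ^ 2 * I t) +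
      3 * ‖dp (df (cf (k₀ + 1 + 1) c D1) d) t‖ ^ 2 +
      3 * ‖dp (df (cf (k₀ + 1 + 1) c D2) d) t‖ ^ 2) := by
    rw [intervalIntegral.integral_of_le hTT, intervalIntegral.integral_of_le hTT]
    refine integral_mono_of_nonneg (Eventually.of_forall fun t => by positivity) ?_ ?_
    · have := (i0.add (i2.const_mul 3)).add (i3.const_mul 3)
      rw [intervalIntegrable_iff_integrableOn_Ioc_of_le hTT] at this
      exact this
    · rw [EventuallyLE, ae_restrict_iff' measurableSet_Ioc]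
      exact Eventually.of_forall fun t ht => hpt t ⟨ht.1.le, ht.2⟩
  refine hint.trans ?_
  rw [intervalIntegral.integral_add (i0.add (i2.const_mul 3)) (i3.const_mul 3),
    intervalIntegral.integral_add i0 (i2.const_mul 3), intervalIntegral.integral_const_mul,
    intervalIntegral.integral_const_mul, intervalIntegral.integral_const_mul,
    intervalIntegral.integral_add intervalIntegrable_const (i1.const_mul _),
    intervalIntegral.integral_const, intervalIntegral.integral_const_mul, smul_eq_mul]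
  have hLp : 0 < L := by linarith
  have t1 : T ^ (-(1 / 3) : ℝ) ≤ 1 := by
    rw [hexp]
    rw [Real.exp_le_one_iff]
    linarith
  have t2 : (4 * T - T) * T ^ (-(1 / 3) : ℝ) ≤ 3 * T := by
    have : (4 * T - T) * T ^ (-(1 / 3) : ℝ) ≤ (4 * T - T) * 1 :=
      mul_le_mul_of_nonneg_left t1 (by linarith)
    linarith
  have t3 : Ck / L ^ 2 * ∫ t in T..(4 * T), I t ≤ η * L * T / 6 := by
    have h1 : Ck / L ^ 2 * ∫ t in T..(4 * T), I t ≤ Ck / L ^ 2 * (12 * ((3 + C) * T * (1 + L))) :=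
      mul_le_mul_of_nonneg_left hIi' (by positivity)
    refine h1.trans ?_
    rw [div_mul_eq_mul_div, div_le_iff₀ (by positivity)]
    have h2 : 1 + L ≤ 2 * L := by linarith
    have h3 : Ck * (12 * ((3 + C) * T * (1 + L))) ≤ Ck * (12 * ((3 + C) * T * (2 * L))) := by
      gcongr
    have h4 : Ck * (12 * ((3 + C) * T * (2 * L))) = (144 * Ck * (3 + C)) * (T * L) / 6 := by ring
    have h5 : (144 * Ck * (3 + C)) * (T * L) ≤ (η * L) * (T * L) :=
      mul_le_mul_of_nonneg_right hLC (by positivity)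
    have h6 : (η * L) * (T * L) ≤ η * L * T * L ^ 2 := by
      have h7 : T * L ≤ T * L ^ 2 := by
        have h8 : L ≤ L ^ 2 := by nlinarith
        exact mul_le_mul_of_nonneg_left h8 hTp.le
      calc (η * L) * (T * L) ≤ (η * L) * (T * L ^ 2) :=
            mul_le_mul_of_nonneg_left h7 (by positivity)
        _ = η * L * T * L ^ 2 := by ring
    linarith
  have t4 : 3 * T ≤ η * L * T / 6 := by
    have h1 : 18 * T ≤ η * L * T := mul_le_mul_of_nonneg_right hL18 hTp.le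
    linarith
  have t5 : (3 + C) * T * (7 * η * L) = 7 * (3 + C) * (η * L * T) := by ring
  have t6 : (3 + C) * T * (8 * η * L) = 8 * (3 + C) * (η * L * T) := by ring
  rw [t5] at m1'
  rw [t6] at m2'
  have t7 : (45 * (3 + C) + 1) * η * T * L = 45 * (3 + C) * (η * L * T) + η * L * T := by ring
  rw [t7]
  linarith

end

end Pool.Agent.Q247.EW
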