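import Pool.Agent.Q247.EW.AP2b

/-!
Project EW, job AP2: the off-diagonal term is small in mean over windows.
-/

set_option autoImplicit false

namespace Pool.Agent.Q247.EW

open Filter Topology MeasureTheory Pool.Agent.Q80.EW

noncomputable section

/-- the damped coefficients -/
def bv (c : ArithmeticFunction ℂ) (v : ℝ) : ArithmeticFunction ℂ :=
  ⟨fun n => c n * (((n : ℝ) ^ v : ℝ) : ℂ), by simp⟩

theorem bv_apply (c : ArithmeticFunction ℂ) (v : ℝ) (n : ℕ) :
    bv c v n = c n * (((n : ℝ) ^ v : ℝ) : ℂ) := rfl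

theorem bv_FS {X : ℕ} {c : ArithmeticFunction ℂ} (hc : FS X c) (v : ℝ) : FS X (bv c v) := by
  intro n hn
  rw [bv_apply, hc n hn, zero_mul]

theorem np_cont {n : ℕ} (hn : 1 ≤ n) : Continuous (np n) := by
  have hn0 : (n : ℂ) ≠ 0 := by
    have : n ≠ 0 := by omega
    exact_mod_cast this
  unfold np
  exact Continuous.const_cpow (by fun_prop) (Or.inl hn0)

theorem bv_cont2 {X : ℕ} {c : ArithmeticFunction ℂ} (hc : FS X c) (u : ℝ) :
    Continuous fun p : ℝ × ℝ => dp (bv c p.2) (p.1 + u) := by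
  have h1 : (fun p : ℝ × ℝ => dp (bv c p.2) (p.1 + u)) = fun p : ℝ × ℝ =>
      ∑ n ∈ Finset.Icc 1 X, c n * (((n : ℝ) ^ p.2 : ℝ) : ℂ) * np n (p.1 + u) := by
    funext p
    rw [dp_np (bv_FS hc p.2)]
    rfl
  rw [h1]
  refine continuous_finsetSum _ fun n hn => ?_
  rw [Finset.mem_Icc] at hn
  have hn0 : (n : ℝ) ≠ 0 := by
    have : n ≠ 0 := by omega
    exact_mod_cast this
  refine Continuous.mul (continuous_const.mul (Complex.continuous_ofReal.comp ?_)) ?_
  · exact (Real.continuous_const_rpow hn0).comp continuous_snd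
  · exact (np_cont hn.1).comp (by fun_prop)

theorem bv_cont1 {X : ℕ} {c : ArithmeticFunction ℂ} (hc : FS X c) (t : ℝ) :
    Continuous fun v : ℝ => dp (bv c v) t := by
  have h1 : (fun v : ℝ => dp (bv c v) t) = fun v : ℝ =>
      ∑ n ∈ Finset.Icc 1 X, c n * (((n : ℝ) ^ v : ℝ) : ℂ) * np n t := by
    funext v
    rw [dp_np (bv_FS hc v)]
    rfl
  rw [h1]
  refine continuous_finsetSum _ fun n hn => ?_
  rw [Finset.mem_Icc] at hn
  have hn0 : (n : ℝ) ≠ 0 := by
    have : n ≠ 0 := by omega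
    exact_mod_cast this
  exact (continuous_const.mul (Complex.continuous_ofReal.comp
    (Real.continuous_const_rpow hn0))).mul continuous_const

theorem nm_bv {X : ℕ} {c : ArithmeticFunction ℂ} (hc : FS X c) {b v : ℝ} (hv : 0 ≤ v)
    (hb : ∀ n ∈ Finset.Icc 1 X, Real.log n ≤ b) :
    nm (bv c v) ≤ Real.exp (b * v) ^ 2 * nm c := by
  rw [nm_eq (bv_FS hc v), nm_eq hc, Finset.mul_sum]
  refine Finset.sum_le_sum fun n hn => ?_
  have hn1 := (Finset.mem_Icc.1 hn).1
  have hn0 : (0 : ℝ) < n := by exact_mod_cast hn1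
  rw [bv_apply, norm_mul, mul_pow, Complex.norm_real, Real.norm_eq_abs,
    abs_of_nonneg (by positivity), mul_comm, mul_div_assoc]
  refine mul_le_mul_of_nonneg_right ?_ (by positivity)
  refine pow_le_pow_left₀ (by positivity) ?_ 2
  rw [Real.rpow_def_of_pos hn0]
  exact Real.exp_le_exp.2 (mul_le_mul_of_nonneg_right (hb n hn) hv)

/-- the bound for the integral with the frozen phase -/
theorem mid {X : ℕ} {c : ArithmeticFunction ℂ} (hc : FS X c) {l m U V t : ℝ} (hm : 0 < m)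
    (hl : ∀ n ∈ Finset.Icc 1 X, m ≤ l - Real.log n) (hV : 0 ≤ V) :
    ‖∫ h in (0 : ℝ)..U, Complex.exp (((h * l : ℝ) : ℂ) * Complex.I) * dp c (t + h)‖ ≤
      (∫ v in (0 : ℝ)..V, Real.exp (-(l * v)) * (‖dp (bv c v) (t + U)‖ + ‖dp (bv c v) t‖)) +
      2 * Real.exp (-(m * V)) / m * ∑ n ∈ Finset.Icc 1 X, ‖c n‖ := by
  obtain ⟨a, ha⟩ : ∃ a : ℕ → ℂ, a = fun n => c n * np n t *
      (Complex.exp (((U * (l - Real.log n) : ℝ) : ℂ) * Complex.I) - 1) := ⟨_, rfl⟩
  obtain ⟨S, hS⟩ : ∃ S : ℝ → ℂ, S = fun v => ∑ n ∈ Finset.Icc 1 X,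
      a n * ((Real.exp (-((l - Real.log n) * v)) : ℝ) : ℂ) := ⟨_, rfl⟩
  have hnp : ∀ n ∈ Finset.Icc 1 X, ∀ h : ℝ,
      Complex.exp (((h * l : ℝ) : ℂ) * Complex.I) * (c n * np n (t + h)) =
      c n * np n t * Complex.exp (((h * (l - Real.log n) : ℝ) : ℂ) * Complex.I) := by
    intro n hn h
    rw [np_add (Finset.mem_Icc.1 hn).1]
    have h1 : Complex.exp (((h * (l - Real.log n) : ℝ) : ℂ) * Complex.I) =
        Complex.exp (((h * l : ℝ) : ℂ) * Complex.I) *
        Complex.exp (((-(h * Real.log n) : ℝ) : ℂ) * Complex.I) := by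
      rw [← Complex.exp_add]
      congr 1
      push_cast
      ring
    rw [h1]
    ring
  have e1 : ∫ h in (0 : ℝ)..U, Complex.exp (((h * l : ℝ) : ℂ) * Complex.I) * dp c (t + h) =
      -Complex.I * ((∫ v in (0 : ℝ)..V, S v) + ∑ n ∈ Finset.Icc 1 X,
        a n * ((Real.exp (-((l - Real.log n) * V)) / (l - Real.log n) : ℝ) : ℂ)) := by
    have h1 : ∀ h : ℝ, Complex.exp (((h * l : ℝ) : ℂ) * Complex.I) * dp c (t + h) =
        ∑ n ∈ Finset.Icc 1 X, c n * np n t *
          Complex.exp (((h * (l - Real.log n) : ℝ) : ℂ) * Complex.I) := by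
      intro h
      rw [dp_np hc, Finset.mul_sum]
      exact Finset.sum_congr rfl fun n hn => hnp n hn h
    simp only [h1]
    rw [intervalIntegral.integral_finset_sum (fun n _ =>
      ((by fun_prop : Continuous fun h : ℝ => c n * np n t *
        Complex.exp (((h * (l - Real.log n) : ℝ) : ℂ) * Complex.I)).intervalIntegrable _ _))]
    have h2 : ∫ v in (0 : ℝ)..V, S v = ∑ n ∈ Finset.Icc 1 X,
        a n * ((∫ v in (0 : ℝ)..V, Real.exp (-((l - Real.log n) * v)) : ℝ) : ℂ) := by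
      rw [hS]
      simp only
      rw [intervalIntegral.integral_finset_sum (fun n _ =>
        ((by fun_prop : Continuous fun v : ℝ =>
          a n * ((Real.exp (-((l - Real.log n) * v)) : ℝ) : ℂ)).intervalIntegrable _ _))]
      refine Finset.sum_congr rfl fun n _ => ?_
      rw [intervalIntegral.integral_const_mul, intervalIntegral.integral_ofReal]
    rw [h2, ← Finset.sum_add_distrib, Finset.mul_sum]
    refine Finset.sum_congr rfl fun n hn => ?_
    rw [intervalIntegral.integral_const_mul, osc (lt_of_lt_of_le hm (hl n hn)) U V, ha]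
    ring
  rw [e1, norm_mul, norm_neg, Complex.norm_I, one_mul]
  refine (norm_add_le _ _).trans (add_le_add ?_ ?_)
  · have hSn : ∀ v : ℝ, ‖S v‖ ≤ Real.exp (-(l * v)) *
        (‖dp (bv c v) (t + U)‖ + ‖dp (bv c v) t‖) := by
      intro v
      have h1 : S v = ((Real.exp (-(l * v)) : ℝ) : ℂ) *
          (Complex.exp (((U * l : ℝ) : ℂ) * Complex.I) * dp (bv c v) (t + U) -
            dp (bv c v) t) := by
        rw [hS, dp_np (bv_FS hc v), dp_np (bv_FS hc v), Finset.mul_sum, ← Finset.sum_sub_distrib,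
          Finset.mul_sum]
        refine Finset.sum_congr rfl fun n hn => ?_
        have hn1 := (Finset.mem_Icc.1 hn).1
        have hn0 : (0 : ℝ) < n := by exact_mod_cast hn1
        have h2 : Real.exp (-((l - Real.log n) * v)) = Real.exp (-(l * v)) * (n : ℝ) ^ v := by
          rw [Real.rpow_def_of_pos hn0, ← Real.exp_add]
          congr 1
          ring
        rw [ha, h2, bv_apply]
        have h3 := hnp n hn U
        have h4 : Complex.exp (((U * l : ℝ) : ℂ) * Complex.I) *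
            (c n * (((n : ℝ) ^ v : ℝ) : ℂ) * np n (t + U)) = (((n : ℝ) ^ v : ℝ) : ℂ) *
            (Complex.exp (((U * l : ℝ) : ℂ) * Complex.I) * (c n * np n (t + U))) := by ring
        rw [h4, h3, Complex.ofReal_mul]
        ring
      have h5 : 0 < Real.exp (-(l * v)) := Real.exp_pos _
      have h6 := norm_sub_le (Complex.exp (((U * l : ℝ) : ℂ) * Complex.I) * dp (bv c v) (t + U))
        (dp (bv c v) t)
      have h7 : ‖Complex.exp (((U * l : ℝ) : ℂ) * Complex.I) * dp (bv c v) (t + U)‖ =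
          ‖dp (bv c v) (t + U)‖ := by
        rw [norm_mul, Complex.norm_exp_ofReal_mul_I, one_mul]
      rw [h7] at h6
      have h8 : ‖((Real.exp (-(l * v)) : ℝ) : ℂ)‖ = Real.exp (-(l * v)) := by
        rw [Complex.norm_real, Real.norm_eq_abs, abs_of_pos h5]
      rw [h1, norm_mul, h8]
      exact mul_le_mul_of_nonneg_left h6 h5.le
    have h2 := bv_cont1 hc (t + U)
    have h3 := bv_cont1 hc t
    have h4 : Continuous fun v : ℝ => Real.exp (-(l * v)) *
        (‖dp (bv c v) (t + U)‖ + ‖dp (bv c v) t‖) :=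
      (by fun_prop : Continuous fun v : ℝ => Real.exp (-(l * v))).mul (h2.norm.add h3.norm)
    have h5 : ∀ᵐ v : ℝ, v ∈ Set.Ioc 0 V → ‖S v‖ ≤ Real.exp (-(l * v)) *
        (‖dp (bv c v) (t + U)‖ + ‖dp (bv c v) t‖) := Eventually.of_forall fun v _ => hSn v
    exact intervalIntegral.norm_integral_le_of_norm_le (μ := volume) hV h5
      (h4.intervalIntegrable _ _)
  · refine (norm_sum_le _ _).trans ?_
    rw [Finset.mul_sum]
    refine Finset.sum_le_sum fun n hn => ?_
    have hn1 := (Finset.mem_Icc.1 hn).1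
    have hln := hl n hn
    have hlp : 0 < l - Real.log n := lt_of_lt_of_le hm hln
    rw [ha]
    simp only
    rw [norm_mul, norm_mul, norm_mul, Complex.norm_real, Real.norm_eq_abs,
      abs_of_pos (by positivity)]
    have h1 : ‖Complex.exp (((U * (l - Real.log n) : ℝ) : ℂ) * Complex.I) - 1‖ ≤ 2 := by
      have h0 := norm_sub_le (Complex.exp (((U * (l - Real.log n) : ℝ) : ℂ) * Complex.I)) 1
      rw [Complex.norm_exp_ofReal_mul_I, norm_one] at h0
      linarith
    have h2 : Real.exp (-((l - Real.log n) * V)) / (l - Real.log n) ≤ Real.exp (-(m * V)) / m :=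
      div_le_div₀ (Real.exp_pos _).le
        (Real.exp_le_exp.2 (neg_le_neg (mul_le_mul_of_nonneg_right hln hV))) hm hln
    have h3 : ‖c n‖ * ‖np n t‖ ≤ ‖c n‖ := mul_le_of_le_one_right (norm_nonneg _) (np_norm_le hn1 t)
    have h4 : ‖c n‖ * ‖np n t‖ * ‖Complex.exp (((U * (l - Real.log n) : ℝ) : ℂ) * Complex.I) - 1‖ ≤
        ‖c n‖ * 2 := mul_le_mul h3 h1 (norm_nonneg _) (norm_nonneg _)
    calc _ ≤ ‖c n‖ * 2 * (Real.exp (-(m * V)) / m) := mul_le_mul h4 h2 (by positivity) (by positivity)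
      _ = 2 * Real.exp (-(m * V)) / m * ‖c n‖ := by ring

/-- the first absolute mean -/
theorem L1_bd {C : ℝ} (hC : 0 < C) (hMV : ∀ (X : ℕ) (f : ArithmeticFunction ℂ), FS X f →
    ∀ a b : ℝ, a ≤ b → |(∫ t in a..b, ‖dp f t‖ ^ 2) - (b - a) * nm f| ≤ C * X * nm f)
    {X : ℕ} {f : ArithmeticFunction ℂ} (hf : FS X f) {T a α : ℝ} (hT : 0 < T) (hX : (X : ℝ) ≤ T)
    (hα : 0 < α) (hn : nm f ≤ α ^ 2) :
    ∫ t in a..(a + 2 * T), ‖dp f t‖ ≤ (4 + C) / 2 * T * α := by
  have h1 := mv_le hC hMV hf hX (by linarith : a ≤ a + 2 * T)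
  have h2 : ∀ t ∈ Set.Icc a (a + 2 * T), ‖dp f t‖ ≤ α / 2 + ‖dp f t‖ ^ 2 * (1 / (2 * α)) := by
    intro t _
    have h3 : α / 2 + ‖dp f t‖ ^ 2 * (1 / (2 * α)) - ‖dp f t‖ = (α - ‖dp f t‖) ^ 2 / (2 * α) := by
      field_simp
      ring
    have h4 : 0 ≤ (α - ‖dp f t‖) ^ 2 / (2 * α) := by positivity
    linarith
  have hc := dp_cont hf
  have c1 : Continuous fun t : ℝ => ‖dp f t‖ ^ 2 * (1 / (2 * α)) :=
    (hc.norm.pow 2).mul continuous_const
  have c2 : Continuous fun t : ℝ => α / 2 + ‖dp f t‖ ^ 2 * (1 / (2 * α)) := continuous_const.add c1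
  have h3 := intervalIntegral.integral_mono_on (μ := volume) (by linarith : a ≤ a + 2 * T)
    (hc.norm.intervalIntegrable _ _) (c2.intervalIntegrable _ _) h2
  rw [intervalIntegral.integral_add (continuous_const.intervalIntegrable _ _)
    (c1.intervalIntegrable _ _),
    intervalIntegral.integral_const, intervalIntegral.integral_mul_const, smul_eq_mul] at h3
  refine h3.trans ?_
  have h4 : (a + 2 * T - a + C * T) * nm f ≤ (2 + C) * T * α ^ 2 := by
    have : a + 2 * T - a + C * T = (2 + C) * T := by ring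
    rw [this]
    exact mul_le_mul_of_nonneg_left hn (by positivity)
  have h5 : (∫ t in a..(a + 2 * T), ‖dp f t‖ ^ 2) * (1 / (2 * α)) ≤
      (2 + C) * T * α ^ 2 * (1 / (2 * α)) :=
    mul_le_mul_of_nonneg_right (h1.trans h4) (by positivity)
  have h6 : (2 + C) * T * α ^ 2 * (1 / (2 * α)) = (2 + C) * T * α / 2 := by
    field_simp
  rw [h6] at h5
  have h7 : (a + 2 * T - a) * (α / 2) = T * α := by ring
  rw [h7]
  linarith

theorem sum_sq_le {Y : ℕ} {d : ArithmeticFunction ℂ} (hd : FS Y d) (h1 : ∀ n, ‖d n‖ ≤ 1) :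
    ∑ n ∈ Finset.Icc 1 (Y * Y), ‖(d * d) n‖ ≤ (Y : ℝ) ^ 2 := by
  have h2 : ∀ n ∈ Finset.Icc 1 (Y * Y), ‖(d * d) n‖ ≤
      ∑ p ∈ n.divisorsAntidiagonal, ‖d p.1‖ * ‖d p.2‖ := by
    intro n _
    rw [ArithmeticFunction.mul_apply]
    refine (norm_sum_le _ _).trans (le_of_eq ?_)
    exact Finset.sum_congr rfl fun p _ => norm_mul _ _
  refine (Finset.sum_le_sum h2).trans ?_
  refine (sum_div_le _ (fun p : ℕ × ℕ => ‖d p.1‖ * ‖d p.2‖) (Finset.Icc 1 Y ×ˢ Finset.Icc 1 Y)
    (fun p _ => by positivity) ?_).trans ?_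
  · intro n hn p hp hne
    rw [Finset.mem_Icc] at hn
    rw [Nat.mem_divisorsAntidiagonal] at hp
    rw [Finset.mem_product, Finset.mem_Icc, Finset.mem_Icc]
    have hp1 : p.1 ≠ 0 := by
      intro h
      rw [h, zero_mul] at hp
      omega
    have hp2 : p.2 ≠ 0 := by
      intro h
      rw [h, mul_zero] at hp
      omega
    have hY1 : p.1 ≤ Y := by
      by_contra h
      apply hne
      rw [hd _ (not_le.1 h), norm_zero, zero_mul]
    have hY2 : p.2 ≤ Y := by
      by_contra h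
      apply hne
      rw [hd p.2 (not_le.1 h), norm_zero, mul_zero]
    exact ⟨⟨by omega, hY1⟩, ⟨by omega, hY2⟩⟩
  · refine (Finset.sum_le_sum (g := fun _ => (1 : ℝ)) fun p _ =>
      mul_le_one₀ (h1 _) (norm_nonneg _) (h1 _)).trans (le_of_eq ?_)
    rw [Finset.sum_const, Finset.card_product]
    simp
    ring

/-- exchange of the order of integration -/
theorem swap_cont {F : ℝ → ℝ → ℝ} (hF : Continuous F.uncurry) (a b c d : ℝ) :
    ∫ x in a..b, ∫ y in c..d, F x y = ∫ y in c..d, ∫ x in a..b, F x y := by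
  refine intervalIntegral_intervalIntegral_swap ?_
  refine (hF.continuousOn.integrableOn_compact
    (K := Set.uIcc a b ×ˢ Set.uIcc c d) (isCompact_uIcc.prod isCompact_uIcc)).mono_set ?_
  exact Set.prod_mono Set.uIoc_subset_uIcc Set.uIoc_subset_uIcc

theorem par_cont {F : ℝ → ℝ → ℝ} (hF : Continuous F.uncurry) (c d : ℝ) :
    Continuous fun x => ∫ y in c..d, F x y :=
  intervalIntegral.continuous_parametric_intervalIntegral_of_continuous' hF _ _

/-- the first part of the majorant -/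
theorem G1_bd {C : ℝ} (hC : 0 < C) (hMV : ∀ (X : ℕ) (f : ArithmeticFunction ℂ), FS X f →
    ∀ a b : ℝ, a ≤ b → |(∫ t in a..b, ‖dp f t‖ ^ 2) - (b - a) * nm f| ≤ C * X * nm f)
    {Y : ℕ} {d : ArithmeticFunction ℂ} (hd : FS Y d) {T U : ℝ} (hT : 0 < T) (hY : (Y : ℝ) ≤ T)
    (hU : 0 ≤ U) :
    Continuous (fun t => ∫ h in (0 : ℝ)..U, ‖dp d (t + h)‖ ^ 2) ∧
    ∫ t in T..(3 * T), ∫ h in (0 : ℝ)..U, ‖dp d (t + h)‖ ^ 2 ≤ U * ((2 + C) * T * nm d) := by
  have hc := dp_cont hd
  obtain ⟨F, hF⟩ : ∃ F : ℝ → ℝ → ℝ, F = fun t h => ‖dp d (t + h)‖ ^ 2 := ⟨_, rfl⟩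
  have hFc : Continuous F.uncurry := by
    rw [hF]
    exact (hc.comp (continuous_fst.add continuous_snd)).norm.pow 2
  have hFv : ∀ t h, ‖dp d (t + h)‖ ^ 2 = F t h := fun t h => by rw [hF]
  simp only [hFv]
  refine ⟨par_cont hFc _ _, ?_⟩
  rw [swap_cont hFc]
  have h1 : ∀ h ∈ Set.Icc (0 : ℝ) U, ∫ t in T..(3 * T), F t h ≤ (2 + C) * T * nm d := by
    intro h _
    rw [hF]
    simp only
    rw [intervalIntegral.integral_comp_add_right (fun t => ‖dp d t‖ ^ 2) h]
    refine (mv_le hC hMV hd hY (by linarith : T + h ≤ 3 * T + h)).trans (le_of_eq ?_)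
    ring
  have h2 : Continuous fun h => ∫ t in T..(3 * T), F t h :=
    par_cont (F := fun h t => F t h) (hFc.comp continuous_swap) _ _
  have h3 := intervalIntegral.integral_mono_on (μ := volume) hU (h2.intervalIntegrable _ _)
    (continuous_const.intervalIntegrable _ _) h1
  rw [intervalIntegral.integral_const, smul_eq_mul, sub_zero] at h3
  exact h3

/-- the second part of the majorant -/
theorem G2_bd {C : ℝ} (hC : 0 < C) (hMV : ∀ (X : ℕ) (f : ArithmeticFunction ℂ), FS X f →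
    ∀ a b : ℝ, a ≤ b → |(∫ t in a..b, ‖dp f t‖ ^ 2) - (b - a) * nm f| ≤ C * X * nm f)
    {X : ℕ} {c : ArithmeticFunction ℂ} (hc : FS X c) {T U V A b H : ℝ} (hT : 0 < T)
    (hX : (X : ℝ) ≤ T) (hV : 0 ≤ V) (hb : ∀ n ∈ Finset.Icc 1 X, Real.log n ≤ b) (hAb : b < A)
    (hH : 0 < H) (hn : nm c ≤ H ^ 2) :
    Continuous (fun t => ∫ v in (0 : ℝ)..V, Real.exp (-(A * v)) *
      (‖dp (bv c v) (t + U)‖ + ‖dp (bv c v) t‖)) ∧
    ∫ t in T..(3 * T), ∫ v in (0 : ℝ)..V, Real.exp (-(A * v)) *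
      (‖dp (bv c v) (t + U)‖ + ‖dp (bv c v) t‖) ≤ (4 + C) * T * H / (A - b) := by
  obtain ⟨F, hF⟩ : ∃ F : ℝ → ℝ → ℝ, F = fun t v => Real.exp (-(A * v)) *
      (‖dp (bv c v) (t + U)‖ + ‖dp (bv c v) t‖) := ⟨_, rfl⟩
  have hFc : Continuous F.uncurry := by
    rw [hF]
    have h1 := bv_cont2 hc U
    have h2 := bv_cont2 hc 0
    simp only [add_zero] at h2
    exact ((by fun_prop : Continuous fun v : ℝ => Real.exp (-(A * v))).comp continuous_snd).mul
      (h1.norm.add h2.norm)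
  have hFv : ∀ t v, Real.exp (-(A * v)) *
      (‖dp (bv c v) (t + U)‖ + ‖dp (bv c v) t‖) = F t v := fun t v => by rw [hF]
  simp only [hFv]
  refine ⟨par_cont hFc _ _, ?_⟩
  rw [swap_cont hFc]
  have h1 : ∀ v ∈ Set.Icc (0 : ℝ) V, ∫ t in T..(3 * T), F t v ≤
      (4 + C) * T * H * Real.exp (-((A - b) * v)) := by
    intro v hv
    have hα : 0 < Real.exp (b * v) * H := by positivity
    have hnm : nm (bv c v) ≤ (Real.exp (b * v) * H) ^ 2 := by
      refine (nm_bv hc hv.1 hb).trans ?_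
      rw [mul_pow]
      exact mul_le_mul_of_nonneg_left hn (by positivity)
    have hcc := dp_cont (bv_FS hc v)
    have e1 := L1_bd hC hMV (bv_FS hc v) (a := T) hT hX hα hnm
    have e2 := L1_bd hC hMV (bv_FS hc v) (a := T + U) hT hX hα hnm
    have e3 : ∫ t in T..(3 * T), F t v = Real.exp (-(A * v)) *
        ((∫ t in T..(3 * T), ‖dp (bv c v) (t + U)‖) + ∫ t in T..(3 * T), ‖dp (bv c v) t‖) := by
      rw [hF]
      simp only
      rw [intervalIntegral.integral_const_mul, intervalIntegral.integral_add]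
      · exact ((hcc.comp (by fun_prop : Continuous fun t : ℝ => t + U)).norm).intervalIntegrable _ _
      · exact hcc.norm.intervalIntegrable _ _
    rw [e3, intervalIntegral.integral_comp_add_right (fun t => ‖dp (bv c v) t‖) U]
    have e4 : T + 2 * T = 3 * T := by ring
    have e5 : T + U + 2 * T = 3 * T + U := by ring
    rw [e4] at e1
    rw [e5] at e2
    have e6 : Real.exp (-((A - b) * v)) = Real.exp (-(A * v)) * Real.exp (b * v) := by
      rw [← Real.exp_add]
      congr 1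
      ring
    rw [e6]
    have e7 : (∫ t in (T + U)..(3 * T + U), ‖dp (bv c v) t‖) +
        ∫ t in T..(3 * T), ‖dp (bv c v) t‖ ≤ (4 + C) * T * (Real.exp (b * v) * H) := by linarith
    have e8 : 0 ≤ Real.exp (-(A * v)) := (Real.exp_pos _).le
    refine (mul_le_mul_of_nonneg_left e7 e8).trans (le_of_eq ?_)
    ring
  have h2 : Continuous fun v => ∫ t in T..(3 * T), F t v :=
    par_cont (F := fun v t => F t v) (hFc.comp continuous_swap) _ _
  have h4 : Continuous fun v : ℝ => (4 + C) * T * H * Real.exp (-((A - b) * v)) := by fun_prop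
  have h3 := intervalIntegral.integral_mono_on (μ := volume) hV (h2.intervalIntegrable _ _)
    (h4.intervalIntegrable _ _) h1
  rw [intervalIntegral.integral_const_mul, int_exp_neg (by linarith : 0 < A - b)] at h3
  refine h3.trans ?_
  have e8 := Real.exp_pos (-((A - b) * V))
  have e9 : (1 - Real.exp (-((A - b) * V))) / (A - b) ≤ 1 / (A - b) :=
    div_le_div_of_nonneg_right (by linarith) (by linarith)
  have e10 : 0 ≤ (4 + C) * T * H := by positivity
  refine (mul_le_mul_of_nonneg_left e9 e10).trans (le_of_eq ?_)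
  ring

theorem t_AP2 (hJ : J_MV) : J_AP2 := by
  obtain ⟨C, hC, hMV⟩ := hJ
  obtain ⟨C1, T0, hC1, hT0, hloc⟩ := chi_local
  refine ⟨4 * C1 * (2 + C) + 4 * (4 + C) + 4, by positivity, ?_⟩
  intro η hη hη1
  have hLt : Tendsto (fun T : ℝ => η * Real.log T) atTop atTop :=
    Real.tendsto_log_atTop.const_mul_atTop hη
  filter_upwards [eventually_ge_atTop T0, eventually_ge_atTop 4,
    hLt.eventually (eventually_ge_atTop 2)] with T hTT0 hT4 hL2
  intro d hd01 hd0 U hU1 hU
  have hTp : 0 < T := by linarith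
  obtain ⟨L, hL⟩ : ∃ L, L = Real.log T := ⟨_, rfl⟩
  rw [← hL] at hL2 ⊢
  have hTe : T = Real.exp L := by rw [hL, Real.exp_log hTp]
  have hexp : ∀ x : ℝ, T ^ x = Real.exp (x * L) := by
    intro x
    rw [Real.rpow_def_of_pos hTp, ← hL, mul_comm]
  have hL1 : 1 ≤ L := by
    by_contra h
    push Not at h
    have : η * L ≤ η := by nlinarith
    linarith
  -- the length of the window
  have hU10 : U ^ 10 ≤ T := by
    have h1 : U ^ 10 ≤ (T ^ (1 / 10 : ℝ)) ^ 10 := pow_le_pow_left₀ (by linarith) hU 10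
    refine h1.trans (le_of_eq ?_)
    rw [← Real.rpow_natCast, ← Real.rpow_mul hTp.le]
    norm_num
  have hU3 : U ^ 3 ≤ T := (pow_le_pow_right₀ hU1 (by norm_num)).trans hU10
  have hU2T : U ≤ T / 2 := by
    rcases le_or_gt U 2 with h | h
    · linarith
    · have h1 : U ^ 2 ≤ T := (pow_le_pow_right₀ hU1 (by norm_num)).trans hU10
      nlinarith
  -- the coefficients
  obtain ⟨Y, hY⟩ : ∃ Y : ℕ, Y = ⌊T ^ (1 / 2 - η)⌋₊ := ⟨_, rfl⟩
  have hYe : (Y : ℝ) ≤ Real.exp ((1 / 2 - η) * L) := by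
    rw [hY, ← hexp]
    exact Nat.floor_le (by positivity)
  have hY1 : 1 ≤ Y := by
    rw [hY]
    refine Nat.le_floor ?_
    rw [hexp, Nat.cast_one]
    exact Real.one_le_exp (by nlinarith)
  have hYp : (0 : ℝ) < Y := by exact_mod_cast hY1
  have hYL : Real.log Y ≤ (1 / 2 - η) * L := by
    rw [Real.log_le_iff_le_exp hYp]
    exact hYe
  have hfd : FS Y d := by
    intro n hn
    apply hd0
    rw [hY] at hn
    exact Nat.lt_of_floor_lt hn
  have hd1 : ∀ n, ‖d n‖ ≤ 1 := by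
    intro n
    rcases hd01 n with h | h <;> rw [h] <;> simp
  have hYT : (Y : ℝ) ≤ T := by
    refine hYe.trans ?_
    rw [hTe]
    exact Real.exp_le_exp.2 (by nlinarith)
  have hXe : ((Y * Y : ℕ) : ℝ) ≤ Real.exp ((1 - 2 * η) * L) := by
    push_cast
    have h1 : Real.exp ((1 - 2 * η) * L) = Real.exp ((1 / 2 - η) * L) * Real.exp ((1 / 2 - η) * L) := by
      rw [← Real.exp_add]
      congr 1
      ring
    rw [h1]
    exact mul_le_mul hYe hYe (by positivity) (Real.exp_pos _).le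
  have hXT : ((Y * Y : ℕ) : ℝ) ≤ T := by
    refine hXe.trans ?_
    rw [hTe]
    exact Real.exp_le_exp.2 (by nlinarith)
  have hY2T : (Y : ℝ) ^ 2 ≤ T := by
    rw [sq]
    exact_mod_cast hXT
  have hfc : FS (Y * Y) (d * d) := sq_FS hfd
  have hb : ∀ n ∈ Finset.Icc 1 (Y * Y), Real.log n ≤ (1 - 2 * η) * L := by
    intro n hn
    rw [Finset.mem_Icc] at hn
    have hn0 : (0 : ℝ) < n := by exact_mod_cast hn.1
    rw [Real.log_le_iff_le_exp hn0]
    exact le_trans (by exact_mod_cast hn.2) hXe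
  have hnd : nm d ≤ 1 + L := by
    refine (nm_le_log hfd hd1).trans ?_
    nlinarith
  have hnc : nm (d * d) ≤ ((1 + L) ^ 2) ^ 2 := by
    refine (nm_sq hfd hd1).trans ?_
    have h1 : ∑ m ∈ Finset.Icc 1 Y, (1 : ℝ) / (m : ℝ) ≤ 1 + L := by
      refine (sum_inv_le Y).trans ?_
      nlinarith
    have h2 : 0 ≤ ∑ m ∈ Finset.Icc 1 Y, (1 : ℝ) / (m : ℝ) := Finset.sum_nonneg fun m _ => by positivity
    refine (pow_le_pow_left₀ h2 h1 4).trans (le_of_eq ?_)
    ring
  -- the scales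
  have hpi0 : 0 ≤ Real.log (2 * Real.pi) := Real.log_nonneg (by linarith [Real.pi_gt_three])
  have hpi2 : Real.log (2 * Real.pi) ≤ 2 := by
    rw [Real.log_le_iff_le_exp (by positivity)]
    have h1 : (2.7 : ℝ) ≤ Real.exp 1 := by linarith [Real.exp_one_gt_d9]
    have h2 : Real.exp 2 = Real.exp 1 * Real.exp 1 := by rw [← Real.exp_add]; norm_num
    rw [h2]
    nlinarith [Real.pi_lt_d2]
  obtain ⟨A, hA⟩ : ∃ A, A = Real.log (T / (2 * Real.pi)) := ⟨_, rfl⟩
  have hAe : A = L - Real.log (2 * Real.pi) := by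
    rw [hA, Real.log_div hTp.ne' (by positivity), hL]
  have hAb : η * L ≤ A - (1 - 2 * η) * L := by
    rw [hAe]
    nlinarith
  have hηL : 0 < η * L := by linarith
  obtain ⟨V, hV⟩ : ∃ V, V = 1 / η := ⟨_, rfl⟩
  have hV0 : 0 ≤ V := by
    rw [hV]
    positivity
  have hmV : η * L * V = L := by
    rw [hV]
    field_simp
  obtain ⟨g1c, g1⟩ := G1_bd hC hMV hfd (U := U) hTp hYT (by linarith)
  obtain ⟨g2c, g2⟩ := G2_bd hC hMV hfc (U := U) (V := V) (A := A) (H := (1 + L) ^ 2) hTp hXT hV0 hb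
    (by linarith) (by positivity) hnc
  obtain ⟨G1, hG1⟩ : ∃ G1 : ℝ → ℝ, G1 = fun t => ∫ h in (0 : ℝ)..U, ‖dp d (t + h)‖ ^ 2 := ⟨_, rfl⟩
  obtain ⟨G2, hG2⟩ : ∃ G2 : ℝ → ℝ, G2 = fun t => ∫ v in (0 : ℝ)..V, Real.exp (-(A * v)) *
      (‖dp (bv (d * d) v) (t + U)‖ + ‖dp (bv (d * d) v) t‖) := ⟨_, rfl⟩
  rw [← hG1] at g1c
  rw [← hG2] at g2c
  have g1' : ∫ t in T..(3 * T), G1 t ≤ U * ((2 + C) * T * nm d) := by
    rw [hG1]
    exact g1
  have g2' : ∫ t in T..(3 * T), G2 t ≤ (4 + C) * T * (1 + L) ^ 2 / (A - (1 - 2 * η) * L) := by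
    rw [hG2]
    exact g2
  -- the pointwise bound
  have hpt : ∀ t ∈ Set.Icc T (3 * T),
      ‖∫ h in (0 : ℝ)..U, (starRingEnd ℂ) (chi (t + h)) * dp d (t + h) ^ 2‖ ≤
      C1 * (1 + U ^ 2) / T * G1 t + G2 t + 2 := by
    intro t ht
    have htp : 0 < t := by linarith [ht.1]
    have h1 := freeze hC1 hT0 hloc (dp_cont hfd) hTT0 ht.1 (by linarith : 0 ≤ U) hU2T
    have hlt : A ≤ Real.log (t / (2 * Real.pi)) := by
      rw [hA]
      refine Real.log_le_log (by positivity) ?_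
      exact div_le_div_of_nonneg_right ht.1 (by positivity)
    have h2 := mid hfc (l := Real.log (t / (2 * Real.pi))) (m := η * L) (U := U) (V := V) (t := t)
      hηL (fun n hn => by linarith [hb n hn]) hV0
    have h3 : ∀ h : ℝ, Complex.exp (((h * Real.log (t / (2 * Real.pi)) : ℝ) : ℂ) * Complex.I) *
        dp d (t + h) ^ 2 = Complex.exp (((h * Real.log (t / (2 * Real.pi)) : ℝ) : ℂ) * Complex.I) *
        dp (d * d) (t + h) := fun h => by rw [dp_sq hfd]
    simp only [h3] at h1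
    have h4 : ∫ v in (0 : ℝ)..V, Real.exp (-(Real.log (t / (2 * Real.pi)) * v)) *
        (‖dp (bv (d * d) v) (t + U)‖ + ‖dp (bv (d * d) v) t‖) ≤ G2 t := by
      rw [hG2]
      have k1 := (bv_cont1 hfc (t + U)).norm.add (bv_cont1 hfc t).norm
      refine intervalIntegral.integral_mono_on hV0 ?_ ?_ ?_
      · exact ((by fun_prop : Continuous fun v : ℝ =>
          Real.exp (-(Real.log (t / (2 * Real.pi)) * v))).mul k1).intervalIntegrable _ _
      · exact ((by fun_prop : Continuous fun v : ℝ =>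
          Real.exp (-(A * v))).mul k1).intervalIntegrable _ _
      · intro v hv
        refine mul_le_mul_of_nonneg_right ?_ (by positivity)
        exact Real.exp_le_exp.2 (neg_le_neg (mul_le_mul_of_nonneg_right hlt hv.1))
    have h5 : 2 * Real.exp (-(η * L * V)) / (η * L) * ∑ n ∈ Finset.Icc 1 (Y * Y), ‖(d * d) n‖ ≤
        2 := by
      have e1 := (sum_sq_le hfd hd1).trans hY2T
      have e2 : 2 * Real.exp (-(η * L * V)) / (η * L) * ∑ n ∈ Finset.Icc 1 (Y * Y), ‖(d * d) n‖ ≤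
          2 * Real.exp (-(η * L * V)) / (η * L) * T :=
        mul_le_mul_of_nonneg_left e1 (by positivity)
      refine e2.trans ?_
      rw [hmV, div_mul_eq_mul_div, div_le_iff₀ hηL]
      have e3 : Real.exp (-L) * T = 1 := by
        rw [hTe, ← Real.exp_add]
        simp
      have e4 : 2 * Real.exp (-L) * T = 2 := by rw [mul_assoc, e3, mul_one]
      rw [e4]
      linarith
    have h6 : G1 t = ∫ h in (0 : ℝ)..U, ‖dp d (t + h)‖ ^ 2 := by rw [hG1]
    rw [h6]
    linarith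
  have hTT : T ≤ 3 * T := by linarith
  have hint : ∫ t in T..(3 * T),
      ‖∫ h in (0 : ℝ)..U, (starRingEnd ℂ) (chi (t + h)) * dp d (t + h) ^ 2‖ ≤
      ∫ t in T..(3 * T), (C1 * (1 + U ^ 2) / T * G1 t + G2 t + 2) := by
    rw [intervalIntegral.integral_of_le hTT, intervalIntegral.integral_of_le hTT]
    refine integral_mono_of_nonneg (Eventually.of_forall fun t => norm_nonneg _) ?_ ?_
    · have h1 : Continuous fun t => C1 * (1 + U ^ 2) / T * G1 t + G2 t + 2 :=
        ((continuous_const.mul g1c).add g2c).add continuous_const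
      exact (h1.intervalIntegrable T (3 * T)).1
    · rw [EventuallyLE, ae_restrict_iff' measurableSet_Ioc]
      exact Eventually.of_forall fun t ht => hpt t ⟨ht.1.le, ht.2⟩
  refine hint.trans ?_
  have k1 : Continuous fun t => C1 * (1 + U ^ 2) / T * G1 t := continuous_const.mul g1c
  have k2 : Continuous fun t => C1 * (1 + U ^ 2) / T * G1 t + G2 t := k1.add g2c
  rw [intervalIntegral.integral_add (k2.intervalIntegrable _ _)
    (continuous_const.intervalIntegrable _ _),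
    intervalIntegral.integral_add (k1.intervalIntegrable _ _) (g2c.intervalIntegrable _ _),
    intervalIntegral.integral_const_mul, intervalIntegral.integral_const, smul_eq_mul]
  have hH : 1 + L ≤ 2 * L := by linarith
  -- first part
  have p1 : C1 * (1 + U ^ 2) / T * ∫ t in T..(3 * T), G1 t ≤ 4 * C1 * (2 + C) * (T * L) := by
    have e1 : C1 * (1 + U ^ 2) / T * ∫ t in T..(3 * T), G1 t ≤
        C1 * (1 + U ^ 2) / T * (U * ((2 + C) * T * nm d)) :=
      mul_le_mul_of_nonneg_left g1' (by positivity)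
    refine e1.trans ?_
    have e2 : C1 * (1 + U ^ 2) / T * (U * ((2 + C) * T * nm d)) =
        C1 * (2 + C) * (((1 + U ^ 2) * U) * nm d) := by
      field_simp
    rw [e2]
    have e3 : (1 + U ^ 2) * U ≤ 2 * T := by
      have : (1 + U ^ 2) * U ≤ 2 * U ^ 3 := by nlinarith [sq_nonneg U]
      linarith
    have e4 : ((1 + U ^ 2) * U) * nm d ≤ (2 * T) * (2 * L) :=
      mul_le_mul e3 (hnd.trans hH) (nm_nonneg d) (by positivity)
    have e5 := mul_le_mul_of_nonneg_left e4 (by positivity : 0 ≤ C1 * (2 + C))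
    refine e5.trans (le_of_eq ?_)
    ring
  -- second part
  have p2 : ∫ t in T..(3 * T), G2 t ≤ 4 * (4 + C) / η * (T * L) := by
    refine g2'.trans ?_
    have e1 : (4 + C) * T * (1 + L) ^ 2 / (A - (1 - 2 * η) * L) ≤
        (4 + C) * T * (2 * L) ^ 2 / (η * L) := by
      refine div_le_div₀ (by positivity) ?_ hηL hAb
      exact mul_le_mul_of_nonneg_left (pow_le_pow_left₀ (by linarith) hH 2) (by positivity)
    refine e1.trans (le_of_eq ?_)
    field_simp
    ring
  have p3 : (3 * T - T) * 2 ≤ 4 * (T * L) := by nlinarith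
  have p4 : (4 * C1 * (2 + C) + 4 * (4 + C) + 4) / η * T * L =
      (4 * C1 * (2 + C) + 4) / η * (T * L) + 4 * (4 + C) / η * (T * L) := by
    field_simp
    ring
  rw [p4]
  have p5 : (4 * C1 * (2 + C) + 4) * (T * L) ≤ (4 * C1 * (2 + C) + 4) / η * (T * L) := by
    refine mul_le_mul_of_nonneg_right ?_ (by positivity)
    rw [le_div_iff₀ hη]
    have : 0 ≤ 4 * C1 * (2 + C) + 4 := by positivity
    nlinarith
  linarith

end

end Pool.Agent.Q247.EW
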