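import Pool.Agent.Q247.EW.Bas

/-!
Project EW, job AP2: the mean square of the square of the main polynomial.
-/

set_option autoImplicit false

namespace Pool.Agent.Q247.EW

open Filter Topology MeasureTheory Pool.Agent.Q80.EW

noncomputable section

theorem sum_div_le (S : Finset ℕ) (g : ℕ × ℕ → ℝ) (P : Finset (ℕ × ℕ)) (hg : ∀ p ∈ P, 0 ≤ g p)
    (h : ∀ n ∈ S, ∀ p ∈ n.divisorsAntidiagonal, g p ≠ 0 → p ∈ P) :
    ∑ n ∈ S, ∑ p ∈ n.divisorsAntidiagonal, g p ≤ ∑ p ∈ P, g p := by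
  classical
  have hdis : Set.PairwiseDisjoint (S : Set ℕ) (fun n => n.divisorsAntidiagonal) := by
    intro a _ b _ hab
    rw [Function.onFun, Finset.disjoint_left]
    intro p h1 h2
    rw [Nat.mem_divisorsAntidiagonal] at h1 h2
    exact hab (h1.1.symm.trans h2.1)
  rw [← Finset.sum_biUnion hdis]
  obtain ⟨B, hB⟩ : ∃ B, B = S.biUnion (fun n => n.divisorsAntidiagonal) := ⟨_, rfl⟩
  rw [← hB]
  have h1 : ∑ p ∈ B, g p = ∑ p ∈ B.filter (fun p => p ∈ P), g p := by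
    symm
    apply Finset.sum_filter_of_ne
    intro p hp hne
    rw [hB, Finset.mem_biUnion] at hp
    obtain ⟨n, hn, hp⟩ := hp
    exact h n hn p hp hne
  rw [h1]
  refine Finset.sum_le_sum_of_subset_of_nonneg ?_ fun p hp _ => hg p hp
  intro p hp
  exact (Finset.mem_filter.1 hp).2

theorem sum_tau (Y : ℕ) : ∑ a ∈ Finset.Icc 1 Y, (a.divisors.card : ℝ) / (a : ℝ) ≤
    (∑ m ∈ Finset.Icc 1 Y, (1 : ℝ) / (m : ℝ)) ^ 2 := by
  have h1 : ∀ a ∈ Finset.Icc 1 Y, (a.divisors.card : ℝ) / (a : ℝ) =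
      ∑ p ∈ a.divisorsAntidiagonal, (1 : ℝ) / ((p.1 : ℝ) * (p.2 : ℝ)) := by
    intro a ha
    have h2 : ∀ p ∈ a.divisorsAntidiagonal, (1 : ℝ) / ((p.1 : ℝ) * (p.2 : ℝ)) = 1 / (a : ℝ) := by
      intro p hp
      rw [Nat.mem_divisorsAntidiagonal] at hp
      rw [← hp.1]
      push_cast
      rfl
    rw [Finset.sum_congr rfl h2, Finset.sum_const, nsmul_eq_mul]
    have h3 : a.divisorsAntidiagonal.card = a.divisors.card := by
      rw [← Nat.map_div_right_divisors, Finset.card_map]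
    rw [h3]
    ring
  rw [Finset.sum_congr rfl h1, sq, Finset.sum_mul_sum, ← Finset.sum_product']
  have h4 : ∑ p ∈ Finset.Icc 1 Y ×ˢ Finset.Icc 1 Y, 1 / (p.1 : ℝ) * (1 / (p.2 : ℝ)) =
      ∑ p ∈ Finset.Icc 1 Y ×ˢ Finset.Icc 1 Y, (1 : ℝ) / ((p.1 : ℝ) * (p.2 : ℝ)) := by
    refine Finset.sum_congr rfl fun p _ => ?_
    rw [one_div_mul_one_div]
  rw [h4]
  refine sum_div_le _ _ _ (fun p _ => by positivity) ?_
  intro a ha p hp _
  rw [Finset.mem_Icc] at ha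
  rw [Nat.mem_divisorsAntidiagonal] at hp
  rw [Finset.mem_product, Finset.mem_Icc, Finset.mem_Icc]
  have h5 : p.1 ≠ 0 := by
    intro h
    rw [h, zero_mul] at hp
    omega
  have h6 : p.2 ≠ 0 := by
    intro h
    rw [h, mul_zero] at hp
    omega
  have h7 : p.1 ≤ a := by
    rw [← hp.1]
    exact Nat.le_mul_of_pos_right _ (by omega)
  have h8 : p.2 ≤ a := by
    rw [← hp.1]
    exact Nat.le_mul_of_pos_left _ (by omega)
  exact ⟨⟨by omega, by omega⟩, ⟨by omega, by omega⟩⟩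

theorem tau_mul_le (a b : ℕ) : ((a * b).divisors.card : ℝ) ≤ a.divisors.card * b.divisors.card := by
  rw [Nat.divisors_mul]
  exact_mod_cast Finset.card_mul_le

theorem sq_FS {Y : ℕ} {d : ArithmeticFunction ℂ} (hd : FS Y d) : FS (Y * Y) (d * d) := by
  intro n hn
  rw [ArithmeticFunction.mul_apply]
  refine Finset.sum_eq_zero fun p hp => ?_
  rw [Nat.mem_divisorsAntidiagonal] at hp
  by_cases h1 : Y < p.1
  · rw [hd _ h1, zero_mul]
  · by_cases h2 : Y < p.2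
    · rw [hd _ h2, mul_zero]
    · exfalso
      have := Nat.mul_le_mul (not_lt.1 h1) (not_lt.1 h2)
      omega

theorem dp_sq {Y : ℕ} {d : ArithmeticFunction ℂ} (hd : FS Y d) (t : ℝ) :
    dp (d * d) t = dp d t ^ 2 := by
  unfold dp
  rw [sq]
  have h1 : LSeriesSummable (fun n => d n) ((1 / 2 : ℂ) + (t : ℂ) * Complex.I) := by
    refine summable_of_ne_finset_zero (s := Finset.Icc 1 Y) fun n hn => ?_
    by_cases h0 : n = 0
    · rw [h0, LSeries.term_zero]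
    · rw [LSeries.term_of_ne_zero h0]
      rw [Finset.mem_Icc] at hn
      rw [hd n (by omega), zero_div]
  exact ArithmeticFunction.LSeries_mul' h1 h1

theorem nm_sq {Y : ℕ} {d : ArithmeticFunction ℂ} (hd : FS Y d) (h1 : ∀ n, ‖d n‖ ≤ 1) :
    nm (d * d) ≤ (∑ m ∈ Finset.Icc 1 Y, (1 : ℝ) / (m : ℝ)) ^ 4 := by
  have h2 : ∀ n : ℕ, ‖(d * d) n‖ ≤ ∑ p ∈ n.divisorsAntidiagonal, ‖d p.1‖ * ‖d p.2‖ := by
    intro n
    rw [ArithmeticFunction.mul_apply]
    refine (norm_sum_le _ _).trans (le_of_eq ?_)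
    exact Finset.sum_congr rfl fun p _ => norm_mul _ _
  have h3 : ∀ n : ℕ, ‖(d * d) n‖ ≤ n.divisors.card := by
    intro n
    refine (h2 n).trans ?_
    have h3 : n.divisorsAntidiagonal.card = n.divisors.card := by
      rw [← Nat.map_div_right_divisors, Finset.card_map]
    rw [← h3]
    refine (Finset.sum_le_sum (g := fun _ => (1 : ℝ)) fun p _ => ?_).trans (by simp)
    exact mul_le_one₀ (h1 _) (norm_nonneg _) (h1 _)
  rw [nm_eq (sq_FS hd)]
  have h4 : ∀ n ∈ Finset.Icc 1 (Y * Y), ‖(d * d) n‖ ^ 2 / (n : ℝ) ≤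
      ∑ p ∈ n.divisorsAntidiagonal, ((p.1.divisors.card : ℝ) / (p.1 : ℝ) * ‖d p.1‖) *
        ((p.2.divisors.card : ℝ) / (p.2 : ℝ) * ‖d p.2‖) := by
    intro n hn
    rw [Finset.mem_Icc] at hn
    have hn0 : (0 : ℝ) < n := by exact_mod_cast hn.1
    have e1 : ‖(d * d) n‖ ^ 2 / (n : ℝ) ≤ (n.divisors.card : ℝ) / n *
        ∑ p ∈ n.divisorsAntidiagonal, ‖d p.1‖ * ‖d p.2‖ := by
      rw [sq, mul_div_assoc, mul_comm, div_mul_eq_mul_div, div_mul_eq_mul_div]
      refine div_le_div_of_nonneg_right ?_ hn0.le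
      exact mul_le_mul (h3 n) (h2 n) (norm_nonneg _) (by positivity)
    refine e1.trans ?_
    rw [Finset.mul_sum]
    refine Finset.sum_le_sum fun p hp => ?_
    rw [Nat.mem_divisorsAntidiagonal] at hp
    have hp1 : p.1 ≠ 0 := by
      intro h
      rw [h, zero_mul] at hp
      omega
    have hp2 : p.2 ≠ 0 := by
      intro h
      rw [h, mul_zero] at hp
      omega
    have e2 := tau_mul_le p.1 p.2
    rw [hp.1] at e2
    have q1 : (0 : ℝ) < p.1 := by exact_mod_cast Nat.pos_of_ne_zero hp1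
    have q2 : (0 : ℝ) < p.2 := by exact_mod_cast Nat.pos_of_ne_zero hp2
    have e3 : (n : ℝ) = p.1 * p.2 := by
      rw [← hp.1]
      push_cast
      rfl
    have e4 : ((p.1.divisors.card : ℝ) / (p.1 : ℝ) * ‖d p.1‖) *
        ((p.2.divisors.card : ℝ) / (p.2 : ℝ) * ‖d p.2‖) =
        ((p.1.divisors.card : ℝ) * p.2.divisors.card) / (n : ℝ) * (‖d p.1‖ * ‖d p.2‖) := by
      rw [e3]
      field_simp
    rw [e4]
    refine mul_le_mul_of_nonneg_right ?_ (by positivity)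
    exact div_le_div_of_nonneg_right e2 hn0.le
  refine (Finset.sum_le_sum h4).trans ?_
  refine (sum_div_le _ (fun p : ℕ × ℕ => ((p.1.divisors.card : ℝ) / (p.1 : ℝ) * ‖d p.1‖) *
        ((p.2.divisors.card : ℝ) / (p.2 : ℝ) * ‖d p.2‖)) (Finset.Icc 1 Y ×ˢ Finset.Icc 1 Y)
        (fun p _ => by positivity) ?_).trans ?_
  · intro n hn p hp hne
    rw [Finset.mem_Icc] at hn
    rw [Nat.mem_divisorsAntidiagonal] at hp
    rw [Finset.mem_product, Finset.mem_Icc, Finset.mem_Icc]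
    have hp1 : p.1 ≠ 0 := by
      intro h
      rw [h, zero_mul] at hp
      omega
    have hp2 : p.2 ≠ 0 := by
      intro h
      rw [h, mul_zero] at hp
      omega
    have hY1 : p.1 ≤ Y := by
      by_contra h
      apply hne
      rw [hd _ (not_le.1 h), norm_zero, mul_zero, zero_mul]
    have hY2 : p.2 ≤ Y := by
      by_contra h
      apply hne
      rw [hd p.2 (not_le.1 h), norm_zero, mul_zero, mul_zero]
    exact ⟨⟨by omega, hY1⟩, ⟨by omega, hY2⟩⟩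
  · have h8 : ∑ p ∈ Finset.Icc 1 Y ×ˢ Finset.Icc 1 Y, ((p.1.divisors.card : ℝ) / (p.1 : ℝ) * ‖d p.1‖) *
        ((p.2.divisors.card : ℝ) / (p.2 : ℝ) * ‖d p.2‖) =
        (∑ a ∈ Finset.Icc 1 Y, (a.divisors.card : ℝ) / (a : ℝ) * ‖d a‖) *
        (∑ a ∈ Finset.Icc 1 Y, (a.divisors.card : ℝ) / (a : ℝ) * ‖d a‖) := by
      rw [Finset.sum_mul_sum, ← Finset.sum_product']
    rw [h8]
    have h5 : ∑ a ∈ Finset.Icc 1 Y, (a.divisors.card : ℝ) / (a : ℝ) * ‖d a‖ ≤
        (∑ m ∈ Finset.Icc 1 Y, (1 : ℝ) / (m : ℝ)) ^ 2 := by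
      refine le_trans (Finset.sum_le_sum fun a _ => ?_) (sum_tau Y)
      exact mul_le_of_le_one_right (by positivity) (h1 a)
    have h6 : 0 ≤ ∑ a ∈ Finset.Icc 1 Y, (a.divisors.card : ℝ) / (a : ℝ) * ‖d a‖ :=
      Finset.sum_nonneg fun a _ => by positivity
    have h7 := mul_le_mul h5 h5 h6 (by positivity)
    refine h7.trans (le_of_eq ?_)
    ring

end

end Pool.Agent.Q247.EW
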