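import Pool.Agent.Q247.EW.AP2a
import Pool.Agent.H345R2.Chi
import Pool.Agent.H448R2.GC.X1

/-!
Project EW, job AP2: the oscillating integral.
-/

set_option autoImplicit false

namespace Pool.Agent.Q247.EW

open Filter Topology MeasureTheory Pool.Agent.Q80.EW

noncomputable section

/-- `n^{-1/2-it}` -/
def np (n : ℕ) (t : ℝ) : ℂ := (n : ℂ) ^ (-((1 / 2 : ℂ) + (t : ℂ) * Complex.I))

theorem dp_np {X : ℕ} {f : ArithmeticFunction ℂ} (hf : FS X f) (t : ℝ) :
    dp f t = ∑ n ∈ Finset.Icc 1 X, f n * np n t := dp_eq hf t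

theorem np_add {n : ℕ} (hn : 1 ≤ n) (t h : ℝ) :
    np n (t + h) = np n t * Complex.exp (((-(h * Real.log n) : ℝ) : ℂ) * Complex.I) := by
  have hn0 : (n : ℂ) ≠ 0 := by
    have : n ≠ 0 := by omega
    exact_mod_cast this
  unfold np
  rw [Complex.cpow_def_of_ne_zero hn0, Complex.cpow_def_of_ne_zero hn0, ← Complex.exp_add]
  congr 1
  rw [← Complex.natCast_log]
  push_cast
  ring

theorem np_norm_le {n : ℕ} (hn : 1 ≤ n) (t : ℝ) : ‖np n t‖ ≤ 1 := by
  unfold np
  rw [Complex.norm_natCast_cpow_of_pos (by omega)]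
  have h1 : (-((1 / 2 : ℂ) + (t : ℂ) * Complex.I)).re = -(1 / 2) := by
    simp
  rw [h1, Real.rpow_neg (by positivity)]
  refine inv_le_one_of_one_le₀ ?_
  exact Real.one_le_rpow (by exact_mod_cast hn) (by norm_num)

theorem chi_conj (t : ℝ) : (starRingEnd ℂ) (chi t) = H345.XX (1 / 2 + (t : ℂ) * Complex.I) := by
  have h1 : (1 : ℂ) - ((1 / 2 : ℂ) + (t : ℂ) * Complex.I) =
      (starRingEnd ℂ) (1 / 2 + (t : ℂ) * Complex.I) := by
    rw [map_add, map_mul, Complex.conj_I, Complex.conj_ofReal, map_div₀, map_one,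
      Complex.conj_ofNat]
    ring
  unfold chi
  rw [Pool.Agent.H448R2.GC.X1.XX_eq, h1, H345.Chi.XX_conj, Complex.conj_conj]

/-- the factor of the functional equation is locally a character -/
theorem chi_local : ∃ C T0 : ℝ, 0 < C ∧ 2 ≤ T0 ∧ ∀ t : ℝ, T0 ≤ t → ∀ h : ℝ, |h| ≤ t / 2 →
    ‖(starRingEnd ℂ) (chi (t + h)) - (starRingEnd ℂ) (chi t) *
      Complex.exp (((h * Real.log (t / (2 * Real.pi)) : ℝ) : ℂ) * Complex.I)‖ ≤
      C * (1 + h ^ 2) / t := by
  obtain ⟨C, T0, h1, h2, h3⟩ := H345.XX_local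
  refine ⟨C, T0, h1, h2, fun t ht h hh => ?_⟩
  rw [chi_conj, chi_conj]
  exact h3 t ht h hh

/-- the phase frozen -/
theorem freeze {C T0 : ℝ} (hC : 0 < C) (hT0 : 2 ≤ T0)
    (hloc : ∀ t : ℝ, T0 ≤ t → ∀ h : ℝ, |h| ≤ t / 2 →
    ‖(starRingEnd ℂ) (chi (t + h)) - (starRingEnd ℂ) (chi t) *
      Complex.exp (((h * Real.log (t / (2 * Real.pi)) : ℝ) : ℂ) * Complex.I)‖ ≤
      C * (1 + h ^ 2) / t) {D : ℝ → ℂ} (hD : Continuous D) {T t U : ℝ} (hT : T0 ≤ T) (ht : T ≤ t)
    (hU0 : 0 ≤ U) (hU : U ≤ T / 2) :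
    ‖∫ h in (0 : ℝ)..U, (starRingEnd ℂ) (chi (t + h)) * D (t + h) ^ 2‖ ≤
      C * (1 + U ^ 2) / T * (∫ h in (0 : ℝ)..U, ‖D (t + h)‖ ^ 2) +
      ‖∫ h in (0 : ℝ)..U, Complex.exp (((h * Real.log (t / (2 * Real.pi)) : ℝ) : ℂ) * Complex.I) *
        D (t + h) ^ 2‖ := by
  have hTp : 0 < T := by linarith
  have hDc : Continuous fun h : ℝ => D (t + h) := hD.comp (by fun_prop)
  have hnn : 0 ≤ ∫ h in (0 : ℝ)..U, ‖D (t + h)‖ ^ 2 :=
    intervalIntegral.integral_nonneg hU0 fun h _ => by positivity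
  by_cases hi : IntervalIntegrable (fun h => (starRingEnd ℂ) (chi (t + h)) * D (t + h) ^ 2)
    volume 0 U
  · have hg : Continuous fun h : ℝ => (starRingEnd ℂ) (chi t) *
        (Complex.exp (((h * Real.log (t / (2 * Real.pi)) : ℝ) : ℂ) * Complex.I) * D (t + h) ^ 2) :=
      continuous_const.mul ((by fun_prop : Continuous fun h : ℝ =>
        Complex.exp (((h * Real.log (t / (2 * Real.pi)) : ℝ) : ℂ) * Complex.I)).mul (hDc.pow 2))
    have h1 : ∫ h in (0 : ℝ)..U, (starRingEnd ℂ) (chi (t + h)) * D (t + h) ^ 2 =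
        (∫ h in (0 : ℝ)..U, ((starRingEnd ℂ) (chi (t + h)) * D (t + h) ^ 2 -
          (starRingEnd ℂ) (chi t) *
          (Complex.exp (((h * Real.log (t / (2 * Real.pi)) : ℝ) : ℂ) * Complex.I) *
            D (t + h) ^ 2))) + (starRingEnd ℂ) (chi t) *
          ∫ h in (0 : ℝ)..U, (Complex.exp (((h * Real.log (t / (2 * Real.pi)) : ℝ) : ℂ) *
            Complex.I) * D (t + h) ^ 2) := by
      rw [intervalIntegral.integral_sub hi (hg.intervalIntegrable _ _),
        intervalIntegral.integral_const_mul, sub_add_cancel]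
    rw [h1]
    refine (norm_add_le _ _).trans (add_le_add ?_ ?_)
    · rw [← intervalIntegral.integral_const_mul]
      refine intervalIntegral.norm_integral_le_of_norm_le hU0 ?_ ?_
      · refine Eventually.of_forall fun h hh => ?_
        have h2 := hloc t (hT.trans ht) h (by
          rw [abs_of_nonneg hh.1.le]
          linarith [hh.2])
        have h3 : (starRingEnd ℂ) (chi (t + h)) * D (t + h) ^ 2 - (starRingEnd ℂ) (chi t) *
          (Complex.exp (((h * Real.log (t / (2 * Real.pi)) : ℝ) : ℂ) * Complex.I) *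
            D (t + h) ^ 2) = ((starRingEnd ℂ) (chi (t + h)) - (starRingEnd ℂ) (chi t) *
          Complex.exp (((h * Real.log (t / (2 * Real.pi)) : ℝ) : ℂ) * Complex.I)) *
            D (t + h) ^ 2 := by ring
        rw [h3, norm_mul, norm_pow]
        refine mul_le_mul_of_nonneg_right (h2.trans ?_) (by positivity)
        have h4 : h ^ 2 ≤ U ^ 2 := pow_le_pow_left₀ hh.1.le hh.2 2
        exact div_le_div₀ (by positivity) (by gcongr) hTp ht
      · exact (continuous_const.mul (hDc.norm.pow 2)).intervalIntegrable _ _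
    · rw [norm_mul]
      have h2 : ‖(starRingEnd ℂ) (chi t)‖ = 1 := by
        rw [chi_conj]
        exact H345.norm_XX_half t
      rw [h2, one_mul]
  · rw [intervalIntegral.integral_undef hi, norm_zero]
    positivity

/-- the elementary integrals -/
theorem int_exp_neg {l : ℝ} (hl : 0 < l) (V : ℝ) :
    ∫ v in (0 : ℝ)..V, Real.exp (-(l * v)) = (1 - Real.exp (-(l * V))) / l := by
  have h1 : ∀ v ∈ Set.uIcc (0 : ℝ) V, HasDerivAt (fun v : ℝ => -(Real.exp (-(l * v)) / l))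
      (Real.exp (-(l * v))) v := by
    intro v _
    have h2 : HasDerivAt (fun v : ℝ => -(l * v)) (-l) v := by
      simpa using ((hasDerivAt_id v).const_mul l).fun_neg
    have h3 := (h2.exp.div_const l).fun_neg
    refine h3.congr_deriv ?_
    field_simp
  rw [intervalIntegral.integral_eq_sub_of_hasDerivAt h1
    ((by fun_prop : Continuous fun v : ℝ => Real.exp (-(l * v))).intervalIntegrable _ _)]
  rw [mul_zero, neg_zero, Real.exp_zero]
  ring

theorem int_exp_I {l : ℝ} (hl : 0 < l) (U : ℝ) :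
    ∫ h in (0 : ℝ)..U, Complex.exp (((h * l : ℝ) : ℂ) * Complex.I) =
      -Complex.I * ((Complex.exp (((U * l : ℝ) : ℂ) * Complex.I) - 1) / (l : ℂ)) := by
  have hl0 : (l : ℂ) ≠ 0 := by exact_mod_cast hl.ne'
  have h1 : ∀ h ∈ Set.uIcc (0 : ℝ) U, HasDerivAt (fun h : ℝ =>
      -Complex.I * (Complex.exp (((h * l : ℝ) : ℂ) * Complex.I) / (l : ℂ)))
      (Complex.exp (((h * l : ℝ) : ℂ) * Complex.I)) h := by
    intro h _
    have h2 : HasDerivAt (fun h : ℝ => ((h * l : ℝ) : ℂ) * Complex.I) ((l : ℂ) * Complex.I) h := by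
      have h3 : HasDerivAt (fun x : ℝ => ((x * l : ℝ) : ℂ)) (l : ℂ) h := by
        have := ((hasDerivAt_id h).mul_const l).ofReal_comp
        simpa using this
      exact h3.mul_const _
    have h3 := (h2.cexp.div_const (l : ℂ)).const_mul (-Complex.I)
    refine h3.congr_deriv ?_
    field_simp
    rw [Complex.I_sq]
    ring
  rw [intervalIntegral.integral_eq_sub_of_hasDerivAt h1
    ((by fun_prop : Continuous fun h : ℝ =>
      Complex.exp (((h * l : ℝ) : ℂ) * Complex.I)).intervalIntegrable _ _)]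
  rw [zero_mul, Complex.ofReal_zero, zero_mul, Complex.exp_zero]
  ring

/-- the oscillating integral as an integral over the damping parameter -/
theorem osc {l : ℝ} (hl : 0 < l) (U V : ℝ) :
    ∫ h in (0 : ℝ)..U, Complex.exp (((h * l : ℝ) : ℂ) * Complex.I) =
      -Complex.I * ((Complex.exp (((U * l : ℝ) : ℂ) * Complex.I) - 1) *
        (((∫ v in (0 : ℝ)..V, Real.exp (-(l * v)) : ℝ) : ℂ) +
          ((Real.exp (-(l * V)) / l : ℝ) : ℂ))) := by
  rw [int_exp_I hl, int_exp_neg hl]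
  have hl0 : (l : ℂ) ≠ 0 := by exact_mod_cast hl.ne'
  push_cast
  field_simp
  ring

end

end Pool.Agent.Q247.EW
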