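import Pool.Agent.Q153.EW.TAIL
import Pool.Agent.Q61.EW.EXCc

/-!
Project EWX, job AP2c, part 2: the mean squares of the coefficients, complex weights.
-/

set_option autoImplicit false

namespace Pool.Agent.Q247.EW

open Filter Topology MeasureTheory Pool.Agent.Q80.EW

noncomputable section

/-- truncation, general form -/
theorem tailg {l Z : ℕ} {v v' : ℕ → ℝ} (hv : Wt Z v) (hv' : Wt Z v') {f g : ArithmeticFunction ℂ}
    (hf : Q153.EW.Dom f (Q153.EW.gg Z v v')) (hg : Q153.EW.Dom g (Q153.EW.gg Z v v'))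
    (hfg : Q153.EW.Eql l f g) :
    |nm f - nm g| ≤ Real.exp (Q153.EW.KK * ∑' n : ℕ, 1 / (n : ℝ) ^ 2) *
      Real.exp (51 * ∑ p ∈ Nat.primesBelow Z, (1 : ℝ) / (p : ℝ)) / (7 / 5 : ℝ) ^ l := by
  obtain ⟨hS, hle⟩ := Q153.EW.sum_FF hv hv'
  have hgF : ∀ n, Q153.EW.gg Z v v' n ^ 2 / (n : ℝ) ≤ Q153.EW.FF Z v v' n := by
    intro n
    unfold Q153.EW.FF
    refine div_le_div_of_nonneg_right ?_ (Nat.cast_nonneg n)
    exact le_mul_of_one_le_right (sq_nonneg _) (one_le_pow₀ (by norm_num))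
  have hsumm : ∀ f : ArithmeticFunction ℂ, Q153.EW.Dom f (Q153.EW.gg Z v v') →
      Summable fun n : ℕ => ‖f n‖ ^ 2 / (n : ℝ) := by
    intro f hf
    refine Summable.of_nonneg_of_le (fun n => by positivity) (fun n => ?_) hS
    refine le_trans ?_ (hgF n)
    exact div_le_div_of_nonneg_right (pow_le_pow_left₀ (norm_nonneg _) (hf n) 2)
      (Nat.cast_nonneg n)
  have s1' := hsumm _ hf
  have s2' := hsumm _ hg
  unfold nm
  rw [← s1'.tsum_sub s2']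
  have hterm : ∀ n : ℕ, ‖‖f n‖ ^ 2 / (n : ℝ) - ‖g n‖ ^ 2 / (n : ℝ)‖ ≤
      Q153.EW.FF Z v v' n * ((7 / 5 : ℝ) ^ l)⁻¹ := by
    intro n
    by_cases hn : ArithmeticFunction.cardFactors n ≤ l
    · rw [hfg n hn, sub_self, norm_zero]
      exact mul_nonneg (Q153.EW.FF_nonneg _ _ _ _) (by positivity)
    · push Not at hn
      rw [← sub_div, norm_div, Real.norm_eq_abs, Real.norm_eq_abs, Nat.abs_cast]
      have h1 : |‖f n‖ ^ 2 - ‖g n‖ ^ 2| ≤ Q153.EW.gg Z v v' n ^ 2 := by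
        have a1 := pow_le_pow_left₀ (norm_nonneg _) (hf n) 2
        have a2 := pow_le_pow_left₀ (norm_nonneg _) (hg n) 2
        rw [abs_le]
        constructor
        · have := sq_nonneg ‖f n‖
          linarith
        · have := sq_nonneg ‖g n‖
          linarith
      have h2 : (1 : ℝ) ≤ (7 / 5 : ℝ) ^ (ArithmeticFunction.cardFactors n) * ((7 / 5 : ℝ) ^ l)⁻¹ := by
        rw [← div_eq_mul_inv, le_div_iff₀ (by positivity), one_mul]
        exact pow_le_pow_right₀ (by norm_num) hn.le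
      calc |‖f n‖ ^ 2 - ‖g n‖ ^ 2| / (n : ℝ)
          ≤ Q153.EW.gg Z v v' n ^ 2 / (n : ℝ) := div_le_div_of_nonneg_right h1 (Nat.cast_nonneg n)
        _ ≤ Q153.EW.gg Z v v' n ^ 2 / (n : ℝ) *
            ((7 / 5 : ℝ) ^ (ArithmeticFunction.cardFactors n) * ((7 / 5 : ℝ) ^ l)⁻¹) :=
            le_mul_of_one_le_right (by positivity) h2
        _ = Q153.EW.FF Z v v' n * ((7 / 5 : ℝ) ^ l)⁻¹ := by
            unfold Q153.EW.FF
            ring
  rw [← Real.norm_eq_abs]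
  refine (tsum_of_norm_bounded (hS.mul_right _).hasSum hterm).trans ?_
  rw [tsum_mul_right, div_eq_mul_inv]
  exact mul_le_mul_of_nonneg_right hle (by positivity)

theorem exc_mult (w : ℕ → ℂ) : (exc w).IsMultiplicative := by
  refine ⟨?_, fun {m n} hmn => ?_⟩
  · rw [Q61.EW.exc_apply, if_neg one_ne_zero]
    simp
  · rcases eq_or_ne m 0 with rfl | hm
    · simp
    rcases eq_or_ne n 0 with rfl | hn
    · simp
    rw [Q61.EW.exc_apply, Q61.EW.exc_apply, Q61.EW.exc_apply, if_neg (mul_ne_zero hm hn),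
      if_neg hm, if_neg hn,
      Nat.factorization_mul hm hn, Finsupp.prod_add_index_of_disjoint]
    exact Nat.Coprime.disjoint_primeFactors hmn

theorem exc_p (w : ℕ → ℂ) {p : ℕ} (hp : p.Prime) : exc w p = w p := by
  rw [Q61.EW.exc_apply, if_neg hp.ne_zero, hp.factorization, Finsupp.prod_single_index]
  · simp
  · simp

theorem dom_exc (w : ℕ → ℂ) : Q153.EW.Dom (exc w) (Q153.EW.nr (ex fun p => ‖w p‖)) := by
  intro n
  obtain ⟨r, h1, h2⟩ := Q61.EW.Dom_exc w (fun p => ‖w p‖) (fun p => le_rfl) n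
  rw [Q153.EW.nr_apply, h1, Complex.norm_real, Real.norm_eq_abs]
  exact h2.trans (le_abs_self r)

theorem dom_one' (v : ℕ → ℝ) : Q153.EW.Dom 1 (Q153.EW.nr (ex v)) := by
  intro n
  rcases eq_or_ne n 1 with rfl | hn
  · rw [Q153.EW.nr_apply, (Q153.EW.ex_mult v).1, ArithmeticFunction.one_one]
  · rw [ArithmeticFunction.one_apply_ne hn, norm_zero, Q153.EW.nr_apply]
    exact norm_nonneg _

/-- the squares of the norms as a bilinear sum -/
theorem nm_bil (f : ArithmeticFunction ℂ) :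
    ‖∑' n : ℕ, f n * (starRingEnd ℂ) (f n) / (n : ℂ)‖ = nm f := by
  have h1 : ∀ n : ℕ, f n * (starRingEnd ℂ) (f n) / (n : ℂ) = ((‖f n‖ ^ 2 / (n : ℝ) : ℝ) : ℂ) := by
    intro n
    rw [Complex.mul_conj, Complex.normSq_eq_norm_sq]
    push_cast
    ring
  rw [tsum_congr h1, ← Complex.ofReal_tsum, Complex.norm_real, Real.norm_eq_abs]
  exact abs_of_nonneg (tsum_nonneg fun n => by positivity)

/-- the mean square of a multiplicative function with small values at primes, from `J_CEP` -/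
theorem nm_cep (hC : J_CEP) : ∃ C : ℝ, 0 < C ∧ ∀ (Z : ℕ) (v : ℕ → ℝ) (f : ArithmeticFunction ℂ),
    Wt Z v → f.IsMultiplicative → (∀ n : ℕ, f n ≠ 0 → n ∈ Nat.smoothNumbers Z) →
    Q153.EW.Dom f (Q153.EW.gg Z v 0) →
    nm f ≤ Real.exp ((∑ p ∈ Nat.primesBelow Z, ‖f p‖ ^ 2 / (p : ℝ)) + C) := by
  obtain ⟨C, hC0, hC⟩ := hC (Real.exp 4) (Real.exp_pos _)
  refine ⟨C, hC0, fun Z v f hv hf hs hd => ?_⟩
  have hW : Wt Z (0 : ℕ → ℝ) := fun p => by simp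
  have hb : ∀ p k : ℕ, p.Prime → ‖f (p ^ k)‖ ≤ Real.exp 4 * ((k : ℝ) + 1) ^ 3 := by
    intro p k hp
    have hk : (1 : ℝ) ≤ ((k : ℝ) + 1) := by
      have : (0 : ℝ) ≤ k := Nat.cast_nonneg k
      linarith
    have he : (1 : ℝ) ≤ Real.exp 4 := Real.one_le_exp (by norm_num)
    by_cases hpZ : p < Z
    · refine (hd _).trans ((Q153.EW.gg_pp hp hpZ (hv p).1 (hW p).1 k).trans ?_)
      rw [mul_comm]
      refine mul_le_mul_of_nonneg_left ?_ (Real.exp_pos _).le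
      exact le_self_pow₀ hk (by norm_num)
    · by_cases hk0 : k = 0
      · rw [hk0, pow_zero, hf.1, norm_one]
        simpa using he
      · have h0 : f (p ^ k) = 0 := by
          by_contra hne
          exact hpZ (Nat.mem_smoothNumbers'.mp (hs _ hne) p hp (dvd_pow_self p hk0))
        rw [h0, norm_zero]
        positivity
  have h1 := hC Z f f hf hf hs (fun p k hp => ⟨hb p k hp, hb p k hp⟩)
  rw [nm_bil] at h1
  refine h1.trans (le_of_eq ?_)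
  congr 2
  refine Finset.sum_congr rfl fun p _ => ?_
  rw [Complex.mul_conj, Complex.normSq_eq_norm_sq, Complex.ofReal_re]

/-- the square of the smooth part times the complex exponential -/
def Gs (Z : ℕ) (w : ℕ → ℂ) : ArithmeticFunction ℂ := sm Z * sm Z * exc w

theorem Gs_mult (Z : ℕ) (w : ℕ → ℂ) : (Gs Z w).IsMultiplicative :=
  ((Q153.EW.sm_mult Z).mul (Q153.EW.sm_mult Z)).mul (exc_mult w)

theorem Gs_supp {Z : ℕ} {w : ℕ → ℂ} (hw : ∀ p, Z ≤ p → w p = 0) :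
    ∀ n : ℕ, Gs Z w n ≠ 0 → n ∈ Nat.smoothNumbers Z :=
  Q153.EW.mul_supp (Q153.EW.mul_supp (Q153.EW.sm_supp Z) (Q153.EW.sm_supp Z)) (Q61.EW.Su_exc hw)

theorem Gs_p {Z p : ℕ} {w : ℕ → ℂ} (hp : p.Prime) (hpZ : p < Z) : Gs Z w p = 2 + w p := by
  have step : ∀ f g : ArithmeticFunction ℂ, (f * g) p = f 1 * g p + f p * g 1 := by
    intro f g
    have := Q153.EW.mul_pp f g hp 1
    rw [pow_one] at this
    rw [this, Finset.sum_range_succ, Finset.sum_range_one]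
    simp
  have h1 : sm Z 1 = 1 := (Q153.EW.sm_mult Z).1
  have h2 : sm Z p = 1 := by
    have := Q153.EW.pp_smooth hp hpZ 1
    rw [pow_one] at this
    rw [Q153.EW.sm_apply, if_pos this]
  have h3 : (sm Z * sm Z) 1 = 1 := ((Q153.EW.sm_mult Z).mul (Q153.EW.sm_mult Z)).1
  unfold Gs
  rw [step, step, h3, h1, h2, exc_p w hp, (exc_mult w).1]
  ring

theorem Gs_dom (Z : ℕ) (w : ℕ → ℂ) :
    Q153.EW.Dom (Gs Z w) (Q153.EW.gg Z (fun p => ‖w p‖) 0) := by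
  have h := (((Q153.EW.dom_self (sm Z)).mul (Q153.EW.dom_self (sm Z))).mul (dom_exc w)).mul
    (dom_one' 0)
  rw [mul_one] at h
  exact h

theorem exc_dom (Z : ℕ) (w : ℕ → ℂ) :
    Q153.EW.Dom (exc w) (Q153.EW.gg Z (fun p => ‖w p‖) 0) := by
  have h := (((Q153.EW.dom_one Z).mul (Q153.EW.dom_one Z)).mul (dom_exc w)).mul (dom_one' 0)
  rw [mul_one, one_mul, one_mul] at h
  exact h

/-- the truncated form -/
def Gt (l Z : ℕ) (w : ℕ → ℂ) : ArithmeticFunction ℂ := tr l (sm Z) * tr l (sm Z) * tr l (exc w)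

theorem Gt_dom (l Z : ℕ) (w : ℕ → ℂ) :
    Q153.EW.Dom (Gt l Z w) (Q153.EW.gg Z (fun p => ‖w p‖) 0) := by
  have h := (((Q153.EW.dom_tr (l := l) (Q153.EW.dom_self (sm Z))).mul
    (Q153.EW.dom_tr (l := l) (Q153.EW.dom_self (sm Z)))).mul
    (Q153.EW.dom_tr (l := l) (dom_exc w))).mul (dom_one' 0)
  rw [mul_one] at h
  exact h

theorem Gt_eql (l Z : ℕ) (w : ℕ → ℂ) : Q153.EW.Eql l (Gt l Z w) (Gs Z w) :=
  ((Q153.EW.eql_tr l _).mul (Q153.EW.eql_tr l _)).mul (Q153.EW.eql_tr l _)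

/-- the bounds for both families -/
theorem nm_bounds (hC : J_CEP) : ∃ C : ℝ, 0 < C ∧ ∀ (l Z : ℕ) (w : ℕ → ℂ),
    (∀ p, ‖w p‖ ≤ 2) → (∀ p, Z ≤ p → w p = 0) → (∀ p, (w p).re = 0) →
    nm (Gt l Z w) ≤ C * (Real.exp (4 * (∑ p ∈ Nat.primesBelow Z, (1 : ℝ) / (p : ℝ)) +
        ∑ p ∈ Nat.primesBelow Z, ‖w p‖ ^ 2 / (p : ℝ)) +
      Real.exp (51 * ∑ p ∈ Nat.primesBelow Z, (1 : ℝ) / (p : ℝ)) / (7 / 5 : ℝ) ^ l) ∧
    nm (tr l (exc w)) ≤ C * (Real.exp (∑ p ∈ Nat.primesBelow Z, ‖w p‖ ^ 2 / (p : ℝ)) +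
      Real.exp (51 * ∑ p ∈ Nat.primesBelow Z, (1 : ℝ) / (p : ℝ)) / (7 / 5 : ℝ) ^ l) := by
  obtain ⟨C, hC0, hC⟩ := nm_cep hC
  obtain ⟨K, hK⟩ : ∃ K, K = Real.exp (Q153.EW.KK * ∑' n : ℕ, 1 / (n : ℝ) ^ 2) := ⟨_, rfl⟩
  have hK0 : 0 < K := by rw [hK]; exact Real.exp_pos _
  refine ⟨Real.exp C + K, by positivity, fun l Z w hw2 hw0 hwi => ?_⟩
  have hW : Wt Z (fun p => ‖w p‖) := by
    intro p
    refine ⟨?_, fun h => by simp [hw0 p h]⟩
    rw [abs_of_nonneg (norm_nonneg _)]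
    exact hw2 p
  have hW0 : Wt Z (0 : ℕ → ℝ) := fun p => by simp
  obtain ⟨R, hR⟩ : ∃ R, R = Real.exp (51 * ∑ p ∈ Nat.primesBelow Z, (1 : ℝ) / (p : ℝ)) /
    (7 / 5 : ℝ) ^ l := ⟨_, rfl⟩
  have hR0 : 0 < R := by rw [hR]; positivity
  constructor
  · have h1 := hC Z _ (Gs Z w) hW (Gs_mult Z w) (Gs_supp hw0) (Gs_dom Z w)
    have h2 := tailg hW hW0 (Gt_dom l Z w) (Gs_dom Z w) (Gt_eql l Z w)
    rw [← hK, mul_div_assoc, ← hR] at h2
    have h3 : ∑ p ∈ Nat.primesBelow Z, ‖Gs Z w p‖ ^ 2 / (p : ℝ) =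
        4 * (∑ p ∈ Nat.primesBelow Z, (1 : ℝ) / (p : ℝ)) +
        ∑ p ∈ Nat.primesBelow Z, ‖w p‖ ^ 2 / (p : ℝ) := by
      rw [Finset.mul_sum, ← Finset.sum_add_distrib]
      refine Finset.sum_congr rfl fun p hp => ?_
      rw [Gs_p (Nat.prime_of_mem_primesBelow hp) (Nat.lt_of_mem_primesBelow hp)]
      have h4 : ‖2 + w p‖ ^ 2 = 4 + ‖w p‖ ^ 2 := by
        rw [← Complex.normSq_eq_norm_sq, ← Complex.normSq_eq_norm_sq, Complex.normSq_apply,
          Complex.normSq_apply, Complex.add_re, Complex.add_im, hwi p]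
        simp
        ring
      rw [h4]
      ring
    rw [h3, Real.exp_add] at h1
    rw [← hR]
    have h5 := (abs_le.1 h2).2
    have h6 := Real.exp_pos (4 * (∑ p ∈ Nat.primesBelow Z, (1 : ℝ) / (p : ℝ)) +
        ∑ p ∈ Nat.primesBelow Z, ‖w p‖ ^ 2 / (p : ℝ))
    have h7 := Real.exp_pos C
    nlinarith [mul_pos hK0 h6, mul_pos h7 hR0]
  · have h1 := hC Z _ (exc w) hW (exc_mult w) (Q61.EW.Su_exc hw0) (exc_dom Z w)
    have h2 := tailg hW hW0 (Q153.EW.dom_tr (l := l) (exc_dom Z w)) (exc_dom Z w)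
      (Q153.EW.eql_tr l _)
    rw [← hK, mul_div_assoc, ← hR] at h2
    have h3 : ∑ p ∈ Nat.primesBelow Z, ‖exc w p‖ ^ 2 / (p : ℝ) =
        ∑ p ∈ Nat.primesBelow Z, ‖w p‖ ^ 2 / (p : ℝ) := by
      refine Finset.sum_congr rfl fun p hp => ?_
      rw [exc_p w (Nat.prime_of_mem_primesBelow hp)]
    rw [h3, Real.exp_add] at h1
    rw [← hR]
    have h5 := (abs_le.1 h2).2
    have h6 := Real.exp_pos (∑ p ∈ Nat.primesBelow Z, ‖w p‖ ^ 2 / (p : ℝ))
    have h7 := Real.exp_pos C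
    nlinarith [mul_pos hK0 h6, mul_pos h7 hR0]

end

end Pool.Agent.Q247.EW
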