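import Pool.Agent.Q247.EW.AP2c1
import Pool.Agent.Q247.EW.AP2c2

/-!
Project EWX, job AP2c: the oscillating term with a character is small in mean over windows.
-/

set_option autoImplicit false

namespace Pool.Agent.Q247.EW

open Filter Topology MeasureTheory Pool.Agent.Q80.EW

noncomputable section

/-- the general form -/
theorem osc_gen {C : ℝ} (hC : 0 < C) (hMV : ∀ (X : ℕ) (f : ArithmeticFunction ℂ), FS X f →
    ∀ a b : ℝ, a ≤ b → |(∫ t in a..b, ‖dp f t‖ ^ 2) - (b - a) * nm f| ≤ C * X * nm f)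
    {C1 T0 : ℝ} (hC1 : 0 < C1) (hT0 : 2 ≤ T0)
    (hloc : ∀ t : ℝ, T0 ≤ t → ∀ h : ℝ, |h| ≤ t / 2 →
    ‖(starRingEnd ℂ) (chi (t + h)) - (starRingEnd ℂ) (chi t) *
      Complex.exp (((h * Real.log (t / (2 * Real.pi)) : ℝ) : ℂ) * Complex.I)‖ ≤
      C1 * (1 + h ^ 2) / t)
    {X M : ℕ} {c b : ArithmeticFunction ℂ} (hc : FS X c) (hb : FS M b) {T U α β η : ℝ}
    (hη : 0 < η) (hη1 : η ≤ 1) (hTT0 : T0 ≤ T) (hT4 : 4 ≤ T) (hL2 : 2 ≤ η * Real.log T)
    (hX : (X : ℝ) ≤ T ^ (1 - 3 * η)) (hM : (M : ℝ) ≤ T ^ η) (hα : 0 < α) (hβ : 0 < β)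
    (hn : nm c ≤ α ^ 2) (hn' : nm b ≤ β ^ 2) (hU1 : 1 ≤ U) (hU : U ≤ T ^ (1 / 10 : ℝ)) :
    ∫ t in T..(3 * T), ‖∫ h in (0 : ℝ)..U, (starRingEnd ℂ) (chi (t + h)) *
      (dp c (t + h) * (starRingEnd ℂ) (dp b (t + h)))‖ ≤
    (4 * C1 * (2 + C) + 2 * (2 + C) + 4) / η * ((α * β) * (T / Real.log T)) := by
  have hTp : 0 < T := by linarith
  obtain ⟨L, hL⟩ : ∃ L, L = Real.log T := ⟨_, rfl⟩
  rw [← hL] at hL2 ⊢
  have hTe : T = Real.exp L := by rw [hL, Real.exp_log hTp]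
  have hexp : ∀ x : ℝ, T ^ x = Real.exp (x * L) := by
    intro x
    rw [Real.rpow_def_of_pos hTp, ← hL, mul_comm]
  have hLp : 0 < L := by
    by_contra h
    push Not at h
    nlinarith
  have hL1 : 1 ≤ L := by
    by_contra h
    push Not at h
    nlinarith
  have hL3 : L ≤ 2 * T ^ (1 / 2 : ℝ) := by
    have := Real.log_le_rpow_div hTp.le (by norm_num : (0 : ℝ) < 1 / 2)
    rw [← hL] at this
    linarith
  -- the length of the window
  have hU3L : U ^ 3 * L ≤ 2 * T := by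
    have h1 : U ^ 3 ≤ (T ^ (1 / 10 : ℝ)) ^ 3 := pow_le_pow_left₀ (by linarith) hU 3
    have h2 : (T ^ (1 / 10 : ℝ)) ^ 3 = T ^ (3 / 10 : ℝ) := by
      rw [← Real.rpow_natCast, ← Real.rpow_mul hTp.le]
      norm_num
    rw [h2] at h1
    have h3 : U ^ 3 * L ≤ T ^ (3 / 10 : ℝ) * (2 * T ^ (1 / 2 : ℝ)) :=
      mul_le_mul h1 hL3 hLp.le (by positivity)
    have h4 : T ^ (3 / 10 : ℝ) * (2 * T ^ (1 / 2 : ℝ)) = 2 * T ^ (8 / 10 : ℝ) := by
      rw [mul_left_comm, ← Real.rpow_add hTp]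
      norm_num
    have h5 : T ^ (8 / 10 : ℝ) ≤ T := by
      have := Real.rpow_le_rpow_of_exponent_le (by linarith : (1 : ℝ) ≤ T)
        (by norm_num : (8 / 10 : ℝ) ≤ 1)
      rwa [Real.rpow_one] at this
    linarith
  have hU10 : U ^ 10 ≤ T := by
    have h1 : U ^ 10 ≤ (T ^ (1 / 10 : ℝ)) ^ 10 := pow_le_pow_left₀ (by linarith) hU 10
    refine h1.trans (le_of_eq ?_)
    rw [← Real.rpow_natCast, ← Real.rpow_mul hTp.le]
    norm_num
  have hU2T : U ≤ T / 2 := by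
    rcases le_or_gt U 2 with h | h
    · linarith
    · have h1 : U ^ 2 ≤ T := (pow_le_pow_right₀ hU1 (by norm_num)).trans hU10
      nlinarith
  -- the supports
  have hXe : (X : ℝ) ≤ Real.exp ((1 - 3 * η) * L) := by rw [← hexp]; exact hX
  have hMe : (M : ℝ) ≤ Real.exp (η * L) := by rw [← hexp]; exact hM
  have hXT : (X : ℝ) ≤ T := by
    refine hXe.trans ?_
    rw [hTe]
    exact Real.exp_le_exp.2 (by nlinarith)
  have hMT : (M : ℝ) ≤ T := by
    refine hMe.trans ?_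
    rw [hTe]
    exact Real.exp_le_exp.2 (by nlinarith)
  have hXMT : (X : ℝ) * M ≤ T := by
    have h1 : (X : ℝ) * M ≤ Real.exp ((1 - 3 * η) * L) * Real.exp (η * L) :=
      mul_le_mul hXe hMe (by positivity) (Real.exp_pos _).le
    refine h1.trans ?_
    rw [← Real.exp_add, hTe]
    exact Real.exp_le_exp.2 (by nlinarith)
  have hB : ∀ n ∈ Finset.Icc 1 X, Real.log n ≤ (1 - 3 * η) * L := by
    intro n hn
    rw [Finset.mem_Icc] at hn
    have hn0 : (0 : ℝ) < n := by exact_mod_cast hn.1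
    rw [Real.log_le_iff_le_exp hn0]
    exact le_trans (by exact_mod_cast hn.2) hXe
  -- the scales
  have hpi2 : Real.log (2 * Real.pi) ≤ 2 := by
    rw [Real.log_le_iff_le_exp (by positivity)]
    have h1 : (2.7 : ℝ) ≤ Real.exp 1 := by linarith [Real.exp_one_gt_d9]
    have h2 : Real.exp 2 = Real.exp 1 * Real.exp 1 := by rw [← Real.exp_add]; norm_num
    rw [h2]
    nlinarith [Real.pi_lt_d2]
  obtain ⟨A, hA⟩ : ∃ A, A = Real.log (T / (2 * Real.pi)) := ⟨_, rfl⟩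
  have hAe : A = L - Real.log (2 * Real.pi) := by
    rw [hA, Real.log_div hTp.ne' (by positivity), hL]
  have hAb : η * L ≤ A - (1 - 3 * η) * L := by
    rw [hAe]
    nlinarith
  have hηL : 0 < η * L := by linarith
  obtain ⟨V, hV⟩ : ∃ V, V = 1 / η := ⟨_, rfl⟩
  have hV0 : 0 ≤ V := by
    rw [hV]
    positivity
  have hmV : η * L * V = L := by
    rw [hV]
    field_simp
  obtain ⟨g1c, g1⟩ := G1_bd2 hC hMV hc hb (U := U) hTp hXT hMT hα hβ hn hn' (by linarith)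
  obtain ⟨g2c, g2⟩ := G2_bd2 hC hMV hc hb (U := U) (V := V) (A := A) hTp hXT hMT hV0 hB
    (by linarith) hα hβ hn hn'
  obtain ⟨G1, hG1⟩ : ∃ G1 : ℝ → ℝ, G1 = fun t => ∫ h in (0 : ℝ)..U,
    ‖dp c (t + h) * (starRingEnd ℂ) (dp b (t + h))‖ := ⟨_, rfl⟩
  obtain ⟨G2, hG2⟩ : ∃ G2 : ℝ → ℝ, G2 = fun t => ∫ v in (0 : ℝ)..V, Real.exp (-(A * v)) *
      (‖dp (bv c v) (t + U)‖ * ‖dp (bv b (-v)) (t + U)‖ + ‖dp (bv c v) t‖ * ‖dp (bv b (-v)) t‖) :=
    ⟨_, rfl⟩
  rw [← hG1] at g1c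
  rw [← hG2] at g2c
  have g1' : ∫ t in T..(3 * T), G1 t ≤ U * ((2 + C) * T * (α * β)) := by
    rw [hG1]
    exact g1
  have g2' : ∫ t in T..(3 * T), G2 t ≤ 2 * (2 + C) * T * (α * β) / (A - (1 - 3 * η) * L) := by
    rw [hG2]
    exact g2
  have hFc : Continuous fun t => dp c t * (starRingEnd ℂ) (dp b t) :=
    (dp_cont hc).mul (Complex.continuous_conj.comp (dp_cont hb))
  -- the pointwise bound
  have hpt : ∀ t ∈ Set.Icc T (3 * T),
      ‖∫ h in (0 : ℝ)..U, (starRingEnd ℂ) (chi (t + h)) *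
        (dp c (t + h) * (starRingEnd ℂ) (dp b (t + h)))‖ ≤
      C1 * (1 + U ^ 2) / T * G1 t + G2 t + 2 * (α * β) / (η * L) := by
    intro t ht
    have htp : 0 < t := by linarith [ht.1]
    have h1 := freeze2 hC1 hT0 hloc hFc hTT0 ht.1 (by linarith : 0 ≤ U) hU2T
    have hlt : A ≤ Real.log (t / (2 * Real.pi)) := by
      rw [hA]
      refine Real.log_le_log (by positivity) ?_
      exact div_le_div_of_nonneg_right ht.1 (by positivity)
    have h2 := mid2 hc hb (l := Real.log (t / (2 * Real.pi))) (m := η * L) (U := U) (V := V) (t := t)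
      hηL (fun n hn => by linarith [hB n hn]) hV0
    have h4 : ∫ v in (0 : ℝ)..V, Real.exp (-(Real.log (t / (2 * Real.pi)) * v)) *
        (‖dp (bv c v) (t + U)‖ * ‖dp (bv b (-v)) (t + U)‖ +
          ‖dp (bv c v) t‖ * ‖dp (bv b (-v)) t‖) ≤ G2 t := by
      rw [hG2]
      have k1 := (bv_cont1 hc (t + U)).norm
      have k2 := (bv_cont1 hc t).norm
      have k3 := ((bv_cont1 hb (t + U)).comp continuous_neg).norm
      have k4 := ((bv_cont1 hb t).comp continuous_neg).norm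
      have k5 := (k1.mul k3).add (k2.mul k4)
      refine intervalIntegral.integral_mono_on hV0 ?_ ?_ ?_
      · exact ((by fun_prop : Continuous fun v : ℝ =>
          Real.exp (-(Real.log (t / (2 * Real.pi)) * v))).mul k5).intervalIntegrable _ _
      · exact ((by fun_prop : Continuous fun v : ℝ =>
          Real.exp (-(A * v))).mul k5).intervalIntegrable _ _
      · intro v hv
        refine mul_le_mul_of_nonneg_right ?_ (by positivity)
        exact Real.exp_le_exp.2 (neg_le_neg (mul_le_mul_of_nonneg_right hlt hv.1))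
    have h5 : 2 * Real.exp (-(η * L * V)) / (η * L) *
        ((∑ n ∈ Finset.Icc 1 X, ‖c n‖) * ∑ n ∈ Finset.Icc 1 M, ‖b n‖) ≤
        2 * (α * β) / (η * L) := by
      have e1 := sum_nm hc hα.le hn
      have e1' := sum_nm hb hβ.le hn'
      have e0 : (∑ n ∈ Finset.Icc 1 X, ‖c n‖) * ∑ n ∈ Finset.Icc 1 M, ‖b n‖ ≤ T * (α * β) := by
        refine (mul_le_mul e1 e1' (Finset.sum_nonneg fun _ _ => norm_nonneg _)
          (by positivity)).trans ?_
        have : (X : ℝ) * α * (M * β) = (X * M) * (α * β) := by ring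
        rw [this]
        exact mul_le_mul_of_nonneg_right hXMT (by positivity)
      have e2 := mul_le_mul_of_nonneg_left e0
        (by positivity : 0 ≤ 2 * Real.exp (-(η * L * V)) / (η * L))
      refine e2.trans (le_of_eq ?_)
      rw [hmV]
      have e3 : Real.exp (-L) * T = 1 := by
        rw [hTe, ← Real.exp_add]
        simp
      calc 2 * Real.exp (-L) / (η * L) * (T * (α * β)) =
          2 * (Real.exp (-L) * T) * (α * β) / (η * L) := by ring
        _ = 2 * (α * β) / (η * L) := by rw [e3, mul_one]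
    have h6 : G1 t = ∫ h in (0 : ℝ)..U, ‖dp c (t + h) * (starRingEnd ℂ) (dp b (t + h))‖ := by
      rw [hG1]
    rw [h6]
    linarith
  have hTT : T ≤ 3 * T := by linarith
  have hint : ∫ t in T..(3 * T),
      ‖∫ h in (0 : ℝ)..U, (starRingEnd ℂ) (chi (t + h)) *
        (dp c (t + h) * (starRingEnd ℂ) (dp b (t + h)))‖ ≤
      ∫ t in T..(3 * T), (C1 * (1 + U ^ 2) / T * G1 t + G2 t + 2 * (α * β) / (η * L)) := by
    rw [intervalIntegral.integral_of_le hTT, intervalIntegral.integral_of_le hTT]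
    refine integral_mono_of_nonneg (Eventually.of_forall fun t => norm_nonneg _) ?_ ?_
    · have h1 : Continuous fun t => C1 * (1 + U ^ 2) / T * G1 t + G2 t + 2 * (α * β) / (η * L) :=
        ((continuous_const.mul g1c).add g2c).add continuous_const
      exact (h1.intervalIntegrable T (3 * T)).1
    · rw [EventuallyLE, ae_restrict_iff' measurableSet_Ioc]
      exact Eventually.of_forall fun t ht => hpt t ⟨ht.1.le, ht.2⟩
  refine hint.trans ?_
  have k1 : Continuous fun t => C1 * (1 + U ^ 2) / T * G1 t := continuous_const.mul g1c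
  have k2 : Continuous fun t => C1 * (1 + U ^ 2) / T * G1 t + G2 t := k1.add g2c
  rw [intervalIntegral.integral_add (k2.intervalIntegrable _ _)
    (continuous_const.intervalIntegrable _ _),
    intervalIntegral.integral_add (k1.intervalIntegrable _ _) (g2c.intervalIntegrable _ _),
    intervalIntegral.integral_const_mul, intervalIntegral.integral_const, smul_eq_mul]
  obtain ⟨W, hW⟩ : ∃ W, W = (α * β) * (T / L) := ⟨_, rfl⟩
  have hW0 : 0 < W := by rw [hW]; positivity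
  -- first part
  have p1 : C1 * (1 + U ^ 2) / T * ∫ t in T..(3 * T), G1 t ≤ 4 * C1 * (2 + C) * W := by
    have e1 : C1 * (1 + U ^ 2) / T * ∫ t in T..(3 * T), G1 t ≤
        C1 * (1 + U ^ 2) / T * (U * ((2 + C) * T * (α * β))) :=
      mul_le_mul_of_nonneg_left g1' (by positivity)
    refine e1.trans ?_
    have e2 : C1 * (1 + U ^ 2) / T * (U * ((2 + C) * T * (α * β))) =
        C1 * (2 + C) * (((1 + U ^ 2) * U) * (α * β)) := by
      field_simp
    rw [e2]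
    have e3 : (1 + U ^ 2) * U ≤ 4 * (T / L) := by
      have h1 : (1 + U ^ 2) * U ≤ 2 * U ^ 3 := by nlinarith [sq_nonneg U]
      have h2 : U ^ 3 ≤ 2 * T / L := by
        rw [le_div_iff₀ hLp]
        exact hU3L
      have h3 : 2 * T / L = 2 * (T / L) := by ring
      linarith
    have e4 := mul_le_mul_of_nonneg_right e3 (by positivity : 0 ≤ α * β)
    have e5 := mul_le_mul_of_nonneg_left e4 (by positivity : 0 ≤ C1 * (2 + C))
    refine e5.trans (le_of_eq ?_)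
    rw [hW]
    ring
  -- second part
  have p2 : ∫ t in T..(3 * T), G2 t ≤ 2 * (2 + C) / η * W := by
    refine g2'.trans ?_
    have e1 : 2 * (2 + C) * T * (α * β) / (A - (1 - 3 * η) * L) ≤
        2 * (2 + C) * T * (α * β) / (η * L) :=
      div_le_div_of_nonneg_left (by positivity) hηL hAb
    refine e1.trans (le_of_eq ?_)
    rw [hW]
    field_simp
  have p3 : (3 * T - T) * (2 * (α * β) / (η * L)) = 4 / η * W := by
    rw [hW]
    field_simp
    ring
  rw [p3, ← hW]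
  have p5 : 4 * C1 * (2 + C) * W ≤ 4 * C1 * (2 + C) / η * W := by
    refine mul_le_mul_of_nonneg_right ?_ hW0.le
    rw [le_div_iff₀ hη]
    have : 0 ≤ 4 * C1 * (2 + C) := by positivity
    nlinarith
  have p4 : (4 * C1 * (2 + C) + 2 * (2 + C) + 4) / η * W =
      4 * C1 * (2 + C) / η * W + 2 * (2 + C) / η * W + 4 / η * W := by
    ring
  rw [p4]
  linarith

/-- the weights -/
theorem wc_norm {T : ℝ} (hL : 0 < La T) (u : ℝ) (p : ℕ) :
    ‖wc T u p‖ ≤ |u| / (2 * Real.sqrt (La T)) := by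
  unfold wc
  rw [norm_mul, Complex.norm_I, mul_one, Complex.norm_real, Real.norm_eq_abs, abs_mul, abs_div,
    abs_of_pos (by positivity : 0 < 2 * Real.sqrt (La T))]
  refine mul_le_of_le_one_right (by positivity) ?_
  unfold ind
  split_ifs <;> simp

theorem wc_zero {T : ℝ} (u : ℝ) {p : ℕ} (hp : zc (Yt T) ≤ p) : wc T u p = 0 := by
  unfold wc ind
  rw [if_neg (by omega)]
  simp

theorem wc_re (T u : ℝ) (p : ℕ) : (wc T u p).re = 0 := by
  unfold wc
  rw [Complex.re_ofReal_mul, Complex.I_re, mul_zero]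

/-- the growth of the truncation factor -/
theorem pow_el (l : ℕ) : Real.exp ((l : ℝ) / 3) ≤ (7 / 5 : ℝ) ^ l := by
  have h1 : Real.exp (1 / 3) ≤ 7 / 5 := by
    have h2 : Real.exp (1 / 3) ^ 3 ≤ (7 / 5 : ℝ) ^ 3 := by
      rw [← Real.exp_nat_mul]
      have : ((3 : ℕ) : ℝ) * (1 / 3) = 1 := by norm_num
      rw [this]
      linarith [Real.exp_one_lt_d9]
    exact (pow_le_pow_iff_left₀ (Real.exp_pos _).le (by norm_num) (by norm_num)).1 h2
  have h3 : (l : ℝ) / 3 = (l : ℝ) * (1 / 3) := by ring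
  rw [h3, Real.exp_nat_mul]
  exact pow_le_pow_left₀ (Real.exp_pos _).le h1 l

/-- the mean squares at the scales of the project -/
theorem nm_scales (hCEP : J_CEP) (hMT : J_MERT) (u : ℝ) : ∃ K : ℝ, 0 < K ∧ ∀ᶠ T : ℝ in atTop,
    ∀ s : ℝ, |s| ≤ |u| →
    nm (Gt (el T) (zc (Yt T)) (wc T s)) ≤ K * (Real.log T / La T ^ 2) ^ 4 ∧
    nm (tr (el T) (exc (wc T s))) ≤ K := by
  obtain ⟨C, hC0, hC⟩ := nm_bounds hCEP
  obtain ⟨D, hD⟩ := hMT
  have hD0 : 0 ≤ D := (abs_nonneg _).trans (hD 0 le_rfl)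
  obtain ⟨K1, hK1⟩ : ∃ K1, K1 = Real.exp (u ^ 2 / 4 * (1 + D)) := ⟨_, rfl⟩
  have hK10 : 0 < K1 := by rw [hK1]; exact Real.exp_pos _
  refine ⟨C * (Real.exp (4 * D) * K1 + Real.exp (51 * D)) + C * (K1 + Real.exp (51 * D)),
    by positivity, ?_⟩
  have hYt : ∀ᶠ T : ℝ in atTop, 0 ≤ Yt T := by
    have h1 : ∀ᶠ x : ℝ in atTop, 2 * Real.log x ≤ x := by
      have h := Real.isLittleO_log_id_atTop.bound (by norm_num : (0 : ℝ) < 1 / 2)
      filter_upwards [h, eventually_ge_atTop (1 : ℝ)] with x hx h1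
      rw [id, Real.norm_of_nonneg (Real.log_nonneg h1), Real.norm_of_nonneg (by linarith)] at hx
      linarith
    filter_upwards [Q61.EW.tendsto_La.eventually h1] with T hT
    unfold Yt
    linarith
  filter_upwards [hYt, Q61.EW.tendsto_La.eventually_ge_atTop 1,
    Q61.EW.tendsto_La.eventually_ge_atTop (u ^ 2), eventually_gt_atTop 1] with T hY hL1 hLu hT s hs
  have hL0 : 0 < La T := by linarith
  have hs2 : s ^ 2 ≤ u ^ 2 := sq_le_sq.2 hs
  have hV1 : VV (Yt T) ≤ Yt T + D := by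
    have := (abs_le.1 (hD (Yt T) hY)).2
    linarith
  have hYL : Yt T ≤ La T := by
    unfold Yt
    have := Real.log_nonneg hL1
    linarith
  have hV2 : VV (Yt T) ≤ La T + D := by linarith
  have hVe : VV (Yt T) = ∑ p ∈ Nat.primesBelow (zc (Yt T)), (1 : ℝ) / (p : ℝ) := rfl
  have hw : ∑ p ∈ Nat.primesBelow (zc (Yt T)), ‖wc T s p‖ ^ 2 / (p : ℝ) ≤ u ^ 2 / 4 * (1 + D) := by
    have h1 : ∀ p ∈ Nat.primesBelow (zc (Yt T)), ‖wc T s p‖ ^ 2 / (p : ℝ) ≤
        (u ^ 2 / (4 * La T)) * (1 / (p : ℝ)) := by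
      intro p _
      have h2 := pow_le_pow_left₀ (norm_nonneg _) (wc_norm hL0 s p) 2
      rw [div_pow, mul_pow, Real.sq_sqrt hL0.le, sq_abs] at h2
      have h3 : s ^ 2 / (2 ^ 2 * La T) ≤ u ^ 2 / (4 * La T) := by
        have : (2 : ℝ) ^ 2 = 4 := by norm_num
        rw [this]
        exact div_le_div_of_nonneg_right hs2 (by positivity)
      rw [← div_eq_mul_one_div]
      exact div_le_div_of_nonneg_right (h2.trans h3) (by positivity)
    refine (Finset.sum_le_sum h1).trans ?_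
    rw [← Finset.mul_sum, ← hVe]
    have h2 : u ^ 2 / (4 * La T) * VV (Yt T) ≤ u ^ 2 / (4 * La T) * (La T + D) :=
      mul_le_mul_of_nonneg_left hV2 (by positivity)
    refine h2.trans ?_
    have h3 : u ^ 2 / (4 * La T) * (La T + D) = u ^ 2 / 4 * (1 + D / La T) := by
      field_simp
    rw [h3]
    have h4 : D / La T ≤ D := div_le_self hD0 hL1
    exact mul_le_mul_of_nonneg_left (by linarith) (by positivity)
  have hwn : ∀ p, ‖wc T s p‖ ≤ 2 := by
    intro p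
    refine (wc_norm hL0 s p).trans ?_
    rw [div_le_iff₀ (by positivity)]
    have h1 : |s| ≤ Real.sqrt (La T) := by
      rw [← Real.sqrt_sq_eq_abs]
      exact Real.sqrt_le_sqrt (hs2.trans hLu)
    have := Real.sqrt_nonneg (La T)
    linarith
  obtain ⟨b1, b2⟩ := hC (el T) (zc (Yt T)) (wc T s) hwn (fun p hp => wc_zero s hp)
    (fun p => wc_re T s p)
  have hR : Real.exp (51 * ∑ p ∈ Nat.primesBelow (zc (Yt T)), (1 : ℝ) / (p : ℝ)) /
      (7 / 5 : ℝ) ^ (el T) ≤ Real.exp (51 * D) := by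
    rw [div_le_iff₀ (by positivity), ← hVe]
    have h1 := pow_el (el T)
    have h2 : Real.exp (51 * La T) ≤ (7 / 5 : ℝ) ^ (el T) := by
      refine le_trans (Real.exp_le_exp.2 ?_) h1
      have := Q61.EW.le_el (T := T)
      linarith
    have h3 : Real.exp (51 * D) * Real.exp (51 * La T) ≤ Real.exp (51 * D) * (7 / 5 : ℝ) ^ (el T) :=
      mul_le_mul_of_nonneg_left h2 (Real.exp_pos _).le
    refine le_trans ?_ h3
    rw [← Real.exp_add]
    exact Real.exp_le_exp.2 (by linarith)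
  have hE : Real.exp (∑ p ∈ Nat.primesBelow (zc (Yt T)), ‖wc T s p‖ ^ 2 / (p : ℝ)) ≤ K1 := by
    rw [hK1]
    exact Real.exp_le_exp.2 hw
  have hYe : Real.exp (Yt T) = Real.log T / La T ^ 2 := by
    rw [Q61.EW.exp_Yt hL0, ← Q61.EW.log_eq hT]
  have hQ1 : 1 ≤ Real.log T / La T ^ 2 := by
    rw [← hYe]
    exact Real.one_le_exp hY
  obtain ⟨Q, hQ⟩ : ∃ Q, Q = Real.log T / La T ^ 2 := ⟨_, rfl⟩
  rw [← hQ] at hYe hQ1 ⊢
  have hQ4 : 1 ≤ Q ^ 4 := one_le_pow₀ hQ1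
  constructor
  · refine b1.trans ?_
    have h1 : Real.exp (4 * (∑ p ∈ Nat.primesBelow (zc (Yt T)), (1 : ℝ) / (p : ℝ)) +
        ∑ p ∈ Nat.primesBelow (zc (Yt T)), ‖wc T s p‖ ^ 2 / (p : ℝ)) ≤
        Real.exp (4 * D) * K1 * Q ^ 4 := by
      rw [← hVe, Real.exp_add]
      have h2 : Real.exp (4 * VV (Yt T)) ≤ Real.exp (4 * D) * Q ^ 4 := by
        have h3 : Q ^ 4 = Real.exp (4 * Yt T) := by
          rw [← hYe, ← Real.exp_nat_mul]
          norm_num
        rw [h3, ← Real.exp_add]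
        exact Real.exp_le_exp.2 (by linarith)
      refine (mul_le_mul h2 hE (Real.exp_pos _).le (by positivity)).trans (le_of_eq ?_)
      ring
    have h2 : Real.exp (51 * ∑ p ∈ Nat.primesBelow (zc (Yt T)), (1 : ℝ) / (p : ℝ)) /
      (7 / 5 : ℝ) ^ (el T) ≤ Real.exp (51 * D) * Q ^ 4 :=
      hR.trans (le_mul_of_one_le_right (Real.exp_pos _).le hQ4)
    refine (mul_le_mul_of_nonneg_left (add_le_add h1 h2) hC0.le).trans ?_
    have h3 : 0 ≤ C * (K1 + Real.exp (51 * D)) * Q ^ 4 := by positivity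
    nlinarith
  · refine (b2.trans (mul_le_mul_of_nonneg_left (add_le_add hE hR) hC0.le)).trans ?_
    have h3 : 0 ≤ C * (Real.exp (4 * D) * K1 + Real.exp (51 * D)) := by positivity
    linarith

theorem t_AP2c (hV : J_MV) (hE : J_EXP) (hEc : J_EXPc) (hM : J_MULT) (hR : J_FR2) (hRHO : J_RHO)
    (hMT : J_MERT) (hCEP : J_CEP) : J_AP2c := by
  obtain ⟨C, hC, hMV⟩ := hV
  obtain ⟨C1, T0, hC1, hT0, hloc⟩ := chi_local
  intro η u hη hη1
  obtain ⟨CR, hRHO⟩ := hRHO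
  have hRHO := hRHO η hη hη1
  obtain ⟨K, hK0, hK⟩ := nm_scales hCEP hMT u
  obtain ⟨K2, hK2⟩ : ∃ K2, K2 = Real.sqrt K * CR ^ 2 + 1 := ⟨_, rfl⟩
  have hK20 : 0 < K2 := by rw [hK2]; positivity
  refine ⟨(4 * C1 * (2 + C) + 2 * (2 + C) + 4) / η * (K2 * Real.sqrt K), ?_⟩
  have hLt : Tendsto (fun T : ℝ => η * Real.log T) atTop atTop :=
    Real.tendsto_log_atTop.const_mul_atTop hη
  filter_upwards [eventually_ge_atTop T0, eventually_ge_atTop 4,
    hLt.eventually (eventually_ge_atTop 2), hRHO, hK, Q61.EW.grow 4 hη,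
    Q61.EW.tendsto_La.eventually_ge_atTop 1] with T hTT0 hT4 hL2 hRHO hK hg hL1 U hU1 hU
  have hTp : 0 < T := by linarith
  have hT1 : 1 < T := by linarith
  have hZ : 1 ≤ zc (Yt T) := by
    have := Q61.EW.two_le_zc (Yt T)
    omega
  have hL0 : 0 < La T := by linarith
  have hg1 := hg (Yt T) le_rfl
  have hZ1 : (1 : ℝ) ≤ ((zc (Yt T) : ℕ) : ℝ) := by exact_mod_cast hZ
  have hW0 : Wt (zc (Yt T)) (0 : ℕ → ℝ) := fun p => by simp
  obtain ⟨hEa, hEb⟩ := hEc (zc (Yt T)) (el T) (wc T u) hZ (fun p hp => wc_zero u hp)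
  obtain ⟨hEa', hEb'⟩ := hEc (zc (Yt T)) (el T) (wc T (-u)) hZ (fun p hp => wc_zero (-u) hp)
  have hsmF := (hE (zc (Yt T)) (el T) 0 hZ hW0).2.2.1
  have hdd : FS (zc (Yt T) ^ el T * Nt η T) (dd η T) := FS_mul hsmF (FS_ro _ _)
  obtain ⟨c, hc⟩ : ∃ c, c = dd η T * dd η T * tr (el T) (exc (wc T u)) := ⟨_, rfl⟩
  have hcF : FS ((zc (Yt T) ^ el T * Nt η T) * (zc (Yt T) ^ el T * Nt η T) * zc (Yt T) ^ el T) c := by
    rw [hc]
    exact FS_mul (FS_mul hdd hdd) hEa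
  have hcdp : ∀ t, dp c t = Dp η T t ^ 2 * eT (el T) (PVc (zc (Yt T)) (wc T u) t) := by
    intro t
    rw [hc, dp_mul (FS_mul hdd hdd) hEa, dp_mul hdd hdd, hEb]
    unfold Dp
    ring
  have hcG : c = Gt (el T) (zc (Yt T)) (wc T u) *
      (ro (zc (Yt T)) (Nt η T) * ro (zc (Yt T)) (Nt η T)) := by
    rw [hc]
    unfold dd Gt
    ring
  have hGF : FS (zc (Yt T) ^ el T * zc (Yt T) ^ el T * zc (Yt T) ^ el T)
      (Gt (el T) (zc (Yt T)) (wc T u)) := FS_mul (FS_mul hsmF hsmF) hEa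
  have hGS : Q61.EW.Su (fun n => n ∈ Nat.smoothNumbers (zc (Yt T)))
      (Gt (el T) (zc (Yt T)) (wc T u)) :=
    (((Q61.EW.Su_sm _).tr _).mul (Q61.EW.Cl_smooth _) ((Q61.EW.Su_sm _).tr _)).mul
      (Q61.EW.Cl_smooth _) ((Q61.EW.Su_exc fun p hp => wc_zero u hp).tr _)
  have hRS := (Q61.EW.Su_ro (zc (Yt T)) (Nt η T)).mul (Q61.EW.Cl_rough (zc (Yt T)))
    (Q61.EW.Su_ro (zc (Yt T)) (Nt η T))
  have hnc : nm c = nm (Gt (el T) (zc (Yt T)) (wc T u)) *
      nm (ro (zc (Yt T)) (Nt η T) * ro (zc (Yt T)) (Nt η T)) := by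
    rw [hcG]
    exact hM (zc (Yt T)) _ _ _ _ hGF (FS_mul (FS_ro _ _) (FS_ro _ _)) hGS hRS
  have hrr : nm (ro (zc (Yt T)) (Nt η T) * ro (zc (Yt T)) (Nt η T)) ≤ (CR * La T ^ 2) ^ 4 := by
    have h1 := hR (zc (Yt T)) (Nt η T) 0
    rw [sh_zero] at h1
    exact h1.trans (pow_le_pow_left₀ (Pool.Agent.Q80.EW.nm_nonneg _) hRHO 4)
  obtain ⟨kG, kE⟩ := hK u le_rfl
  have kE' := (hK (-u) (by rw [abs_neg])).2
  have hLp : 0 < Real.log T := by
    have : 0 < η * Real.log T := by linarith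
    exact pos_of_mul_pos_right this hη.le
  have hnα : nm c ≤ (K2 * Real.log T ^ 2) ^ 2 := by
    rw [hnc]
    have h1 : nm (Gt (el T) (zc (Yt T)) (wc T u)) *
      nm (ro (zc (Yt T)) (Nt η T) * ro (zc (Yt T)) (Nt η T)) ≤
      K * (Real.log T / La T ^ 2) ^ 4 * (CR * La T ^ 2) ^ 4 :=
      mul_le_mul kG hrr (Pool.Agent.Q80.EW.nm_nonneg _) (by positivity)
    refine h1.trans ?_
    have h2 : K * (Real.log T / La T ^ 2) ^ 4 * (CR * La T ^ 2) ^ 4 =
        (Real.sqrt K * CR ^ 2 * Real.log T ^ 2) ^ 2 := by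
      have h3 : Real.sqrt K ^ 2 = K := Real.sq_sqrt hK0.le
      have h4 : (Real.sqrt K * CR ^ 2 * Real.log T ^ 2) ^ 2 =
        Real.sqrt K ^ 2 * (CR ^ 4 * Real.log T ^ 4) := by ring
      rw [h4, h3]
      field_simp
    rw [h2]
    refine pow_le_pow_left₀ (by positivity) ?_ 2
    refine mul_le_mul_of_nonneg_right ?_ (by positivity)
    rw [hK2]
    linarith
  have hnβ : nm (tr (el T) (exc (wc T (-u)))) ≤ Real.sqrt K ^ 2 := by
    rw [Real.sq_sqrt hK0.le]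
    exact kE'
  have hgl : ((zc (Yt T) : ℕ) : ℝ) ^ (el T) ≤ T ^ η :=
    (pow_le_pow_right₀ hZ1 (by omega)).trans hg1
  have hX : (((zc (Yt T) ^ el T * Nt η T) * (zc (Yt T) ^ el T * Nt η T) *
      zc (Yt T) ^ el T : ℕ) : ℝ) ≤ T ^ (1 - 3 * η) := by
    have h2 := Q61.EW.Nt_le (η := η) hTp
    have h3 : (Nt η T : ℝ) * (Nt η T : ℝ) ≤ T ^ (1 / 2 - 2 * η) * T ^ (1 / 2 - 2 * η) :=
      mul_le_mul h2 h2 (by positivity) (by positivity)
    have h4 : ((zc (Yt T) : ℕ) : ℝ) ^ (3 * el T) ≤ T ^ η :=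
      (pow_le_pow_right₀ hZ1 (by omega)).trans hg1
    push_cast
    calc ((zc (Yt T) : ℕ) : ℝ) ^ el T * (Nt η T : ℝ) * (((zc (Yt T) : ℕ) : ℝ) ^ el T * (Nt η T : ℝ)) *
          ((zc (Yt T) : ℕ) : ℝ) ^ el T =
        ((zc (Yt T) : ℕ) : ℝ) ^ (3 * el T) * ((Nt η T : ℝ) * (Nt η T : ℝ)) := by
          rw [mul_comm 3 (el T), pow_mul]
          ring
      _ ≤ T ^ η * (T ^ (1 / 2 - 2 * η) * T ^ (1 / 2 - 2 * η)) :=
          mul_le_mul h4 h3 (by positivity) (by positivity)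
      _ = T ^ (1 - 3 * η) := by
        rw [← Real.rpow_add hTp, ← Real.rpow_add hTp]
        congr 1
        ring
  have key := osc_gen hC hMV hC1 hT0 hloc hcF hEa' (T := T) (U := U) (α := K2 * Real.log T ^ 2)
    (β := Real.sqrt K) (η := η) hη (by linarith) hTT0 hT4 hL2 hX (by push_cast; exact hgl)
    (by positivity) (by positivity) hnα hnβ hU1 hU
  have hcong : ∀ t h : ℝ, (starRingEnd ℂ) (chi (t + h)) * Dp η T (t + h) ^ 2 *
    (eT (el T) (PVc (zc (Yt T)) (wc T u) (t + h)) *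
      (starRingEnd ℂ) (eT (el T) (PVc (zc (Yt T)) (wc T (-u)) (t + h)))) =
      (starRingEnd ℂ) (chi (t + h)) * (dp c (t + h) *
        (starRingEnd ℂ) (dp (tr (el T) (exc (wc T (-u)))) (t + h))) := by
    intro t h
    rw [hcdp, hEb']
    ring
  simp only [hcong]
  refine key.trans ?_
  have h1 : K2 * Real.log T ^ 2 * Real.sqrt K * (T / Real.log T) =
      K2 * Real.sqrt K * (T * Real.log T) := by
    field_simp
  rw [h1]
  have h2 : T * Real.log T ≤ T * La T ^ 5 * Real.log T := by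
    have h3 : (1 : ℝ) ≤ La T ^ 5 := one_le_pow₀ hL1
    have h4 : 0 < T * Real.log T := by positivity
    nlinarith
  have h5 : (4 * C1 * (2 + C) + 2 * (2 + C) + 4) / η * (K2 * Real.sqrt K * (T * Real.log T)) ≤
      (4 * C1 * (2 + C) + 2 * (2 + C) + 4) / η * (K2 * Real.sqrt K * (T * La T ^ 5 * Real.log T)) :=
    mul_le_mul_of_nonneg_left (mul_le_mul_of_nonneg_left h2 (by positivity)) (by positivity)
  refine h5.trans (le_of_eq ?_)
  ring

end

end Pool.Agent.Q247.EW
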