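import Pool.Agent.Q247.EW.AP2

/-!
Project EWX, job AP2c, part 1: the oscillating integral of a product `F conj G` over windows.
-/

set_option autoImplicit false

namespace Pool.Agent.Q247.EW

open Filter Topology MeasureTheory Pool.Agent.Q80.EW

noncomputable section

/-- the phase frozen -/
theorem freeze2 {C T0 : ℝ} (hC : 0 < C) (hT0 : 2 ≤ T0)
    (hloc : ∀ t : ℝ, T0 ≤ t → ∀ h : ℝ, |h| ≤ t / 2 →
    ‖(starRingEnd ℂ) (chi (t + h)) - (starRingEnd ℂ) (chi t) *
      Complex.exp (((h * Real.log (t / (2 * Real.pi)) : ℝ) : ℂ) * Complex.I)‖ ≤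
      C * (1 + h ^ 2) / t) {F : ℝ → ℂ} (hF : Continuous F) {T t U : ℝ} (hT : T0 ≤ T) (ht : T ≤ t)
    (hU0 : 0 ≤ U) (hU : U ≤ T / 2) :
    ‖∫ h in (0 : ℝ)..U, (starRingEnd ℂ) (chi (t + h)) * F (t + h)‖ ≤
      C * (1 + U ^ 2) / T * (∫ h in (0 : ℝ)..U, ‖F (t + h)‖) +
      ‖∫ h in (0 : ℝ)..U, Complex.exp (((h * Real.log (t / (2 * Real.pi)) : ℝ) : ℂ) * Complex.I) *
        F (t + h)‖ := by
  have hTp : 0 < T := by linarith
  have hDc : Continuous fun h : ℝ => F (t + h) := hF.comp (by fun_prop)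
  have hnn : 0 ≤ ∫ h in (0 : ℝ)..U, ‖F (t + h)‖ :=
    intervalIntegral.integral_nonneg hU0 fun h _ => by positivity
  by_cases hi : IntervalIntegrable (fun h => (starRingEnd ℂ) (chi (t + h)) * F (t + h))
    volume 0 U
  · have hg : Continuous fun h : ℝ => (starRingEnd ℂ) (chi t) *
        (Complex.exp (((h * Real.log (t / (2 * Real.pi)) : ℝ) : ℂ) * Complex.I) * F (t + h)) :=
      continuous_const.mul ((by fun_prop : Continuous fun h : ℝ =>
        Complex.exp (((h * Real.log (t / (2 * Real.pi)) : ℝ) : ℂ) * Complex.I)).mul hDc)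
    have h1 : ∫ h in (0 : ℝ)..U, (starRingEnd ℂ) (chi (t + h)) * F (t + h) =
        (∫ h in (0 : ℝ)..U, ((starRingEnd ℂ) (chi (t + h)) * F (t + h) -
          (starRingEnd ℂ) (chi t) *
          (Complex.exp (((h * Real.log (t / (2 * Real.pi)) : ℝ) : ℂ) * Complex.I) *
            F (t + h)))) + (starRingEnd ℂ) (chi t) *
          ∫ h in (0 : ℝ)..U, (Complex.exp (((h * Real.log (t / (2 * Real.pi)) : ℝ) : ℂ) *
            Complex.I) * F (t + h)) := by
      rw [intervalIntegral.integral_sub hi (hg.intervalIntegrable _ _),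
        intervalIntegral.integral_const_mul, sub_add_cancel]
    rw [h1]
    refine (norm_add_le _ _).trans (add_le_add ?_ ?_)
    · rw [← intervalIntegral.integral_const_mul]
      refine intervalIntegral.norm_integral_le_of_norm_le hU0 ?_ ?_
      · refine Eventually.of_forall fun h hh => ?_
        have h2 := hloc t (hT.trans ht) h (by
          rw [abs_of_nonneg hh.1.le]
          linarith [hh.2])
        have h3 : (starRingEnd ℂ) (chi (t + h)) * F (t + h) - (starRingEnd ℂ) (chi t) *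
          (Complex.exp (((h * Real.log (t / (2 * Real.pi)) : ℝ) : ℂ) * Complex.I) *
            F (t + h)) = ((starRingEnd ℂ) (chi (t + h)) - (starRingEnd ℂ) (chi t) *
          Complex.exp (((h * Real.log (t / (2 * Real.pi)) : ℝ) : ℂ) * Complex.I)) *
            F (t + h) := by ring
        rw [h3, norm_mul]
        refine mul_le_mul_of_nonneg_right (h2.trans ?_) (by positivity)
        have h4 : h ^ 2 ≤ U ^ 2 := pow_le_pow_left₀ hh.1.le hh.2 2
        exact div_le_div₀ (by positivity) (by gcongr) hTp ht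
      · exact (continuous_const.mul hDc.norm).intervalIntegrable _ _
    · rw [norm_mul]
      have h2 : ‖(starRingEnd ℂ) (chi t)‖ = 1 := by
        rw [chi_conj]
        exact H345.norm_XX_half t
      rw [h2, one_mul]
  · rw [intervalIntegral.integral_undef hi, norm_zero]
    positivity

/-- the oscillating integral of a finite family of frequencies -/
theorem fam {ι : Type} (P : Finset ι) (z : ι → ℂ) (lam : ι → ℝ) {m U V : ℝ} (hm : 0 < m)
    (hl : ∀ p ∈ P, m ≤ lam p) (hV : 0 ≤ V) :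
    ‖∫ h in (0 : ℝ)..U, ∑ p ∈ P, z p * Complex.exp (((h * lam p : ℝ) : ℂ) * Complex.I)‖ ≤
      (∫ v in (0 : ℝ)..V, ‖∑ p ∈ P, z p *
        (Complex.exp (((U * lam p : ℝ) : ℂ) * Complex.I) - 1) *
          ((Real.exp (-(lam p * v)) : ℝ) : ℂ)‖) +
      2 * Real.exp (-(m * V)) / m * ∑ p ∈ P, ‖z p‖ := by
  obtain ⟨S, hS⟩ : ∃ S : ℝ → ℂ, S = fun v => ∑ p ∈ P, z p *
        (Complex.exp (((U * lam p : ℝ) : ℂ) * Complex.I) - 1) *
          ((Real.exp (-(lam p * v)) : ℝ) : ℂ) := ⟨_, rfl⟩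
  have hSc : Continuous S := by
    rw [hS]
    exact continuous_finsetSum _ fun p _ => by fun_prop
  have hSv : ∀ v, ‖∑ p ∈ P, z p *
        (Complex.exp (((U * lam p : ℝ) : ℂ) * Complex.I) - 1) *
          ((Real.exp (-(lam p * v)) : ℝ) : ℂ)‖ = ‖S v‖ := fun v => by rw [hS]
  simp only [hSv]
  have e1 : ∫ h in (0 : ℝ)..U, ∑ p ∈ P, z p * Complex.exp (((h * lam p : ℝ) : ℂ) * Complex.I) =
      -Complex.I * ((∫ v in (0 : ℝ)..V, S v) + ∑ p ∈ P,
        z p * (Complex.exp (((U * lam p : ℝ) : ℂ) * Complex.I) - 1) *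
          ((Real.exp (-(lam p * V)) / lam p : ℝ) : ℂ)) := by
    rw [intervalIntegral.integral_finset_sum (fun p _ =>
      ((by fun_prop : Continuous fun h : ℝ => z p *
        Complex.exp (((h * lam p : ℝ) : ℂ) * Complex.I)).intervalIntegrable _ _))]
    have h2 : ∫ v in (0 : ℝ)..V, S v = ∑ p ∈ P,
        z p * (Complex.exp (((U * lam p : ℝ) : ℂ) * Complex.I) - 1) *
          ((∫ v in (0 : ℝ)..V, Real.exp (-(lam p * v)) : ℝ) : ℂ) := by
      rw [hS]
      simp only
      rw [intervalIntegral.integral_finset_sum (fun p _ =>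
        ((by fun_prop : Continuous fun v : ℝ =>
          z p * (Complex.exp (((U * lam p : ℝ) : ℂ) * Complex.I) - 1) *
            ((Real.exp (-(lam p * v)) : ℝ) : ℂ)).intervalIntegrable _ _))]
      refine Finset.sum_congr rfl fun p _ => ?_
      rw [intervalIntegral.integral_const_mul, intervalIntegral.integral_ofReal]
    rw [h2, ← Finset.sum_add_distrib, Finset.mul_sum]
    refine Finset.sum_congr rfl fun p hp => ?_
    rw [intervalIntegral.integral_const_mul, osc (lt_of_lt_of_le hm (hl p hp)) U V]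
    ring
  rw [e1, norm_mul, norm_neg, Complex.norm_I, one_mul]
  refine (norm_add_le _ _).trans (add_le_add ?_ ?_)
  · exact intervalIntegral.norm_integral_le_integral_norm hV
  · refine (norm_sum_le _ _).trans ?_
    rw [Finset.mul_sum]
    refine Finset.sum_le_sum fun p hp => ?_
    have hln := hl p hp
    have hlp : 0 < lam p := lt_of_lt_of_le hm hln
    rw [norm_mul, norm_mul, Complex.norm_real, Real.norm_eq_abs, abs_of_pos (by positivity)]
    have h1 : ‖Complex.exp (((U * lam p : ℝ) : ℂ) * Complex.I) - 1‖ ≤ 2 := by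
      have h0 := norm_sub_le (Complex.exp (((U * lam p : ℝ) : ℂ) * Complex.I)) 1
      rw [Complex.norm_exp_ofReal_mul_I, norm_one] at h0
      linarith
    have h2 : Real.exp (-(lam p * V)) / lam p ≤ Real.exp (-(m * V)) / m :=
      div_le_div₀ (Real.exp_pos _).le
        (Real.exp_le_exp.2 (neg_le_neg (mul_le_mul_of_nonneg_right hln hV))) hm hln
    have h4 : ‖z p‖ * ‖Complex.exp (((U * lam p : ℝ) : ℂ) * Complex.I) - 1‖ ≤
        ‖z p‖ * 2 := mul_le_mul_of_nonneg_left h1 (norm_nonneg _)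
    calc _ ≤ ‖z p‖ * 2 * (Real.exp (-(m * V)) / m) := mul_le_mul h4 h2 (by positivity) (by positivity)
      _ = 2 * Real.exp (-(m * V)) / m * ‖z p‖ := by ring

/-- the product of the two polynomials as a family of frequencies -/
theorem pr_eq {X M : ℕ} {c b : ArithmeticFunction ℂ} (hc : FS X c) (hb : FS M b) (l t h v : ℝ) :
    ((Real.exp (-(l * v)) : ℝ) : ℂ) * (Complex.exp (((h * l : ℝ) : ℂ) * Complex.I) *
      (dp (bv c v) (t + h) * (starRingEnd ℂ) (dp (bv b (-v)) (t + h)))) =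
    ∑ p ∈ Finset.Icc 1 X ×ˢ Finset.Icc 1 M, (c p.1 * np p.1 t * (starRingEnd ℂ) (b p.2 * np p.2 t)) *
      Complex.exp (((h * (l - Real.log p.1 + Real.log p.2) : ℝ) : ℂ) * Complex.I) *
        ((Real.exp (-((l - Real.log p.1 + Real.log p.2) * v)) : ℝ) : ℂ) := by
  rw [dp_np (bv_FS hc v), dp_np (bv_FS hb (-v)), map_sum, Finset.sum_mul_sum, ← Finset.sum_product',
    Finset.mul_sum, Finset.mul_sum]
  refine Finset.sum_congr rfl fun p hp => ?_
  rw [Finset.mem_product, Finset.mem_Icc, Finset.mem_Icc] at hp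
  have h1 : (0 : ℝ) < (p.1 : ℝ) := by exact_mod_cast hp.1.1
  have h2 : (0 : ℝ) < (p.2 : ℝ) := by exact_mod_cast hp.2.1
  rw [bv_apply, bv_apply, np_add hp.1.1, np_add hp.2.1]
  simp only [map_mul, Complex.conj_ofReal, ← Complex.exp_conj, Complex.conj_I]
  have e1 : ((Real.exp (-((l - Real.log p.1 + Real.log p.2) * v)) : ℝ) : ℂ) =
      ((Real.exp (-(l * v)) : ℝ) : ℂ) * (((p.1 : ℝ) ^ v : ℝ) : ℂ) * (((p.2 : ℝ) ^ (-v) : ℝ) : ℂ) := by
    rw [← Complex.ofReal_mul, ← Complex.ofReal_mul]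
    congr 1
    rw [Real.rpow_def_of_pos h1, Real.rpow_def_of_pos h2, ← Real.exp_add, ← Real.exp_add]
    congr 1
    ring
  have e2 : Complex.exp (((h * (l - Real.log p.1 + Real.log p.2) : ℝ) : ℂ) * Complex.I) =
      Complex.exp (((h * l : ℝ) : ℂ) * Complex.I) *
      Complex.exp (((-(h * Real.log p.1) : ℝ) : ℂ) * Complex.I) *
      Complex.exp (((-(h * Real.log p.2) : ℝ) : ℂ) * (-Complex.I)) := by
    rw [← Complex.exp_add, ← Complex.exp_add]
    congr 1
    push_cast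
    ring
  rw [e1, e2]
  ring

theorem bv_zero (c : ArithmeticFunction ℂ) : bv c 0 = c := by
  ext n
  rw [bv_apply, Real.rpow_zero, Complex.ofReal_one, mul_one]

/-- the bound for the integral with the frozen phase -/
theorem mid2 {X M : ℕ} {c b : ArithmeticFunction ℂ} (hc : FS X c) (hb : FS M b)
    {l m U V t : ℝ} (hm : 0 < m)
    (hl : ∀ n ∈ Finset.Icc 1 X, m ≤ l - Real.log n) (hV : 0 ≤ V) :
    ‖∫ h in (0 : ℝ)..U, Complex.exp (((h * l : ℝ) : ℂ) * Complex.I) *
      (dp c (t + h) * (starRingEnd ℂ) (dp b (t + h)))‖ ≤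
      (∫ v in (0 : ℝ)..V, Real.exp (-(l * v)) * (‖dp (bv c v) (t + U)‖ * ‖dp (bv b (-v)) (t + U)‖ +
        ‖dp (bv c v) t‖ * ‖dp (bv b (-v)) t‖)) +
      2 * Real.exp (-(m * V)) / m *
        ((∑ n ∈ Finset.Icc 1 X, ‖c n‖) * ∑ n ∈ Finset.Icc 1 M, ‖b n‖) := by
  have h0 : ∀ h : ℝ, Complex.exp (((h * l : ℝ) : ℂ) * Complex.I) *
      (dp c (t + h) * (starRingEnd ℂ) (dp b (t + h))) =
      ∑ p ∈ Finset.Icc 1 X ×ˢ Finset.Icc 1 M, (c p.1 * np p.1 t *
        (starRingEnd ℂ) (b p.2 * np p.2 t)) *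
      Complex.exp (((h * (l - Real.log p.1 + Real.log p.2) : ℝ) : ℂ) * Complex.I) := by
    intro h
    have h1 := pr_eq hc hb l t h 0
    rw [neg_zero, bv_zero, bv_zero] at h1
    simpa using h1
  simp only [h0]
  have hlp : ∀ p ∈ Finset.Icc 1 X ×ˢ Finset.Icc 1 M, m ≤ l - Real.log (p.1 : ℕ) + Real.log (p.2 : ℕ) := by
    intro p hp
    rw [Finset.mem_product] at hp
    have h1 := hl p.1 hp.1
    have h2 : 0 ≤ Real.log (p.2 : ℕ) := Real.log_natCast_nonneg _
    linarith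
  refine (fam _ _ _ hm hlp hV).trans (add_le_add ?_ ?_)
  · refine intervalIntegral.integral_mono_on hV ?_ ?_ ?_
    · refine Continuous.intervalIntegrable ?_ _ _
      exact (continuous_finsetSum _ fun p _ => by fun_prop).norm
    · refine Continuous.intervalIntegrable ?_ _ _
      have k1 := (bv_cont1 hc (t + U)).norm
      have k2 := (bv_cont1 hc t).norm
      have k3 := ((bv_cont1 hb (t + U)).comp continuous_neg).norm
      have k4 := ((bv_cont1 hb t).comp continuous_neg).norm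
      exact (by fun_prop : Continuous fun v : ℝ => Real.exp (-(l * v))).mul ((k1.mul k3).add (k2.mul k4))
    · intro v _
      have h1 : ∑ p ∈ Finset.Icc 1 X ×ˢ Finset.Icc 1 M, c p.1 * np p.1 t *
          (starRingEnd ℂ) (b p.2 * np p.2 t) *
          (Complex.exp (((U * (l - Real.log p.1 + Real.log p.2) : ℝ) : ℂ) * Complex.I) - 1) *
          ((Real.exp (-((l - Real.log p.1 + Real.log p.2) * v)) : ℝ) : ℂ) =
          ((Real.exp (-(l * v)) : ℝ) : ℂ) * (Complex.exp (((U * l : ℝ) : ℂ) * Complex.I) *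
      (dp (bv c v) (t + U) * (starRingEnd ℂ) (dp (bv b (-v)) (t + U)))) -
          ((Real.exp (-(l * v)) : ℝ) : ℂ) * (Complex.exp (((0 * l : ℝ) : ℂ) * Complex.I) *
      (dp (bv c v) (t + 0) * (starRingEnd ℂ) (dp (bv b (-v)) (t + 0)))) := by
        rw [pr_eq hc hb, pr_eq hc hb, ← Finset.sum_sub_distrib]
        refine Finset.sum_congr rfl fun p _ => ?_
        simp only [zero_mul, Complex.ofReal_zero, Complex.exp_zero]
        ring
      rw [h1]
      have h5 : 0 < Real.exp (-(l * v)) := Real.exp_pos _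
      refine (norm_sub_le _ _).trans ?_
      rw [norm_mul, norm_mul, norm_mul, norm_mul, norm_mul, norm_mul, Complex.norm_conj,
        Complex.norm_conj, Complex.norm_exp_ofReal_mul_I, Complex.norm_exp_ofReal_mul_I,
        Complex.norm_real, Real.norm_eq_abs, abs_of_pos h5, add_zero]
      refine le_of_eq ?_
      ring
  · refine mul_le_mul_of_nonneg_left ?_ (by positivity)
    rw [Finset.sum_mul_sum, ← Finset.sum_product']
    refine Finset.sum_le_sum fun p hp => ?_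
    rw [Finset.mem_product, Finset.mem_Icc, Finset.mem_Icc] at hp
    rw [norm_mul, Complex.norm_conj, norm_mul, norm_mul]
    refine mul_le_mul ?_ ?_ (by positivity) (by positivity)
    · exact mul_le_of_le_one_right (norm_nonneg _) (np_norm_le hp.1.1 t)
    · exact mul_le_of_le_one_right (norm_nonneg _) (np_norm_le hp.2.1 t)

/-- the mean of a product -/
theorem L2_bd {C : ℝ} (hC : 0 < C) (hMV : ∀ (X : ℕ) (f : ArithmeticFunction ℂ), FS X f →
    ∀ a b : ℝ, a ≤ b → |(∫ t in a..b, ‖dp f t‖ ^ 2) - (b - a) * nm f| ≤ C * X * nm f)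
    {X Y : ℕ} {f g : ArithmeticFunction ℂ} (hf : FS X f) (hg : FS Y g) {T a α β : ℝ} (hT : 0 < T)
    (hX : (X : ℝ) ≤ T) (hY : (Y : ℝ) ≤ T)
    (hα : 0 < α) (hβ : 0 < β) (hn : nm f ≤ α ^ 2) (hn' : nm g ≤ β ^ 2) :
    ∫ t in a..(a + 2 * T), ‖dp f t‖ * ‖dp g t‖ ≤ (2 + C) * T * (α * β) := by
  have h1 := mv_le hC hMV hf hX (by linarith : a ≤ a + 2 * T)
  have h1' := mv_le hC hMV hg hY (by linarith : a ≤ a + 2 * T)
  have h2 : ∀ t ∈ Set.Icc a (a + 2 * T), ‖dp f t‖ * ‖dp g t‖ ≤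
      ‖dp f t‖ ^ 2 * (β / (2 * α)) + ‖dp g t‖ ^ 2 * (α / (2 * β)) := by
    intro t _
    have h3 : ‖dp f t‖ ^ 2 * (β / (2 * α)) + ‖dp g t‖ ^ 2 * (α / (2 * β)) - ‖dp f t‖ * ‖dp g t‖ =
        (β * ‖dp f t‖ - α * ‖dp g t‖) ^ 2 / (2 * α * β) := by
      field_simp
      ring
    have h4 : 0 ≤ (β * ‖dp f t‖ - α * ‖dp g t‖) ^ 2 / (2 * α * β) := by positivity
    linarith
  have hc := dp_cont hf
  have hd := dp_cont hg
  have c1 : Continuous fun t : ℝ => ‖dp f t‖ ^ 2 * (β / (2 * α)) :=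
    (hc.norm.pow 2).mul continuous_const
  have c2 : Continuous fun t : ℝ => ‖dp g t‖ ^ 2 * (α / (2 * β)) :=
    (hd.norm.pow 2).mul continuous_const
  have h3 : ∫ t in a..(a + 2 * T), ‖dp f t‖ * ‖dp g t‖ ≤ ∫ t in a..(a + 2 * T),
      (‖dp f t‖ ^ 2 * (β / (2 * α)) + ‖dp g t‖ ^ 2 * (α / (2 * β))) :=
    intervalIntegral.integral_mono_on (μ := volume) (by linarith : a ≤ a + 2 * T)
    ((hc.norm.mul hd.norm).intervalIntegrable _ _) ((c1.add c2).intervalIntegrable _ _) h2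
  rw [intervalIntegral.integral_add (c1.intervalIntegrable _ _)
    (c2.intervalIntegrable _ _),
    intervalIntegral.integral_mul_const, intervalIntegral.integral_mul_const] at h3
  refine h3.trans ?_
  have h4 : (a + 2 * T - a + C * T) * nm f ≤ (2 + C) * T * α ^ 2 := by
    have : a + 2 * T - a + C * T = (2 + C) * T := by ring
    rw [this]
    exact mul_le_mul_of_nonneg_left hn (by positivity)
  have h4' : (a + 2 * T - a + C * T) * nm g ≤ (2 + C) * T * β ^ 2 := by
    have : a + 2 * T - a + C * T = (2 + C) * T := by ring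
    rw [this]
    exact mul_le_mul_of_nonneg_left hn' (by positivity)
  have h5 : (∫ t in a..(a + 2 * T), ‖dp f t‖ ^ 2) * (β / (2 * α)) ≤
      (2 + C) * T * α ^ 2 * (β / (2 * α)) :=
    mul_le_mul_of_nonneg_right (h1.trans h4) (by positivity)
  have h5' : (∫ t in a..(a + 2 * T), ‖dp g t‖ ^ 2) * (α / (2 * β)) ≤
      (2 + C) * T * β ^ 2 * (α / (2 * β)) :=
    mul_le_mul_of_nonneg_right (h1'.trans h4') (by positivity)
  have h6 : (2 + C) * T * α ^ 2 * (β / (2 * α)) = (2 + C) * T * (α * β) / 2 := by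
    field_simp
  have h6' : (2 + C) * T * β ^ 2 * (α / (2 * β)) = (2 + C) * T * (α * β) / 2 := by
    field_simp
  rw [h6] at h5
  rw [h6'] at h5'
  linarith

/-- the damped coefficients with negative parameter -/
theorem nm_bv_neg {X : ℕ} {b : ArithmeticFunction ℂ} (hb : FS X b) {v : ℝ} (hv : 0 ≤ v) :
    nm (bv b (-v)) ≤ nm b := by
  rw [nm_eq (bv_FS hb (-v)), nm_eq hb]
  refine Finset.sum_le_sum fun n hn => ?_
  have hn1 := (Finset.mem_Icc.1 hn).1
  have hn0 : (1 : ℝ) ≤ n := by exact_mod_cast hn1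
  rw [bv_apply, norm_mul, Complex.norm_real, Real.norm_eq_abs, abs_of_nonneg (by positivity)]
  refine div_le_div_of_nonneg_right (pow_le_pow_left₀ (by positivity) ?_ 2) (by positivity)
  refine mul_le_of_le_one_right (norm_nonneg _) ?_
  exact Real.rpow_le_one_of_one_le_of_nonpos hn0 (by linarith)

theorem sum_nm {X : ℕ} {c : ArithmeticFunction ℂ} (hc : FS X c) {α : ℝ} (hα : 0 ≤ α)
    (hn : nm c ≤ α ^ 2) : ∑ n ∈ Finset.Icc 1 X, ‖c n‖ ≤ X * α := by
  have h1 : (∑ n ∈ Finset.Icc 1 X, ‖c n‖) ^ 2 ≤ (X * α) ^ 2 := by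
    have h2 := Finset.sum_mul_sq_le_sq_mul_sq (Finset.Icc 1 X) (fun n : ℕ => Real.sqrt n)
      (fun n => ‖c n‖ / Real.sqrt n)
    have h3 : ∀ n ∈ Finset.Icc 1 X, Real.sqrt n * (‖c n‖ / Real.sqrt n) = ‖c n‖ := by
      intro n hn
      have hn0 : (0 : ℝ) < n := by exact_mod_cast (Finset.mem_Icc.1 hn).1
      have := Real.sqrt_pos.2 hn0
      field_simp
    have h4 : ∀ n ∈ Finset.Icc 1 X, (‖c n‖ / Real.sqrt n) ^ 2 = ‖c n‖ ^ 2 / n := by
      intro n hn
      have hn0 : (0 : ℝ) < n := by exact_mod_cast (Finset.mem_Icc.1 hn).1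
      rw [div_pow, Real.sq_sqrt hn0.le]
    have h5 : ∑ n ∈ Finset.Icc 1 X, Real.sqrt (n : ℝ) ^ 2 ≤ (X : ℝ) ^ 2 := by
      have h6 : ∀ n ∈ Finset.Icc 1 X, Real.sqrt (n : ℝ) ^ 2 ≤ (X : ℝ) := by
        intro n hn
        rw [Real.sq_sqrt (by positivity)]
        exact_mod_cast (Finset.mem_Icc.1 hn).2
      refine (Finset.sum_le_sum h6).trans ?_
      rw [Finset.sum_const, Nat.card_Icc, nsmul_eq_mul, sq]
      simp
    rw [Finset.sum_congr rfl h3, Finset.sum_congr rfl h4, ← nm_eq hc] at h2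
    rw [mul_pow]
    exact h2.trans (mul_le_mul h5 hn (nm_nonneg c) (by positivity))
  exact (pow_le_pow_iff_left₀ (Finset.sum_nonneg fun n _ => norm_nonneg _) (by positivity)
    two_ne_zero).1 h1

/-- the mean over windows of the product -/
theorem G1_bd2 {C : ℝ} (hC : 0 < C) (hMV : ∀ (X : ℕ) (f : ArithmeticFunction ℂ), FS X f →
    ∀ a b : ℝ, a ≤ b → |(∫ t in a..b, ‖dp f t‖ ^ 2) - (b - a) * nm f| ≤ C * X * nm f)
    {X Y : ℕ} {f g : ArithmeticFunction ℂ} (hf : FS X f) (hg : FS Y g) {T U α β : ℝ} (hT : 0 < T)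
    (hX : (X : ℝ) ≤ T) (hY : (Y : ℝ) ≤ T)
    (hα : 0 < α) (hβ : 0 < β) (hn : nm f ≤ α ^ 2) (hn' : nm g ≤ β ^ 2) (hU : 0 ≤ U) :
    Continuous (fun t => ∫ h in (0 : ℝ)..U, ‖dp f (t + h) * (starRingEnd ℂ) (dp g (t + h))‖) ∧
    ∫ t in T..(3 * T), ∫ h in (0 : ℝ)..U, ‖dp f (t + h) * (starRingEnd ℂ) (dp g (t + h))‖ ≤
      U * ((2 + C) * T * (α * β)) := by
  have hc := dp_cont hf
  have hd := dp_cont hg
  obtain ⟨F, hF⟩ : ∃ F : ℝ → ℝ → ℝ, F = fun t h => ‖dp f (t + h)‖ * ‖dp g (t + h)‖ := ⟨_, rfl⟩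
  have hFc : Continuous F.uncurry := by
    rw [hF]
    exact (hc.comp (continuous_fst.add continuous_snd)).norm.mul
      (hd.comp (continuous_fst.add continuous_snd)).norm
  have hFv : ∀ t h, ‖dp f (t + h) * (starRingEnd ℂ) (dp g (t + h))‖ = F t h := fun t h => by
    rw [hF, norm_mul, Complex.norm_conj]
  simp only [hFv]
  refine ⟨par_cont hFc _ _, ?_⟩
  rw [swap_cont hFc]
  have h1 : ∀ h ∈ Set.Icc (0 : ℝ) U, ∫ t in T..(3 * T), F t h ≤ (2 + C) * T * (α * β) := by
    intro h _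
    rw [hF]
    simp only
    rw [intervalIntegral.integral_comp_add_right (fun t => ‖dp f t‖ * ‖dp g t‖) h]
    have h2 := L2_bd hC hMV hf hg (a := T + h) hT hX hY hα hβ hn hn'
    have h3 : T + h + 2 * T = 3 * T + h := by ring
    rw [h3] at h2
    exact h2
  have h2 : Continuous fun h => ∫ t in T..(3 * T), F t h :=
    par_cont (F := fun h t => F t h) (hFc.comp continuous_swap) _ _
  have h3 := intervalIntegral.integral_mono_on (μ := volume) hU (h2.intervalIntegrable _ _)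
    (continuous_const.intervalIntegrable _ _) h1
  rw [intervalIntegral.integral_const, smul_eq_mul, sub_zero] at h3
  exact h3

/-- the second part of the majorant -/
theorem G2_bd2 {C : ℝ} (hC : 0 < C) (hMV : ∀ (X : ℕ) (f : ArithmeticFunction ℂ), FS X f →
    ∀ a b : ℝ, a ≤ b → |(∫ t in a..b, ‖dp f t‖ ^ 2) - (b - a) * nm f| ≤ C * X * nm f)
    {X M : ℕ} {c b : ArithmeticFunction ℂ} (hc : FS X c) (hb : FS M b) {T U V A B α β : ℝ}
    (hT : 0 < T)
    (hX : (X : ℝ) ≤ T) (hM : (M : ℝ) ≤ T) (hV : 0 ≤ V)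
    (hB : ∀ n ∈ Finset.Icc 1 X, Real.log n ≤ B) (hAB : B < A)
    (hα : 0 < α) (hβ : 0 < β) (hn : nm c ≤ α ^ 2) (hn' : nm b ≤ β ^ 2) :
    Continuous (fun t => ∫ v in (0 : ℝ)..V, Real.exp (-(A * v)) *
      (‖dp (bv c v) (t + U)‖ * ‖dp (bv b (-v)) (t + U)‖ + ‖dp (bv c v) t‖ * ‖dp (bv b (-v)) t‖)) ∧
    ∫ t in T..(3 * T), ∫ v in (0 : ℝ)..V, Real.exp (-(A * v)) *
      (‖dp (bv c v) (t + U)‖ * ‖dp (bv b (-v)) (t + U)‖ + ‖dp (bv c v) t‖ * ‖dp (bv b (-v)) t‖) ≤
      2 * (2 + C) * T * (α * β) / (A - B) := by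
  obtain ⟨F, hF⟩ : ∃ F : ℝ → ℝ → ℝ, F = fun t v => Real.exp (-(A * v)) *
      (‖dp (bv c v) (t + U)‖ * ‖dp (bv b (-v)) (t + U)‖ + ‖dp (bv c v) t‖ * ‖dp (bv b (-v)) t‖) :=
    ⟨_, rfl⟩
  have hFc : Continuous F.uncurry := by
    rw [hF]
    have h1 := bv_cont2 hc U
    have h2 := bv_cont2 hc 0
    have h3 := (bv_cont2 hb U).comp
      (continuous_fst.prodMk continuous_snd.neg : Continuous fun p : ℝ × ℝ => (p.1, -p.2))
    have h4 := (bv_cont2 hb 0).comp
      (continuous_fst.prodMk continuous_snd.neg : Continuous fun p : ℝ × ℝ => (p.1, -p.2))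
    simp only [Function.comp_def, add_zero] at h2 h3 h4
    exact ((by fun_prop : Continuous fun v : ℝ => Real.exp (-(A * v))).comp continuous_snd).mul
      ((h1.norm.mul h3.norm).add (h2.norm.mul h4.norm))
  have hFv : ∀ t v, Real.exp (-(A * v)) *
      (‖dp (bv c v) (t + U)‖ * ‖dp (bv b (-v)) (t + U)‖ + ‖dp (bv c v) t‖ * ‖dp (bv b (-v)) t‖) =
      F t v := fun t v => by rw [hF]
  simp only [hFv]
  refine ⟨par_cont hFc _ _, ?_⟩
  rw [swap_cont hFc]
  have h1 : ∀ v ∈ Set.Icc (0 : ℝ) V, ∫ t in T..(3 * T), F t v ≤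
      2 * (2 + C) * T * (α * β) * Real.exp (-((A - B) * v)) := by
    intro v hv
    have hα' : 0 < Real.exp (B * v) * α := by positivity
    have hnm : nm (bv c v) ≤ (Real.exp (B * v) * α) ^ 2 := by
      refine (nm_bv hc hv.1 hB).trans ?_
      rw [mul_pow]
      exact mul_le_mul_of_nonneg_left hn (by positivity)
    have hnm' : nm (bv b (-v)) ≤ β ^ 2 := (nm_bv_neg hb hv.1).trans hn'
    have hcc := dp_cont (bv_FS hc v)
    have hcb := dp_cont (bv_FS hb (-v))
    have e1 := L2_bd hC hMV (bv_FS hc v) (bv_FS hb (-v)) (a := T) hT hX hM hα' hβ hnm hnm'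
    have e2 := L2_bd hC hMV (bv_FS hc v) (bv_FS hb (-v)) (a := T + U) hT hX hM hα' hβ hnm hnm'
    have e3 : ∫ t in T..(3 * T), F t v = Real.exp (-(A * v)) *
        ((∫ t in T..(3 * T), ‖dp (bv c v) (t + U)‖ * ‖dp (bv b (-v)) (t + U)‖) +
          ∫ t in T..(3 * T), ‖dp (bv c v) t‖ * ‖dp (bv b (-v)) t‖) := by
      rw [hF]
      simp only
      rw [intervalIntegral.integral_const_mul, intervalIntegral.integral_add]
      · exact ((hcc.comp (by fun_prop : Continuous fun t : ℝ => t + U)).norm.mul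
          (hcb.comp (by fun_prop : Continuous fun t : ℝ => t + U)).norm).intervalIntegrable _ _
      · exact (hcc.norm.mul hcb.norm).intervalIntegrable _ _
    rw [e3, intervalIntegral.integral_comp_add_right
      (fun t => ‖dp (bv c v) t‖ * ‖dp (bv b (-v)) t‖) U]
    have e4 : T + 2 * T = 3 * T := by ring
    have e5 : T + U + 2 * T = 3 * T + U := by ring
    rw [e4] at e1
    rw [e5] at e2
    have e6 : Real.exp (-((A - B) * v)) = Real.exp (-(A * v)) * Real.exp (B * v) := by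
      rw [← Real.exp_add]
      congr 1
      ring
    rw [e6]
    have e7 : (∫ t in (T + U)..(3 * T + U), ‖dp (bv c v) t‖ * ‖dp (bv b (-v)) t‖) +
        ∫ t in T..(3 * T), ‖dp (bv c v) t‖ * ‖dp (bv b (-v)) t‖ ≤
        2 * ((2 + C) * T * (Real.exp (B * v) * α * β)) := by linarith
    have e8 : 0 ≤ Real.exp (-(A * v)) := (Real.exp_pos _).le
    refine (mul_le_mul_of_nonneg_left e7 e8).trans (le_of_eq ?_)
    ring
  have h2 : Continuous fun v => ∫ t in T..(3 * T), F t v :=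
    par_cont (F := fun v t => F t v) (hFc.comp continuous_swap) _ _
  have h4 : Continuous fun v : ℝ => 2 * (2 + C) * T * (α * β) * Real.exp (-((A - B) * v)) := by
    fun_prop
  have h3 := intervalIntegral.integral_mono_on (μ := volume) hV (h2.intervalIntegrable _ _)
    (h4.intervalIntegrable _ _) h1
  rw [intervalIntegral.integral_const_mul, int_exp_neg (by linarith : 0 < A - B)] at h3
  refine h3.trans ?_
  have e8 := Real.exp_pos (-((A - B) * V))
  have e9 : (1 - Real.exp (-((A - B) * V))) / (A - B) ≤ 1 / (A - B) :=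
    div_le_div_of_nonneg_right (by linarith) (by linarith)
  have e10 : 0 ≤ 2 * (2 + C) * T * (α * β) := by positivity
  refine (mul_le_mul_of_nonneg_left e9 e10).trans (le_of_eq ?_)
  ring

end

end Pool.Agent.Q247.EW
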