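import Pool.Agent.Q80.EW.Stm
import Pool.Agent.TH110.N4_AFP

/-!
Project EW: basic lemmas on Dirichlet polynomials for the jobs AP1 and AP2.
-/

set_option autoImplicit false

namespace Pool.Agent.Q247.EW

open Filter Topology MeasureTheory Pool.Agent.Q80.EW
open Pool.Agent.H306R2.SM (cl)
open Pool.Agent.H448R2.GC (cu cs)
open Pool.Agent.TH110.N4_AFP (gs cs_ext)

noncomputable section

/-- the finite form of `dp` -/
theorem dp_eq {X : ℕ} {f : ArithmeticFunction ℂ} (hf : FS X f) (t : ℝ) :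
    dp f t = ∑ n ∈ Finset.Icc 1 X, f n * (n : ℂ) ^ (-((1 / 2 : ℂ) + (t : ℂ) * Complex.I)) := by
  unfold dp LSeries
  rw [tsum_eq_sum (s := Finset.Icc 1 X)]
  · refine Finset.sum_congr rfl fun n hn => ?_
    rw [Finset.mem_Icc] at hn
    rw [LSeries.term_of_ne_zero (by omega), div_eq_mul_inv, Complex.cpow_neg]
  · intro n hn
    by_cases h0 : n = 0
    · rw [h0, LSeries.term_zero]
    · rw [LSeries.term_of_ne_zero h0]
      rw [Finset.mem_Icc] at hn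
      rw [hf n (by omega), zero_div]

theorem nm_eq {X : ℕ} {f : ArithmeticFunction ℂ} (hf : FS X f) :
    nm f = ∑ n ∈ Finset.Icc 1 X, ‖f n‖ ^ 2 / (n : ℝ) := by
  unfold nm
  rw [tsum_eq_sum (s := Finset.Icc 1 X)]
  intro n hn
  by_cases h0 : n = 0
  · rw [h0]
    simp
  · rw [Finset.mem_Icc] at hn
    rw [hf n (by omega)]
    simp

theorem nm_nonneg (f : ArithmeticFunction ℂ) : 0 ≤ nm f :=
  tsum_nonneg fun n => by positivity

theorem dp_cont {X : ℕ} {f : ArithmeticFunction ℂ} (hf : FS X f) : Continuous (dp f) := by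
  rw [funext fun t => dp_eq hf t]
  refine continuous_finsetSum _ fun n hn => ?_
  rw [Finset.mem_Icc] at hn
  have hn0 : (n : ℂ) ≠ 0 := by
    have : n ≠ 0 := by omega
    exact_mod_cast this
  refine continuous_const.mul ?_
  refine Continuous.const_cpow (by fun_prop) (Or.inl hn0)

/-- the difference -/
def df (f g : ArithmeticFunction ℂ) : ArithmeticFunction ℂ := ⟨fun n => f n - g n, by simp⟩

theorem df_apply (f g : ArithmeticFunction ℂ) (n : ℕ) : df f g n = f n - g n := rfl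

theorem df_FS {X : ℕ} {f g : ArithmeticFunction ℂ} (hf : FS X f) (hg : FS X g) : FS X (df f g) := by
  intro n hn
  rw [df_apply, hf n hn, hg n hn, sub_zero]

theorem dp_df {X : ℕ} {f g : ArithmeticFunction ℂ} (hf : FS X f) (hg : FS X g) (t : ℝ) :
    dp (df f g) t = dp f t - dp g t := by
  rw [dp_eq hf, dp_eq hg, dp_eq (df_FS hf hg), ← Finset.sum_sub_distrib]
  refine Finset.sum_congr rfl fun n _ => ?_
  rw [df_apply, sub_mul]

/-- the coefficients of the smoothed sums -/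
def cf (k : ℕ) (c D : ℝ) : ArithmeticFunction ℂ :=
  ⟨fun m => if m = 0 ∨ ⌊Real.exp (D + k * c)⌋₊ < m then 0 else (cu k c (Real.log m - D) : ℂ),
    by simp⟩

theorem cf_apply (k : ℕ) (c D : ℝ) (m : ℕ) : cf k c D m =
    if m = 0 ∨ ⌊Real.exp (D + k * c)⌋₊ < m then 0 else (cu k c (Real.log m - D) : ℂ) := rfl

theorem cf_FS {k : ℕ} {c D : ℝ} {X : ℕ} (h : ⌊Real.exp (D + k * c)⌋₊ ≤ X) : FS X (cf k c D) := by
  intro n hn
  rw [cf_apply, if_pos (Or.inr (by omega))]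

theorem cs_dp (k : ℕ) (c D : ℝ) (t : ℝ) : cs k c D (cl t) = dp (cf k c D) t := by
  rw [dp_eq (cf_FS (k := k) (c := c) (D := D) le_rfl)]
  unfold cs
  refine Finset.sum_congr rfl fun m hm => ?_
  rw [Finset.mem_Icc] at hm
  rw [cf_apply, if_neg (by omega)]
  rfl

theorem cf_bd {c : ℝ} (hc : 0 < c) (k : ℕ) (D : ℝ) (m : ℕ) :
    ∃ r : ℝ, cf k c D m = (r : ℂ) ∧ 0 ≤ r ∧ r ≤ 1 := by
  rw [cf_apply]
  split_ifs
  · exact ⟨0, by simp, le_rfl, zero_le_one⟩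
  · exact ⟨_, rfl, Pool.Agent.H448R2.GC.cu_nonneg _ _ _ hc, Pool.Agent.H448R2.GC.cu_le_one _ _ _ hc⟩

theorem cf_norm {c : ℝ} (hc : 0 < c) (k : ℕ) (D : ℝ) (m : ℕ) : ‖cf k c D m‖ ≤ 1 := by
  obtain ⟨r, h1, h2, h3⟩ := cf_bd hc k D m
  rw [h1, Complex.norm_real, Real.norm_eq_abs, abs_of_nonneg h2]
  exact h3

theorem sum_inv_le (N : ℕ) : ∑ n ∈ Finset.Icc 1 N, (1 : ℝ) / (n : ℝ) ≤ 1 + Real.log N := by
  have h := harmonic_le_one_add_log N
  rw [harmonic_eq_sum_Icc] at h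
  push_cast at h
  simpa using h

/-- the sum of `1/n` over `a < n ≤ b` -/
theorem sum_Ioc_inv {a b : ℕ} (ha : 1 ≤ a) (hab : a ≤ b) :
    ∑ n ∈ Finset.Ioc a b, (1 : ℝ) / (n : ℝ) ≤ Real.log b - Real.log a := by
  induction b, hab using Nat.le_induction with
  | base => simp
  | succ b hab ih =>
    rw [← Finset.insert_Ioc_right_eq_Ioc_add_one (by omega), Finset.sum_insert (by simp)]
    have hb : (0 : ℝ) < b := by exact_mod_cast (by omega : 0 < b)
    have h1 : Real.log ((b : ℝ) / ((b : ℝ) + 1)) ≤ (b : ℝ) / ((b : ℝ) + 1) - 1 :=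
      Real.log_le_sub_one_of_pos (by positivity)
    rw [Real.log_div hb.ne' (by positivity)] at h1
    have h2 : (b : ℝ) / ((b : ℝ) + 1) - 1 = -(1 / ((b : ℝ) + 1)) := by
      field_simp
      ring
    rw [h2] at h1
    push_cast
    linarith

/-- the sum of `1/n` over `A < n ≤ B` -/
theorem sum_real_inv {A B : ℝ} (hA : 1 ≤ A) (hAB : A ≤ B) (X : ℕ) :
    ∑ n ∈ (Finset.Icc 1 X).filter (fun n : ℕ => A < (n : ℝ) ∧ (n : ℝ) ≤ B), (1 : ℝ) / (n : ℝ) ≤
      Real.log B - Real.log A + 1 := by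
  have ha : 1 ≤ ⌊A⌋₊ := Nat.le_floor (by exact_mod_cast hA)
  have hab : ⌊A⌋₊ ≤ ⌊B⌋₊ := Nat.floor_mono hAB
  have h1 : (Finset.Icc 1 X).filter (fun n : ℕ => A < (n : ℝ) ∧ (n : ℝ) ≤ B) ⊆
      Finset.Ioc ⌊A⌋₊ ⌊B⌋₊ := by
    intro n hn
    rw [Finset.mem_filter] at hn
    rw [Finset.mem_Ioc]
    exact ⟨(Nat.floor_lt (by linarith)).2 hn.2.1, Nat.le_floor hn.2.2⟩
  have h2 := (Finset.sum_le_sum_of_subset_of_nonneg (f := fun n : ℕ => (1 : ℝ) / (n : ℝ)) h1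
    (fun n _ _ => by positivity)).trans (sum_Ioc_inv ha hab)
  refine h2.trans ?_
  have hB : (0 : ℝ) < B := by linarith
  have hbp : (0 : ℝ) < (⌊B⌋₊ : ℝ) := by exact_mod_cast (by omega : 0 < ⌊B⌋₊)
  have hap : (0 : ℝ) < (⌊A⌋₊ : ℝ) := by exact_mod_cast (by omega : 0 < ⌊A⌋₊)
  have h3 : Real.log (⌊B⌋₊ : ℝ) ≤ Real.log B := Real.log_le_log hbp (Nat.floor_le hB.le)
  have h4 : Real.log A - Real.log 2 ≤ Real.log (⌊A⌋₊ : ℝ) := by
    rw [← Real.log_div (by linarith) two_ne_zero]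
    refine Real.log_le_log (by linarith) ?_
    have h5 := Nat.lt_floor_add_one A
    have h6 : (1 : ℝ) ≤ (⌊A⌋₊ : ℝ) := by exact_mod_cast ha
    linarith
  have h5 := Real.log_two_lt_d9
  linarith

theorem nm_le_log {X : ℕ} {f : ArithmeticFunction ℂ} (hf : FS X f) (h1 : ∀ n, ‖f n‖ ≤ 1) :
    nm f ≤ 1 + Real.log X := by
  rw [nm_eq hf]
  refine le_trans (Finset.sum_le_sum fun n _ => ?_) (sum_inv_le X)
  refine div_le_div_of_nonneg_right ?_ (by positivity)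
  exact pow_le_one₀ (norm_nonneg _) (h1 n)

/-- the upper bound in the mean value theorem -/
theorem mv_le {C : ℝ} (hC : 0 < C) (hMV : ∀ (X : ℕ) (f : ArithmeticFunction ℂ), FS X f →
    ∀ a b : ℝ, a ≤ b → |(∫ t in a..b, ‖dp f t‖ ^ 2) - (b - a) * nm f| ≤ C * X * nm f)
    {X : ℕ} {f : ArithmeticFunction ℂ} (hf : FS X f) {T a b : ℝ} (hX : (X : ℝ) ≤ T) (hab : a ≤ b) :
    ∫ t in a..b, ‖dp f t‖ ^ 2 ≤ ((b - a) + C * T) * nm f := by
  have h1 := (abs_le.1 (hMV X f hf a b hab)).2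
  have h2 : C * X * nm f ≤ C * T * nm f :=
    mul_le_mul_of_nonneg_right (mul_le_mul_of_nonneg_left hX hC.le) (nm_nonneg f)
  linarith

end

end Pool.Agent.Q247.EW
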