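import Pool.Agent.Q80.EW.Stm
import Pool.Agent.Y753.NL.Cur

/-!
Project EW, job CL: convergence of the moment generating functions implies convergence in law.
-/

set_option autoImplicit false

namespace Pool.Agent.Q247.EW

open Filter Topology MeasureTheory ProbabilityTheory Pool.Agent.Q80.EW

noncomputable section

section

variable {Ω J : Type} [Fintype J] [MeasurableSpace Ω]

/-- the normalised law of a random vector -/
def law (μ : Measure Ω) (X : J → Ω → ℝ) : Measure (J → ℝ) :=
  (μ Set.univ)⁻¹ • μ.map (fun ω j => X j ω)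

theorem law_prob {μ : Measure Ω} [IsFiniteMeasure μ] {X : J → Ω → ℝ} (hX : ∀ j, Measurable (X j))
    (h0 : μ Set.univ ≠ 0) : IsProbabilityMeasure (law μ X) := by
  constructor
  unfold law
  rw [Measure.smul_apply, Measure.map_apply (measurable_pi_lambda _ hX) MeasurableSet.univ,
    Set.preimage_univ, smul_eq_mul, ENNReal.inv_mul_cancel h0 (measure_ne_top μ _)]

theorem integral_law {μ : Measure Ω} [IsFiniteMeasure μ] {X : J → Ω → ℝ}
    (hX : ∀ j, Measurable (X j)) {g : (J → ℝ) → ℝ} (hg : Continuous g) :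
    ∫ x, g x ∂(law μ X) = (μ.real Set.univ)⁻¹ * ∫ ω, g (fun j => X j ω) ∂μ := by
  unfold law
  rw [integral_smul_measure, integral_map (measurable_pi_lambda _ hX).aemeasurable
    hg.aestronglyMeasurable, ENNReal.toReal_inv, smul_eq_mul]
  rfl

theorem integrable_law {μ : Measure Ω} [IsFiniteMeasure μ] {X : J → Ω → ℝ}
    (hX : ∀ j, Measurable (X j)) (h0 : μ Set.univ ≠ 0) {g : (J → ℝ) → ℝ} (hg : Continuous g)
    (hi : Integrable (fun ω => g (fun j => X j ω)) μ) : Integrable g (law μ X) := by
  unfold law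
  refine Integrable.smul_measure ?_ (ENNReal.inv_ne_top.2 h0)
  rw [integrable_map_measure hg.aestronglyMeasurable (measurable_pi_lambda _ hX).aemeasurable]
  exact hi

theorem law_real {μ : Measure Ω} [IsFiniteMeasure μ] {X : J → Ω → ℝ}
    (hX : ∀ j, Measurable (X j)) {A : Set (J → ℝ)} (hA : MeasurableSet A) :
    (law μ X).real A = (μ.real Set.univ)⁻¹ * μ.real {ω | (fun j => X j ω) ∈ A} := by
  unfold law
  rw [measureReal_def, Measure.smul_apply, Measure.map_apply (measurable_pi_lambda _ hX) hA,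
    smul_eq_mul, ENNReal.toReal_mul, ENNReal.toReal_inv]
  rfl

/-- the linear form -/
def lf (u : J → ℝ) (x : J → ℝ) : ℝ := ∑ j, u j * x j

theorem lf_cont (u : J → ℝ) : Continuous (lf u) := by
  unfold lf
  fun_prop

/-- the limit law in the direction `u` -/
def lim1 (m : ℕ) (u : J → ℝ) : ProbabilityMeasure ℝ :=
  ⟨gaussianReal 0 (Real.toNNReal ((∑ j, u j ^ 2) / (2 * m))), inferInstance⟩

/-- the limit law -/
def limP (m : ℕ) (J : Type) [Fintype J] : ProbabilityMeasure (J → ℝ) :=
  ⟨gm m J, by unfold gm; infer_instance⟩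

theorem integral_gauss (v : NNReal) (s : ℝ) :
    ∫ x, Real.exp (s * x) ∂(gaussianReal 0 v) = Real.exp (v * s ^ 2 / 2) := by
  have h := congrFun (mgf_fun_id_gaussianReal (μ := 0) (v := v)) s
  rw [zero_mul, zero_add] at h
  exact h

variable {m : ℕ} (hm : 1 ≤ m) {μ : ℕ → Measure Ω} {X : ℕ → J → Ω → ℝ}
  (hμ : ∀ n, IsFiniteMeasure (μ n)) (hX : ∀ n j, Measurable (X n j))
  (h0 : ∀ n, μ n Set.univ ≠ 0)
  (h : ∀ u : J → ℝ, (∀ᶠ n in atTop, Integrable (fun ω => Real.exp (∑ j, u j * X n j ω)) (μ n)) ∧
    Tendsto (fun n => ∫ ω, Real.exp (∑ j, u j * X n j ω) ∂(μ n)) atTop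
      (𝓝 (Real.exp ((∑ j, u j ^ 2) / (4 * m)))))

include hμ h in
theorem mass_tendsto : Tendsto (fun n => (μ n).real Set.univ) atTop (𝓝 1) := by
  have h1 := (h 0).2
  simp only [Pi.zero_apply, zero_mul, Finset.sum_const_zero, Real.exp_zero, ne_eq,
    OfNat.ofNat_ne_zero, not_false_eq_true, zero_pow, zero_div] at h1
  refine h1.congr fun n => ?_
  have := hμ n
  rw [integral_const, smul_eq_mul, mul_one]

/-- the laws -/
def PN (hμ : ∀ n, IsFiniteMeasure (μ n)) (hX : ∀ n j, Measurable (X n j))
    (h0 : ∀ n, μ n Set.univ ≠ 0) (n : ℕ) : ProbabilityMeasure (J → ℝ) :=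
  ⟨law (μ n) (X n), by
    have := hμ n
    exact law_prob (hX n) (h0 n)⟩

/-- the laws in the direction `u` -/
def QN (hμ : ∀ n, IsFiniteMeasure (μ n)) (hX : ∀ n j, Measurable (X n j))
    (h0 : ∀ n, μ n Set.univ ≠ 0) (u : J → ℝ) (n : ℕ) : ProbabilityMeasure ℝ :=
  (PN hμ hX h0 n).map (lf_cont u).measurable.aemeasurable

include h in
theorem QN_tendsto (u : J → ℝ) : Tendsto (QN hμ hX h0 u) atTop (𝓝 (lim1 m u)) := by
  have key : ∀ (s : ℝ) (n : ℕ), ∫ x, Real.exp (s * x) ∂(QN hμ hX h0 u n : Measure ℝ) =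
      ((μ n).real Set.univ)⁻¹ * ∫ ω, Real.exp (∑ j, (s * u j) * X n j ω) ∂(μ n) := by
    intro s n
    have := hμ n
    have e1 : (QN hμ hX h0 u n : Measure ℝ) = (law (μ n) (X n)).map (lf u) := rfl
    rw [e1, integral_map (lf_cont u).measurable.aemeasurable
      (by fun_prop : Continuous fun x : ℝ => Real.exp (s * x)).aestronglyMeasurable]
    rw [integral_law (hX n) (g := fun x => Real.exp (s * lf u x))
      ((by fun_prop : Continuous fun x : ℝ => Real.exp (s * x)).comp (lf_cont u))]
    congr 1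
    refine integral_congr_ae (Eventually.of_forall fun ω => ?_)
    change Real.exp (s * ∑ j, u j * X n j ω) = _
    rw [Finset.mul_sum]
    simp only [mul_assoc]
  refine Pool.Agent.Y753.NL.curtiss ?_ ?_
  · intro s
    filter_upwards [(h fun j => s * u j).1] with n hn
    have := hμ n
    have e1 : (QN hμ hX h0 u n : Measure ℝ) = (law (μ n) (X n)).map (lf u) := rfl
    rw [e1, integrable_map_measure
      (by fun_prop : Continuous fun x : ℝ => Real.exp (s * x)).aestronglyMeasurable
      (lf_cont u).measurable.aemeasurable]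
    refine integrable_law (hX n) (h0 n)
      ((by fun_prop : Continuous fun x : ℝ => Real.exp (s * x)).comp (lf_cont u)) ?_
    refine hn.congr (Eventually.of_forall fun ω => ?_)
    change _ = Real.exp (s * ∑ j, u j * X n j ω)
    rw [Finset.mul_sum]
    simp only [mul_assoc]
  · intro s
    have h1 : Tendsto (fun n => ((μ n).real Set.univ)⁻¹ *
        ∫ ω, Real.exp (∑ j, (s * u j) * X n j ω) ∂(μ n)) atTop
        (𝓝 (1⁻¹ * Real.exp ((∑ j, (s * u j) ^ 2) / (4 * m)))) :=
      ((mass_tendsto hμ h).inv₀ one_ne_zero).mul (h fun j => s * u j).2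
    have h2 : ∫ x, Real.exp (s * x) ∂(lim1 m u : Measure ℝ) =
        1⁻¹ * Real.exp ((∑ j, (s * u j) ^ 2) / (4 * m)) := by
      have e1 : (lim1 m u : Measure ℝ) =
        gaussianReal 0 (Real.toNNReal ((∑ j, u j ^ 2) / (2 * m))) := rfl
      rw [e1, integral_gauss, inv_one, one_mul]
      congr 1
      have h3 : 0 ≤ (∑ j, u j ^ 2) / (2 * (m : ℝ)) :=
        div_nonneg (Finset.sum_nonneg fun j _ => sq_nonneg _) (by positivity)
      rw [Real.coe_toNNReal _ h3]
      simp only [mul_pow]
      rw [← Finset.mul_sum]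
      ring
    rw [h2]
    exact h1.congr fun n => (key s n).symm

include hm h in
theorem PN_tendsto : Tendsto (PN hμ hX h0) atTop (𝓝 (limP m J)) := by
  have hc1 : Continuous (WithLp.toLp 2 : (J → ℝ) → EuclideanSpace ℝ J) :=
    PiLp.continuous_toLp 2 _
  have hc2 : Continuous (WithLp.ofLp : EuclideanSpace ℝ J → (J → ℝ)) :=
    PiLp.continuous_ofLp 2 _
  have key : Tendsto (fun n => (PN hμ hX h0 n).map hc1.measurable.aemeasurable) atTop
      (𝓝 ((limP m J).map hc1.measurable.aemeasurable)) := by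
    rw [ProbabilityMeasure.tendsto_iff_tendsto_charFun]
    intro t
    have h1 := (ProbabilityMeasure.tendsto_iff_tendsto_charFun.1
      (QN_tendsto (m := m) hμ hX h0 h (fun j => t j))) 1
    have h2 : ∀ n, charFun ((QN hμ hX h0 (fun j => t j) n : Measure ℝ)) 1 =
        charFun (((PN hμ hX h0 n).map hc1.measurable.aemeasurable :
          ProbabilityMeasure (EuclideanSpace ℝ J)) : Measure (EuclideanSpace ℝ J)) t := by
      intro n
      have e1 : (QN hμ hX h0 (fun j => t j) n : Measure ℝ) =
        (law (μ n) (X n)).map (lf fun j => t j) := rfl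
      have e2 : (((PN hμ hX h0 n).map hc1.measurable.aemeasurable :
          ProbabilityMeasure (EuclideanSpace ℝ J)) : Measure (EuclideanSpace ℝ J)) =
          (law (μ n) (X n)).map (WithLp.toLp 2) := rfl
      rw [e1, e2, charFun_apply_real, charFun_apply,
        integral_map (lf_cont _).measurable.aemeasurable
          (by fun_prop : Continuous fun x : ℝ =>
            Complex.exp (((1 : ℝ) : ℂ) * x * Complex.I)).aestronglyMeasurable,
        integral_map hc1.measurable.aemeasurable
          (by fun_prop : Continuous fun x : EuclideanSpace ℝ J =>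
            Complex.exp ((inner ℝ x t : ℝ) * Complex.I)).aestronglyMeasurable]
      refine integral_congr_ae (Eventually.of_forall fun x => ?_)
      change Complex.exp (((1 : ℝ) : ℂ) * (lf (fun j => t j) x : ℝ) * Complex.I) =
        Complex.exp ((inner ℝ (WithLp.toLp 2 x : EuclideanSpace ℝ J) t : ℝ) * Complex.I)
      have e3 : (inner ℝ (WithLp.toLp 2 x : EuclideanSpace ℝ J) t : ℝ) = lf (fun j => t j) x := by
        rw [PiLp.inner_apply]
        rfl
      rw [e3, Complex.ofReal_one, one_mul]
    have h3 : charFun ((lim1 m (fun j => t j) : Measure ℝ)) 1 =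
        charFun (((limP m J).map hc1.measurable.aemeasurable :
          ProbabilityMeasure (EuclideanSpace ℝ J)) : Measure (EuclideanSpace ℝ J)) t := by
      have e1 : (lim1 m (fun j => t j) : Measure ℝ) =
        gaussianReal 0 (Real.toNNReal ((∑ j, t j ^ 2) / (2 * m))) := rfl
      have e2 : (((limP m J).map hc1.measurable.aemeasurable :
          ProbabilityMeasure (EuclideanSpace ℝ J)) : Measure (EuclideanSpace ℝ J)) =
          (Measure.pi fun _ : J => gaussianReal 0 (Real.toNNReal (1 / (2 * (m : ℝ))))).map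
            (WithLp.toLp 2) := rfl
      rw [e1, e2, charFun_pi]
      simp only [charFun_gaussianReal]
      rw [← Complex.exp_sum]
      congr 1
      have h4 : 0 ≤ (∑ j, t j ^ 2) / (2 * (m : ℝ)) :=
        div_nonneg (Finset.sum_nonneg fun j _ => sq_nonneg _) (by positivity)
      have h5 : 0 ≤ 1 / (2 * (m : ℝ)) := by positivity
      rw [Real.coe_toNNReal _ h4, Real.coe_toNNReal _ h5]
      push_cast
      simp only [mul_zero, zero_mul, zero_sub, one_pow, mul_one]
      rw [Finset.sum_neg_distrib, ← Finset.sum_div, ← Finset.mul_sum]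
      ring
    rw [← h3]
    exact h1.congr h2
  have h6 := ProbabilityMeasure.tendsto_map_of_tendsto_of_continuous _ _ key hc2
  have back : ∀ P : ProbabilityMeasure (J → ℝ),
      (P.map hc1.measurable.aemeasurable).map hc2.measurable.aemeasurable = P := by
    intro P
    apply Subtype.ext
    change ((P : Measure (J → ℝ)).map (WithLp.toLp 2)).map WithLp.ofLp = (P : Measure (J → ℝ))
    rw [Measure.map_map hc2.measurable hc1.measurable]
    exact Measure.map_id
  rw [back] at h6
  exact h6.congr fun n => back _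

include hm hμ hX h0 h in
theorem cl_all {A : Set (J → ℝ)} (hA : MeasurableSet A) (hf : gm m J (frontier A) = 0) :
    Tendsto (fun n => (μ n).real {ω | (fun j => X n j ω) ∈ A}) atTop (𝓝 ((gm m J).real A)) := by
  have h1 := ProbabilityMeasure.tendsto_measure_of_null_frontier_of_tendsto'
    (PN_tendsto hm hμ hX h0 h) (E := A) hf
  have h2 : Tendsto (fun n => (law (μ n) (X n)).real A) atTop (𝓝 ((gm m J).real A)) := by
    have : IsProbabilityMeasure (gm m J) := (limP m J).2
    exact (ENNReal.tendsto_toReal (measure_ne_top _ _)).comp h1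
  have h3 := (mass_tendsto hμ h).mul h2
  rw [one_mul] at h3
  refine h3.congr fun n => ?_
  have := hμ n
  rw [law_real (hX n) hA, ← mul_assoc, mul_inv_cancel₀, one_mul]
  rw [measureReal_def]
  exact (ENNReal.toReal_pos (h0 n) (measure_ne_top _ _)).ne'

end

theorem t_CL : J_CL := by
  intro ι Ω J _ _ l _ μ X m hm hμ hX h A hA hf
  apply tendsto_of_seq_tendsto
  intro x hx
  have e1 := hx.eventually hμ
  have e2 := hx.eventually hX
  have e3 : ∀ u : J → ℝ, (∀ᶠ n in atTop,
      Integrable (fun ω => Real.exp (∑ j, u j * X (x n) j ω)) (μ (x n))) ∧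
      Tendsto (fun n => ∫ ω, Real.exp (∑ j, u j * X (x n) j ω) ∂(μ (x n))) atTop
        (𝓝 (Real.exp ((∑ j, u j ^ 2) / (4 * m)))) := fun u =>
    ⟨hx.eventually (h u).1, (h u).2.comp hx⟩
  have e4 : ∀ᶠ n in atTop, μ (x n) Set.univ ≠ 0 := by
    have h1 := (e3 0).2
    simp only [Pi.zero_apply, zero_mul, Finset.sum_const_zero, Real.exp_zero, ne_eq,
      OfNat.ofNat_ne_zero, not_false_eq_true, zero_pow, zero_div] at h1
    filter_upwards [h1.eventually (lt_mem_nhds (show (0 : ℝ) < 1 by norm_num))] with n hn h0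
    rw [Measure.measure_univ_eq_zero] at h0
    rw [h0, integral_zero_measure] at hn
    exact lt_irrefl _ hn
  obtain ⟨N, hN⟩ := eventually_atTop.1 (e1.and (e2.and e4))
  have key := cl_all (m := m) hm (μ := fun n => μ (x (n + N))) (X := fun n => X (x (n + N)))
    (fun n => (hN (n + N) (Nat.le_add_left _ _)).1)
    (fun n => (hN (n + N) (Nat.le_add_left _ _)).2.1)
    (fun n => (hN (n + N) (Nat.le_add_left _ _)).2.2)
    (fun u => ⟨(tendsto_add_atTop_nat N).eventually (e3 u).1,
      (e3 u).2.comp (tendsto_add_atTop_nat N)⟩) hA hf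
  exact (tendsto_add_atTop_iff_nat N).1 key

end

end Pool.Agent.Q247.EW
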