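import Pool.Agent.Q247.EW.CL

/-!
Project EW, job LV2: the polyhedra have null boundary; two walks.
-/

set_option autoImplicit false

namespace Pool.Agent.Q247.EW

open Filter Topology MeasureTheory ProbabilityTheory Pool.Agent.Q80.EW

noncomputable section

section

variable {J : Type} [Fintype J]

instance gm_prob (m : ℕ) (J : Type) [Fintype J] : IsProbabilityMeasure (gm m J) := by
  unfold gm
  infer_instance

/-- the law of a linear form -/
theorem gm_lf (m : ℕ) (u : J → ℝ) : (gm m J).map (lf u) = (lim1 m u : Measure ℝ) := by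
  have hpr : IsProbabilityMeasure ((gm m J).map (lf u)) :=
    Measure.isProbabilityMeasure_map (lf_cont u).measurable.aemeasurable
  refine Measure.ext_of_charFun ?_
  funext s
  have hc1 : Continuous (WithLp.toLp 2 : (J → ℝ) → EuclideanSpace ℝ J) :=
    PiLp.continuous_toLp 2 _
  have h1 : charFun ((gm m J).map (lf u)) s = charFun ((gm m J).map (WithLp.toLp 2))
      (WithLp.toLp 2 (fun j => s * u j) : EuclideanSpace ℝ J) := by
    rw [charFun_apply_real, charFun_apply,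
      integral_map (lf_cont _).measurable.aemeasurable
        (by fun_prop : Continuous fun x : ℝ =>
          Complex.exp ((s : ℂ) * x * Complex.I)).aestronglyMeasurable,
      integral_map hc1.measurable.aemeasurable
        (by fun_prop : Continuous fun x : EuclideanSpace ℝ J =>
          Complex.exp ((inner ℝ x (WithLp.toLp 2 (fun j => s * u j) : EuclideanSpace ℝ J) : ℝ) *
            Complex.I)).aestronglyMeasurable]
    refine integral_congr_ae (Eventually.of_forall fun x => ?_)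
    change Complex.exp ((s : ℂ) * (lf u x : ℝ) * Complex.I) =
      Complex.exp ((inner ℝ (WithLp.toLp 2 x : EuclideanSpace ℝ J)
        (WithLp.toLp 2 (fun j => s * u j) : EuclideanSpace ℝ J) : ℝ) * Complex.I)
    have e3 : (inner ℝ (WithLp.toLp 2 x : EuclideanSpace ℝ J)
        (WithLp.toLp 2 (fun j => s * u j) : EuclideanSpace ℝ J) : ℝ) = s * lf u x := by
      rw [PiLp.inner_apply]
      change ∑ j, (s * u j) * x j = s * ∑ j, u j * x j
      rw [Finset.mul_sum]
      simp only [mul_assoc]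
    rw [e3, Complex.ofReal_mul]
  rw [h1]
  have e1 : (lim1 m u : Measure ℝ) =
    gaussianReal 0 (Real.toNNReal ((∑ j, u j ^ 2) / (2 * m))) := rfl
  have e2 : (gm m J).map (WithLp.toLp 2 : (J → ℝ) → EuclideanSpace ℝ J) =
      (Measure.pi fun _ : J => gaussianReal 0 (Real.toNNReal (1 / (2 * (m : ℝ))))).map
        (WithLp.toLp 2) := rfl
  rw [e1, e2, charFun_pi]
  simp only [charFun_gaussianReal]
  rw [← Complex.exp_sum]
  congr 1
  have h4 : 0 ≤ (∑ j, u j ^ 2) / (2 * (m : ℝ)) :=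
    div_nonneg (Finset.sum_nonneg fun j _ => sq_nonneg _) (by positivity)
  have h5 : 0 ≤ 1 / (2 * (m : ℝ)) := by positivity
  rw [Real.coe_toNNReal _ h4, Real.coe_toNNReal _ h5]
  push_cast
  simp only [mul_zero, zero_mul, zero_sub, mul_pow]
  rw [Finset.sum_neg_distrib, ← Finset.sum_div, ← Finset.mul_sum, ← Finset.mul_sum]
  ring

theorem gm_null {m : ℕ} (hm : 1 ≤ m) {u : J → ℝ} {j : J} (hj : u j ≠ 0) (b : ℝ) :
    gm m J {x | lf u x = b} = 0 := by
  have h1 : gm m J {x | lf u x = b} = (gm m J).map (lf u) {b} := by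
    rw [Measure.map_apply (lf_cont u).measurable (measurableSet_singleton b)]
    rfl
  rw [h1, gm_lf]
  have hv : Real.toNNReal ((∑ j, u j ^ 2) / (2 * (m : ℝ))) ≠ 0 := by
    rw [ne_eq, Real.toNNReal_eq_zero, not_le]
    have h2 : (0 : ℝ) < m := by exact_mod_cast hm
    have h3 : 0 < ∑ j, u j ^ 2 :=
      Finset.sum_pos' (fun j _ => sq_nonneg _) ⟨j, Finset.mem_univ _, by positivity⟩
    positivity
  change gaussianReal 0 (Real.toNNReal ((∑ j, u j ^ 2) / (2 * (m : ℝ)))) {b} = 0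
  have := nullSingletonClass_gaussianReal (μ := 0) hv
  exact measure_singleton _

/-- a polyhedron -/
theorem poly {m : ℕ} {K : Type} [Finite K] {L : K → (J → ℝ) → ℝ}
    (hL : ∀ k, Continuous (L k)) (b : ℝ) (h0 : ∀ k, gm m J {x | L k x = b} = 0) :
    MeasurableSet {x | ∀ k, L k x ≤ b} ∧ gm m J (frontier {x | ∀ k, L k x ≤ b}) = 0 := by
  have hcl : IsClosed {x | ∀ k, L k x ≤ b} := by
    rw [Set.setOf_forall]
    exact isClosed_iInter fun k => isClosed_le (hL k) continuous_const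
  refine ⟨hcl.measurableSet, ?_⟩
  refine measure_mono_null ?_ (measure_iUnion_null h0)
  intro x hx
  rw [hcl.frontier_eq, Set.mem_diff] at hx
  by_contra h
  rw [Set.mem_iUnion, not_exists] at h
  apply hx.2
  have hop : IsOpen {x | ∀ k, L k x < b} := by
    rw [Set.setOf_forall]
    exact isOpen_iInter_of_finite fun k => isOpen_lt (hL k) continuous_const
  refine mem_interior.2 ⟨{x | ∀ k, L k x < b}, fun y hy k => (hy k).le, hop, fun k => ?_⟩
  exact lt_of_le_of_ne (hx.1 k) (h k)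

end

theorem t_LV2 : J_LV2 := by
  intro m b hm
  obtain ⟨w, hw⟩ : ∃ w : Fin m → Fin m → ℝ, w = fun k i => if i ∈ Finset.Iic k then 1 else 0 :=
    ⟨_, rfl⟩
  have hwk : ∀ k, w k k ≠ 0 := by
    intro k
    rw [hw]
    simp
  have e1 : ∀ k : Fin m, ∀ x : Fin m → ℝ, ∑ i ∈ Finset.Iic k, x i = lf (w k) x := by
    intro k x
    unfold lf
    rw [hw]
    simp only [ite_mul, one_mul, zero_mul]
    rw [Finset.sum_ite_mem, Finset.univ_inter]
  obtain ⟨w1, hw1⟩ : ∃ w1 : Fin m → Fin m ⊕ Fin m → ℝ, w1 = fun k => Sum.elim (w k) (fun _ => (0 : ℝ)) := ⟨_, rfl⟩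
  obtain ⟨w2, hw2⟩ : ∃ w2 : Fin m → Fin m ⊕ Fin m → ℝ, w2 = fun k => Sum.elim (fun _ => (0 : ℝ)) (w k) := ⟨_, rfl⟩
  have e2 : ∀ k : Fin m, ∀ x : Fin m ⊕ Fin m → ℝ,
      ∑ i ∈ Finset.Iic k, x (Sum.inl i) = lf (w1 k) x := by
    intro k x
    rw [e1 k fun i => x (Sum.inl i)]
    unfold lf
    rw [Fintype.sum_sum_type, hw1]
    simp
  have e3 : ∀ k : Fin m, ∀ x : Fin m ⊕ Fin m → ℝ,
      ∑ i ∈ Finset.Iic k, x (Sum.inr i) = lf (w2 k) x := by
    intro k x
    rw [e1 k fun i => x (Sum.inr i)]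
    unfold lf
    rw [Fintype.sum_sum_type, hw2]
    simp
  have p1 := poly (m := m) (J := Fin m) (L := fun (k : Fin m) x => ∑ i ∈ Finset.Iic k, x i)
    (fun k => by fun_prop) b (fun k => by
      simp only [e1]
      exact gm_null hm (hwk k) b)
  obtain ⟨L, hL⟩ : ∃ L : Fin m ⊕ Fin m → (Fin m ⊕ Fin m → ℝ) → ℝ,
      L = Sum.elim (fun k x => ∑ i ∈ Finset.Iic k, x (Sum.inl i))
        (fun k x => ∑ i ∈ Finset.Iic k, x (Sum.inr i)) := ⟨_, rfl⟩
  have hLl : ∀ k x, L (Sum.inl k) x = ∑ i ∈ Finset.Iic k, x (Sum.inl i) := fun k x => by rw [hL]; rfl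
  have hLr : ∀ k x, L (Sum.inr k) x = ∑ i ∈ Finset.Iic k, x (Sum.inr i) := fun k x => by rw [hL]; rfl
  have p2 := poly (m := m) (J := Fin m ⊕ Fin m) (L := L)
    (fun k => by
      rcases k with k | k
      · simp only [funext (hLl k)]
        fun_prop
      · simp only [funext (hLr k)]
        fun_prop) b (fun k => by
      rcases k with k | k
      · simp only [hLl, e2]
        exact gm_null hm (j := Sum.inl k) (by rw [hw1]; exact hwk k) b
      · simp only [hLr, e3]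
        exact gm_null hm (j := Sum.inr k) (by rw [hw2]; exact hwk k) b)
  have hset : {x : Fin m ⊕ Fin m → ℝ | ∀ k, L k x ≤ b} =
      {x : Fin m ⊕ Fin m → ℝ | (∀ k : Fin m, ∑ i ∈ Finset.Iic k, x (Sum.inl i) ≤ b) ∧
        ∀ k : Fin m, ∑ i ∈ Finset.Iic k, x (Sum.inr i) ≤ b} := by
    ext x
    constructor
    · intro h
      exact ⟨fun k => by rw [← hLl]; exact h _, fun k => by rw [← hLr]; exact h _⟩
    · rintro ⟨h1, h2⟩ k
      rcases k with k | k
      · rw [hLl]
        exact h1 k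
      · rw [hLr]
        exact h2 k
  rw [hset] at p2
  refine ⟨p1.1, p1.2, p2.1, p2.2, ?_⟩
  obtain ⟨A, hA⟩ : ∃ A : Set (Fin m → ℝ), A = {x | ∀ k : Fin m, ∑ i ∈ Finset.Iic k, x i ≤ b} :=
    ⟨_, rfl⟩
  have h1 := measurePreserving_sumPiEquivProdPi (X := fun _ : Fin m ⊕ Fin m => ℝ)
    (fun _ => gaussianReal 0 (Real.toNNReal (1 / (2 * (m : ℝ)))))
  have h2 : {x : Fin m ⊕ Fin m → ℝ | (∀ k : Fin m, ∑ i ∈ Finset.Iic k, x (Sum.inl i) ≤ b) ∧
        ∀ k : Fin m, ∑ i ∈ Finset.Iic k, x (Sum.inr i) ≤ b} =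
      (MeasurableEquiv.sumPiEquivProdPi (fun _ : Fin m ⊕ Fin m => ℝ)) ⁻¹' (A ×ˢ A) := by
    rw [hA]
    rfl
  rw [h2, measureReal_def]
  change ((Measure.pi fun _ : Fin m ⊕ Fin m => gaussianReal 0 (Real.toNNReal (1 / (2 * (m : ℝ)))))
    ((MeasurableEquiv.sumPiEquivProdPi (fun _ : Fin m ⊕ Fin m => ℝ)) ⁻¹' (A ×ˢ A))).toReal = _
  rw [h1.measure_preimage_equiv, Measure.prod_prod, ENNReal.toReal_mul, sq]
  unfold gam
  rw [← hA]
  rfl

end

end Pool.Agent.Q247.EW
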